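import Pool.Agent.Lib.MP_c11f22_co.K3.Bits
import Pool.Agent.Lib.MP_c11f22_co.Mg.G001
import Pool.Agent.Lib.MP_c11f22_co.Mg.G014
import Pool.Agent.Lib.MP_c11f22_co.Mg.G017
import Pool.Agent.Lib.MP_c11f22_co.Mg.G019
import Pool.Agent.Lib.MP_c11f22_co.Mg.G016

section

/-!
# Counting bits
-/

set_option autoImplicit false

namespace Pool.Agent.K3

theorem pc8_eq (b : ℕ) : pc8 b = ∑ k ∈ Finset.range 8, (b.testBit k).toNat := by
  have key : ∀ b < 256, Nat.land (Nat.shiftRight pcTab (Nat.mul 4 b)) 15 =
      ∑ k ∈ Finset.range 8, (b.testBit k).toNat := by decide +kernel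
  have h : (255 : ℕ) = 2 ^ 8 - 1 := by norm_num
  have hb : Nat.land b 255 < 256 := by
    show b &&& 255 < 256
    exact lt_of_le_of_lt Nat.and_le_right (by norm_num)
  unfold pc8
  rw [key _ hb]
  apply Finset.sum_congr rfl
  intro k hk
  rw [Finset.mem_range] at hk
  congr 1
  show (b &&& 255).testBit k = _
  rw [Nat.testBit_land, h, Nat.testBit_two_pow_sub_one]
  simp [hk]

theorem ps8_eq (b : ℕ) : ps8 b = ∑ k ∈ Finset.range 8, k * (b.testBit k).toNat := by
  have key : ∀ b < 256, Nat.land (Nat.shiftRight psTab (Nat.mul 8 b)) 255 =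
      ∑ k ∈ Finset.range 8, k * (b.testBit k).toNat := by decide +kernel
  have h : (255 : ℕ) = 2 ^ 8 - 1 := by norm_num
  have hb : Nat.land b 255 < 256 := by
    show b &&& 255 < 256
    exact lt_of_le_of_lt Nat.and_le_right (by norm_num)
  unfold ps8
  rw [key _ hb]
  apply Finset.sum_congr rfl
  intro k hk
  rw [Finset.mem_range] at hk
  congr 2
  show (b &&& 255).testBit k = _
  rw [Nat.testBit_land, h, Nat.testBit_two_pow_sub_one]
  simp [hk]

/-- the positions of the bits below 32 -/
def bits (w : ℕ) : Finset ℕ := (Finset.range 32).filter (fun t => w.testBit t = true)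

theorem mem_bits {w t : ℕ} : t ∈ bits w ↔ t < 32 ∧ w.testBit t = true := by
  simp [bits]

theorem shift_sum (w j : ℕ) (f : ℕ → ℕ) : ∑ k ∈ Finset.range 8, f k * ((Nat.shiftRight w j).testBit k).toNat =
    ∑ k ∈ Finset.range 8, f k * (w.testBit (j + k)).toNat := by
  apply Finset.sum_congr rfl
  intro k _
  congr 2
  show (w >>> j).testBit k = _
  rw [Nat.testBit_shiftRight]

theorem pc_eq (w : ℕ) : pc w = (bits w).card := by
  have e : (bits w).card = ∑ t ∈ Finset.range 32, (w.testBit t).toNat := by
    rw [bits, Finset.card_filter]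
    apply Finset.sum_congr rfl
    intro t _
    cases w.testBit t <;> simp
  have s := fun j => shift_sum w j (fun _ => 1)
  simp only [one_mul] at s
  rw [e]
  show pc8 w + pc8 (Nat.shiftRight w 8) + (pc8 (Nat.shiftRight w 16) + pc8 (Nat.shiftRight w 24)) = _
  rw [pc8_eq, pc8_eq, pc8_eq, pc8_eq, s, s, s]
  simp only [Finset.sum_range_succ, Finset.sum_range_zero]
  ring

theorem ps_eq (w : ℕ) : ps w = ∑ t ∈ bits w, t := by
  have e : ∑ t ∈ bits w, t = ∑ t ∈ Finset.range 32, t * (w.testBit t).toNat := by
    rw [bits, Finset.sum_filter]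
    apply Finset.sum_congr rfl
    intro t _
    cases w.testBit t <;> simp
  have s := fun j => shift_sum w j (fun _ => 1)
  have s' := fun j => shift_sum w j (fun k => k)
  simp only [one_mul] at s
  rw [e]
  show ps8 w + (ps8 (Nat.shiftRight w 8) + 8 * pc8 (Nat.shiftRight w 8)) +
    ((ps8 (Nat.shiftRight w 16) + 16 * pc8 (Nat.shiftRight w 16)) +
      (ps8 (Nat.shiftRight w 24) + 24 * pc8 (Nat.shiftRight w 24))) = _
  rw [pc8_eq, pc8_eq, pc8_eq, ps8_eq, ps8_eq, ps8_eq, ps8_eq, s, s, s, s', s', s']
  simp only [Finset.sum_range_succ, Finset.sum_range_zero]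
  ring

/-- a number with few allowed values cannot carry many different values -/
theorem card_le_pc {α : Type*} {S : Finset α} {f : α → ℕ} {w : ℕ}
    (hinj : ∀ x ∈ S, ∀ y ∈ S, f x = f y → x = y) (h : ∀ x ∈ S, f x < 32 ∧ w.testBit (f x) = true) :
    S.card ≤ pc w := by
  rw [pc_eq]
  exact Finset.card_le_card_of_injOn f (fun x hx => mem_bits.2 (h x hx))
    (fun x hx y hy e => hinj x hx y hy e)

theorem sum_eq_ps {α : Type*} {S : Finset α} {f : α → ℕ} {w : ℕ}
    (hinj : ∀ x ∈ S, ∀ y ∈ S, f x = f y → x = y) (h : ∀ x ∈ S, f x < 32 ∧ w.testBit (f x) = true)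
    (hc : S.card = pc w) : ∑ x ∈ S, f x = ps w := by
  classical
  have him : S.image f = bits w := by
    apply Finset.eq_of_subset_of_card_le
    · intro t ht
      obtain ⟨x, hx, rfl⟩ := Finset.mem_image.1 ht
      exact mem_bits.2 (h x hx)
    · rw [Finset.card_image_of_injOn (fun x hx y hy e => hinj x hx y hy e), hc, pc_eq]
  rw [ps_eq, ← him, Finset.sum_image (fun x hx y hy e => hinj x hx y hy e)]

end Pool.Agent.K3
end

section

/-!
# Realization of a state in a graph, and the elementary changes of a state
-/

set_option autoImplicit false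

namespace Pool.Agent.K3

variable {V : Type*} [Fintype V] [DecidableEq V] (G : SimpleGraph V) [DecidableRel G.Adj]

/-- the number of triangles that contain `x` -/
def tri (x : V) : ℕ := ((G.cliqueFinset 3).filter (fun s => x ∈ s)).card

/-- `c` realizes the state `s` in the graph `G` -/
structure RealC (s : St) (c : V → ℕ) : Prop where
  nc24 : s.nc ≤ 24
  clt : ∀ x, c x < s.nc
  size : ∀ i, i < s.nc → (Finset.univ.filter (fun x => c x = i)).card = dg s.sz i
  one : ∀ x y, x ≠ y → s.m1.testBit (768 * c x + 32 * c y) = true → G.Adj x y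
  zero : ∀ x y, x ≠ y → s.m0.testBit (768 * c x + 32 * c y) = true → ¬ G.Adj x y
  wf1 : ∀ i j, i < 24 → j < 24 → s.m1.testBit (768 * i + 32 * j) = true → i < s.nc ∧ j < s.nc
  wf0 : ∀ i j, i < 24 → j < 24 → s.m0.testBit (768 * i + 32 * j) = true → i < s.nc ∧ j < s.nc
  wfp : ∀ i k, k < 32 → s.pm.testBit (32 * i + k) = true → i < s.nc
  t32 : ∀ x, tri G x < 32
  al : ∀ x, s.al.testBit (32 * c x + tri G x) = true
  cnt : (Finset.univ.filter (fun x => s.pm.testBit (32 * c x + tri G x) = false)).card = s.u
  sum : ∑ x ∈ Finset.univ.filter (fun x => s.pm.testBit (32 * c x + tri G x) = true), tri G x = s.sm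

/-- the number of (ordered) edges between cells `p` and `q` -/
def EE (c : V → ℕ) (p q : ℕ) : ℕ :=
  (Finset.univ.filter (fun z : V × V => c z.1 = p ∧ c z.2 = q ∧ G.Adj z.1 z.2)).card

variable {G}

/-- changing the masks -/
theorem RealC.congr {s : St} {c : V → ℕ} (h : RealC G s c) {pm al : ℕ}
    (hw : ∀ i k, k < 32 → pm.testBit (32 * i + k) = true → i < s.nc)
    (hp : ∀ x, pm.testBit (32 * c x + tri G x) = s.pm.testBit (32 * c x + tri G x))
    (ha : ∀ x, al.testBit (32 * c x + tri G x) = true) :
    RealC G ⟨s.nc, s.m1, s.m0, s.sz, pm, al, s.u, s.sm⟩ c := by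
  refine ⟨h.nc24, h.clt, h.size, h.one, h.zero, h.wf1, h.wf0, hw, h.t32, ha, ?_, ?_⟩
  · show (Finset.univ.filter (fun x => pm.testBit (32 * c x + tri G x) = false)).card = s.u
    simp only [hp]
    exact h.cnt
  · show ∑ x ∈ Finset.univ.filter (fun x => pm.testBit (32 * c x + tri G x) = true), tri G x = s.sm
    simp only [hp]
    exact h.sum

/-- setting an entry `1` -/
theorem RealC.set1 {s : St} {c : V → ℕ} (h : RealC G s c) {p q : ℕ} (hp : p < s.nc) (hq : q < s.nc)
    (hpq : ∀ x y, c x = p → c y = q → G.Adj x y) :
    RealC G ⟨s.nc, setm s.m1 p q, s.m0, s.sz, s.pm, s.al, s.u, s.sm⟩ c := by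
  have hn := h.nc24
  refine ⟨h.nc24, h.clt, h.size, ?_, h.zero, ?_, h.wf0, h.wfp, h.t32, h.al, h.cnt, h.sum⟩
  · intro x y hxy hb
    have hx := h.clt x
    have hy := h.clt y
    rcases setm_testBit (by omega) (by omega) (by omega) hb with h1 | ⟨h1, h2⟩ | ⟨h1, h2⟩
    · exact h.one x y hxy h1
    · exact hpq x y h1 h2
    · exact (hpq y x h2 h1).symm
  · intro i j hi hj hb
    rcases setm_testBit hj (by omega) (by omega) hb with h1 | ⟨h1, h2⟩ | ⟨h1, h2⟩
    · exact h.wf1 i j hi hj h1
    · subst h1 h2; exact ⟨hp, hq⟩
    · subst h1 h2; exact ⟨hq, hp⟩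

/-- setting an entry `0` -/
theorem RealC.set0 {s : St} {c : V → ℕ} (h : RealC G s c) {p q : ℕ} (hp : p < s.nc) (hq : q < s.nc)
    (hpq : ∀ x y, c x = p → c y = q → ¬ G.Adj x y) :
    RealC G ⟨s.nc, s.m1, setm s.m0 p q, s.sz, s.pm, s.al, s.u, s.sm⟩ c := by
  have hn := h.nc24
  refine ⟨h.nc24, h.clt, h.size, h.one, ?_, h.wf1, ?_, h.wfp, h.t32, h.al, h.cnt, h.sum⟩
  · intro x y hxy hb
    have hx := h.clt x
    have hy := h.clt y
    rcases setm_testBit (by omega) (by omega) (by omega) hb with h1 | ⟨h1, h2⟩ | ⟨h1, h2⟩
    · exact h.zero x y hxy h1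
    · exact hpq x y h1 h2
    · exact fun h3 => hpq y x h2 h1 h3.symm
  · intro i j hi hj hb
    rcases setm_testBit hj (by omega) (by omega) hb with h1 | ⟨h1, h2⟩ | ⟨h1, h2⟩
    · exact h.wf0 i j hi hj h1
    · subst h1 h2; exact ⟨hp, hq⟩
    · subst h1 h2; exact ⟨hq, hp⟩

/-- splitting a cell in two: the vertices of cell `i` with `P` stay, the others form the new cell -/
theorem RealC.dup {s : St} {c : V → ℕ} (h : RealC G s c) {i k : ℕ} (hi : i < s.nc) (hn : s.nc < 24)
    (P : V → Prop) [DecidablePred P]
    (hk : (Finset.univ.filter (fun x => c x = i ∧ P x)).card = k) :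
    RealC G ⟨s.nc + 1, dupm s.m1 i s.nc, dupm s.m0 i s.nc,
      setd (setd s.sz i k) s.nc (dg s.sz i - k), dupr s.pm i s.nc, dupr s.al i s.nc, s.u, s.sm⟩
      (fun x => if c x = i ∧ ¬ P x then s.nc else c x) := by
  set c' : V → ℕ := fun x => if c x = i ∧ ¬ P x then s.nc else c x with hc'
  have hsz := h.size i hi
  have hcard : (Finset.univ.filter (fun x => c x = i ∧ P x)).card +
      (Finset.univ.filter (fun x => c x = i ∧ ¬ P x)).card = dg s.sz i := by
    rw [← hsz, ← Finset.card_union_of_disjoint]
    · congr 1
      ext x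
      simp only [Finset.mem_union, Finset.mem_filter, Finset.mem_univ, true_and]
      tauto
    · rw [Finset.disjoint_filter]
      tauto
  have hdl : dg s.sz i < 2 ^ 32 := dg_lt _ _
  have hk32 : k < 2 ^ 32 := by omega
  have hold : ∀ x, c' x = c x ∨ (c' x = s.nc ∧ c x = i) := by
    intro x
    simp only [hc']
    split_ifs with hx
    · exact Or.inr ⟨rfl, hx.1⟩
    · exact Or.inl rfl
  have hprc : ∀ x, (dupr s.pm i s.nc).testBit (32 * c' x + tri G x) = s.pm.testBit (32 * c x + tri G x) := by
    intro x
    rw [dupr_testBit (h.t32 x)]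
    rcases hold x with e | ⟨e, e'⟩
    · have hlt := h.clt x
      have : ¬ (c x = s.nc) := by omega
      rw [e]
      simp [this]
    · rw [e, e']
      have : s.pm.testBit (32 * s.nc + tri G x) = false := by
        by_contra hb
        rw [Bool.not_eq_false] at hb
        exact lt_irrefl _ (h.wfp _ _ (h.t32 x) hb)
      simp [this]
  have hlt : ∀ x, c x < 24 := fun x => lt_of_lt_of_le (h.clt x) (by omega)
  have hmat : ∀ m : ℕ, (∀ i j, i < 24 → j < 24 → m.testBit (768 * i + 32 * j) = true → i < s.nc ∧ j < s.nc) →
      ∀ x y, (dupm m i s.nc).testBit (768 * c' x + 32 * c' y) = true →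
        m.testBit (768 * c x + 32 * c y) = true := by
    intro m hwf x y hb
    have hcx : c' x < 24 := by rcases hold x with e | ⟨e, _⟩ <;> rw [e] <;> [exact hlt x; omega]
    have hcy : c' y < 24 := by rcases hold y with e | ⟨e, _⟩ <;> rw [e] <;> [exact hlt y; omega]
    rcases dupm_testBit hcy (by omega) hb with h1 | ⟨h1, h2⟩ | ⟨h1, h2⟩
    · obtain ⟨h3, h4⟩ := hwf _ _ hcx hcy h1
      rcases hold x with ex | ⟨ex, _⟩
      · rcases hold y with ey | ⟨ey, _⟩
        · rwa [ex, ey] at h1
        · omega
      · omega
    · obtain ⟨h3, h4⟩ := hwf _ _ (by omega) hcy h2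
      rcases hold y with ey | ⟨ey, _⟩
      · rcases hold x with ex | ⟨_, ex⟩
        · have := h.clt x; omega
        · rwa [ey, ← ex] at h2
      · omega
    · obtain ⟨h3, h4⟩ := hwf _ _ hcx (by omega) h2
      rcases hold x with ex | ⟨ex, _⟩
      · rcases hold y with ey | ⟨_, ey⟩
        · have := h.clt y; omega
        · rwa [ex, ← ey] at h2
      · omega
  have hwf : ∀ m : ℕ, (∀ i j, i < 24 → j < 24 → m.testBit (768 * i + 32 * j) = true → i < s.nc ∧ j < s.nc) →
      ∀ a b, a < 24 → b < 24 → (dupm m i s.nc).testBit (768 * a + 32 * b) = true →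
        a < s.nc + 1 ∧ b < s.nc + 1 := by
    intro m hw a b ha hb h1
    rcases dupm_testBit hb (by omega) h1 with h2 | ⟨h2, h3⟩ | ⟨h2, h3⟩
    · have := hw _ _ ha hb h2; omega
    · have := hw _ _ (by omega) hb h3; omega
    · have := hw _ _ ha (by omega) h3; omega
  refine ⟨by show s.nc + 1 ≤ 24; omega, ?_, ?_, ?_, ?_, hwf _ h.wf1, hwf _ h.wf0, ?_, h.t32, ?_, ?_, ?_⟩
  · intro x
    show c' x < s.nc + 1
    have := h.clt x
    rcases hold x with e | ⟨e, _⟩ <;> omega
  · intro j hj
    show (Finset.univ.filter (fun x => c' x = j)).card = dg (setd (setd s.sz i k) s.nc (dg s.sz i - k)) j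
    rw [dg_setd (by omega)]
    split_ifs with hjn
    · have e : (Finset.univ.filter (fun x => c' x = j)) = Finset.univ.filter (fun x => c x = i ∧ ¬ P x) := by
        ext x
        simp only [Finset.mem_filter, Finset.mem_univ, true_and, hc', hjn]
        have := h.clt x
        split_ifs with hx
        · simp [hx]
        · constructor
          · intro e; omega
          · intro e; exact absurd e hx
      rw [e]; omega
    · rw [dg_setd hk32]
      have hj' : j < s.nc := by
        have : j < s.nc + 1 := hj
        omega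
      split_ifs with hji
      · have e : (Finset.univ.filter (fun x => c' x = j)) = Finset.univ.filter (fun x => c x = i ∧ P x) := by
          ext x
          simp only [Finset.mem_filter, Finset.mem_univ, true_and, hc', hji]
          split_ifs with hx
          · constructor
            · intro e; omega
            · intro e; exact absurd e.2 hx.2
          · constructor
            · intro e; exact ⟨e, by by_contra hP; exact hx ⟨e, hP⟩⟩
            · intro e; exact e.1
        rw [e, hk]
      · rw [← h.size j hj']
        congr 1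
        ext x
        simp only [Finset.mem_filter, Finset.mem_univ, true_and, hc']
        split_ifs with hx
        · constructor
          · intro e; omega
          · intro e; exact absurd (hx.1.symm.trans e).symm hji
        · rfl
  · intro x y hxy hb
    exact h.one x y hxy (hmat _ h.wf1 x y hb)
  · intro x y hxy hb
    exact h.zero x y hxy (hmat _ h.wf0 x y hb)
  · intro j k hk hj
    show j < s.nc + 1
    rw [dupr_testBit hk] at hj
    simp only [Bool.or_eq_true, Bool.and_eq_true, decide_eq_true_eq] at hj
    rcases hj with hj | ⟨hj, _⟩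
    · have := h.wfp j k hk hj; omega
    · omega
  · intro x
    show (dupr s.al i s.nc).testBit (32 * c' x + tri G x) = true
    rw [dupr_testBit (h.t32 x)]
    have ha := h.al x
    rcases hold x with e | ⟨e, e'⟩
    · rw [e, ha, Bool.true_or]
    · rw [e'] at ha
      rw [e, ha]
      simp
  · show (Finset.univ.filter (fun x => (dupr s.pm i s.nc).testBit (32 * c' x + tri G x) = false)).card = s.u
    simp only [hprc]
    exact h.cnt
  · show ∑ x ∈ Finset.univ.filter (fun x => (dupr s.pm i s.nc).testBit (32 * c' x + tri G x) = true), tri G x = s.sm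
    simp only [hprc]
    exact h.sum

/-- marking a cell of one vertex as processed -/
theorem RealC.process {s : St} {c : V → ℕ} (h : RealC G s c) {i pm al : ℕ} {x : V}
    (hpx : s.pm.testBit (32 * i + tri G x) = false) (h1 : dg s.sz i = 1) (hx : c x = i)
    (hpm : ∀ j k, j < s.nc → k < 32 → pm.testBit (32 * j + k) = (s.pm.testBit (32 * j + k) || decide (j = i)))
    (hw : ∀ j k, k < 32 → pm.testBit (32 * j + k) = true → j < s.nc)
    (ha : ∀ w, al.testBit (32 * c w + tri G w) = true) :
    RealC G ⟨s.nc, s.m1, s.m0, s.sz, pm, al, Nat.sub s.u 1, Nat.add s.sm (tri G x)⟩ c := by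
  have hi : i < s.nc := hx ▸ h.clt x
  have huniq : ∀ w, c w = i → w = x := by
    intro w hw
    have hc := h.size i hi
    rw [h1, Finset.card_eq_one] at hc
    obtain ⟨a, ha⟩ := hc
    have e1 : w ∈ Finset.univ.filter (fun x => c x = i) := by simp [hw]
    have e2 : x ∈ Finset.univ.filter (fun x => c x = i) := by simp [hx]
    rw [ha, Finset.mem_singleton] at e1 e2
    rw [e1, e2]
  have hpm' : ∀ w, pm.testBit (32 * c w + tri G w) = (s.pm.testBit (32 * c w + tri G w) || decide (w = x)) := by
    intro w
    rw [hpm _ _ (h.clt w) (h.t32 w)]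
    congr 1
    rw [decide_eq_decide]
    exact ⟨huniq w, fun e => e ▸ hx⟩
  refine ⟨h.nc24, h.clt, h.size, h.one, h.zero, h.wf1, h.wf0, hw, h.t32, ha, ?_, ?_⟩
  · have e : (Finset.univ.filter (fun w => pm.testBit (32 * c w + tri G w) = false)) =
        (Finset.univ.filter (fun w => s.pm.testBit (32 * c w + tri G w) = false)).erase x := by
      ext w
      simp only [Finset.mem_filter, Finset.mem_univ, true_and, Finset.mem_erase, hpm',
        Bool.or_eq_false_iff, decide_eq_false_iff_not]
      tauto
    show (Finset.univ.filter (fun w => pm.testBit (32 * c w + tri G w) = false)).card = s.u - 1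
    rw [e, Finset.card_erase_of_mem (by simp [hx, hpx]), h.cnt]
  · have e : (Finset.univ.filter (fun w => pm.testBit (32 * c w + tri G w) = true)) =
        insert x (Finset.univ.filter (fun w => s.pm.testBit (32 * c w + tri G w) = true)) := by
      ext w
      simp only [Finset.mem_filter, Finset.mem_univ, true_and, Finset.mem_insert, hpm',
        Bool.or_eq_true, decide_eq_true_eq]
      tauto
    show ∑ w ∈ Finset.univ.filter (fun w => pm.testBit (32 * c w + tri G w) = true), tri G w = s.sm + tri G x
    rw [e, Finset.sum_insert (by simp [hx, hpx]), h.sum, add_comm]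

/-- a vertex is taken out of its cell and gets its value -/
theorem RealC.ext {s : St} {c : V → ℕ} (h : RealC G s c) {R : ℕ} {x : V} (hn : s.nc < 24)
    (hpx : s.pm.testBit (32 * c x + tri G x) = false)
    (hb : ∀ w, w ≠ x → R.testBit (32 * c w + tri G w) = true) :
    ∃ c', RealC G (extSt s R (tri G x) (c x)) c' := by
  unfold extSt
  have hTlt : Nat.shiftLeft 1 (tri G x) < 2 ^ 32 := by
    show 1 <<< (tri G x) < 2 ^ 32
    rw [Nat.shiftLeft_eq, one_mul]
    exact Nat.pow_lt_pow_right (by norm_num) (h.t32 x)
  by_cases h1 : dg s.sz (c x) = 1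
  · have e : Nat.beq (dg s.sz (c x)) 1 = true := by rw [Nat.beq_eq]; exact h1
    rw [e]
    have hi := h.clt x
    have huniq : ∀ w, c w = c x → w = x := by
      intro w hw
      have hc := h.size _ hi
      rw [h1, Finset.card_eq_one] at hc
      obtain ⟨a, ha⟩ := hc
      have e1 : w ∈ Finset.univ.filter (fun y => c y = c x) := by simp [hw]
      have e2 : x ∈ Finset.univ.filter (fun y => c y = c x) := by simp
      rw [ha, Finset.mem_singleton] at e1 e2
      rw [e1, e2]
    refine ⟨c, h.process hpx h1 rfl (fun j k _ hk => fillRow_testBit hk) ?_ ?_⟩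
    · intro j k hk hj
      rw [fillRow_testBit hk] at hj
      simp only [Bool.or_eq_true, decide_eq_true_eq] at hj
      rcases hj with hj | hj
      · exact h.wfp j k hk hj
      · subst hj; exact hi
    · intro w
      rw [setd_testBit hTlt (h.t32 w)]
      split_ifs with hw
      · rw [huniq w hw, testBit_one_shift]; simp
      · show (s.al &&& R).testBit _ = true
        rw [Nat.testBit_land, h.al w, hb w (fun e => hw (by rw [e]))]
        rfl
  · have e : Nat.beq (dg s.sz (c x)) 1 = false := by
      rw [Bool.eq_false_iff, Ne, Nat.beq_eq]; exact h1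
    rw [e]
    have hi := h.clt x
    have hcard : (Finset.univ.filter (fun w => c w = c x ∧ w ≠ x)).card = dg s.sz (c x) - 1 := by
      rw [← h.size _ hi]
      have : (Finset.univ.filter (fun w => c w = c x ∧ w ≠ x)) =
          (Finset.univ.filter (fun w => c w = c x)).erase x := by
        ext w
        simp only [Finset.mem_filter, Finset.mem_univ, true_and, Finset.mem_erase]
        tauto
      rw [this, Finset.card_erase_of_mem (by simp)]
    have hpos : 0 < dg s.sz (c x) := by
      rw [← h.size _ hi, Finset.card_pos]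
      exact ⟨x, by simp⟩
    have hd := h.dup hi hn (fun w => w ≠ x) hcard
    have hsub : dg s.sz (c x) - (dg s.sz (c x) - 1) = 1 := by omega
    have hpn : ∀ k, k < 32 → s.pm.testBit (32 * s.nc + k) = false := by
      intro k hk
      by_contra hb'
      rw [Bool.not_eq_false] at hb'
      exact lt_irrefl _ (h.wfp _ _ hk hb')
    set c' : V → ℕ := fun w => if c w = c x ∧ ¬ w ≠ x then s.nc else c w with hc'
    have hx' : c' x = s.nc := by simp [hc']
    have hold : ∀ w, w ≠ x → c' w = c w := by
      intro w hw
      simp [hc', hw]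
    rw [hsub] at hd
    refine ⟨c', ?_⟩
    have := hd.process (i := s.nc) (x := x) (pm := fillRow s.pm s.nc)
      (al := Nat.lor (Nat.land s.al R) (Nat.shiftLeft 1 (Nat.add (Nat.mul 32 s.nc) (tri G x))))
      ?_ ?_ hx' ?_ ?_ ?_
    · exact this
    · show (dupr s.pm (c x) s.nc).testBit (32 * s.nc + tri G x) = false
      rw [dupr_testBit (h.t32 x), hpn _ (h.t32 x), hpx]
      simp
    · show dg (setd (setd s.sz (c x) (dg s.sz (c x) - 1)) s.nc 1) s.nc = 1
      rw [dg_setd (by norm_num)]
      simp
    · intro j k hj hk
      show (fillRow s.pm s.nc).testBit (32 * j + k) =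
        ((dupr s.pm (c x) s.nc).testBit (32 * j + k) || decide (j = s.nc))
      rw [fillRow_testBit hk, dupr_testBit hk]
      by_cases hjn : j = s.nc
      · simp [hjn]
      · simp [hjn]
    · intro j k hk hj
      show j < s.nc + 1
      rw [fillRow_testBit hk] at hj
      simp only [Bool.or_eq_true, decide_eq_true_eq] at hj
      rcases hj with hj | hj
      · have := h.wfp j k hk hj; omega
      · omega
    · intro w
      show ((s.al &&& R) ||| (Nat.shiftLeft 1 (32 * s.nc + tri G x))).testBit (32 * c' w + tri G w) = true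
      rw [Nat.testBit_lor, Nat.testBit_land, testBit_one_shift]
      by_cases hw : w = x
      · subst hw
        rw [hx']
        simp
      · rw [hold w hw, h.al w, hb w hw]
        rfl

end Pool.Agent.K3
end

section

/-!
# Soundness of the rules of the search tree
-/

set_option autoImplicit false

namespace Pool.Agent.K3

section Lists

theorem testBit_log2 {w : ℕ} (h : w ≠ 0) : w.testBit (Nat.log2 w) = true := by
  have h1 := Nat.log2_self_le h
  have h2 : w < 2 ^ (Nat.log2 w + 1) := Nat.lt_log2_self
  have h3 : w >>> (Nat.log2 w) = 1 := by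
    rw [Nat.shiftRight_eq_div_pow]
    apply Nat.div_eq_of_lt_le
    · rwa [one_mul]
    · rw [pow_succ] at h2
      omega
  have h4 : w.testBit (Nat.log2 w) = (w >>> (Nat.log2 w)).testBit 0 := by
    rw [Nat.testBit_shiftRight, add_zero]
  rw [h4, h3]
  rfl

theorem le_log2 {w j : ℕ} (h : w.testBit j = true) : j ≤ Nat.log2 w := by
  by_contra hj
  have h2 : w < 2 ^ (Nat.log2 w + 1) := Nat.lt_log2_self
  have : w.testBit j = false :=
    Nat.testBit_lt_two_pow (lt_of_lt_of_le h2 (Nat.pow_le_pow_right (by norm_num) (by omega)))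
  rw [this] at h
  exact Bool.false_ne_true h

theorem peel_testBit {w j : ℕ} :
    (Nat.xor w (Nat.shiftLeft 1 (Nat.log2 w))).testBit j = (w.testBit j ^^ decide (j = Nat.log2 w)) := by
  show (w ^^^ (Nat.shiftLeft 1 (Nat.log2 w))).testBit j = _
  rw [Nat.testBit_xor, testBit_one_shift]

theorem peel_of_ne {w j : ℕ} (h : w.testBit j = true) (hj : j ≠ Nat.log2 w) :
    (Nat.xor w (Nat.shiftLeft 1 (Nat.log2 w))).testBit j = true := by
  rw [peel_testBit, h]
  simp [hj]

theorem peel_imp {w j : ℕ} (hw : w ≠ 0) (h : (Nat.xor w (Nat.shiftLeft 1 (Nat.log2 w))).testBit j = true) :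
    w.testBit j = true ∧ j < Nat.log2 w := by
  rw [peel_testBit] at h
  by_cases hj : j = Nat.log2 w
  · rw [hj, testBit_log2 hw] at h
    simp at h
  · have h1 : w.testBit j = true := by simpa [hj] using h
    exact ⟨h1, lt_of_le_of_ne (le_log2 h1) hj⟩

theorem ne_zero_of_testBit {w j : ℕ} (h : w.testBit j = true) : w ≠ 0 := by
  rintro rfl
  simp at h

theorem mem_cellsA_acc {f : ℕ → St} {m col : ℕ} {acc : List St} {t : St} (h : t ∈ acc) :
    t ∈ cellsA f m col acc := by
  induction m generalizing col acc with
  | zero => exact h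
  | succ m ih =>
    unfold cellsA
    cases Nat.beq col 0
    · exact ih (List.mem_cons_of_mem _ h)
    · exact h

theorem mem_cellsA {f : ℕ → St} {m col c : ℕ} {acc : List St}
    (hb : ∀ j, col.testBit j = true → j % 32 = 0 ∧ j < 32 * m) (h : col.testBit (32 * c) = true) :
    f c ∈ cellsA f m col acc := by
  induction m generalizing col acc with
  | zero => have := (hb _ h).2; omega
  | succ m ih =>
    unfold cellsA
    have h0 := ne_zero_of_testBit h
    have e : Nat.beq col 0 = false := by
      rw [Bool.eq_false_iff, Ne, Nat.beq_eq]; exact h0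
    rw [e]
    obtain ⟨hz1, hz2⟩ := hb _ (testBit_log2 h0)
    by_cases hc : 32 * c = Nat.log2 col
    · apply mem_cellsA_acc
      have : Nat.div (Nat.log2 col) 32 = c := by
        show Nat.log2 col / 32 = c
        omega
      rw [this]
      exact List.mem_cons_self
    · apply ih _ (peel_of_ne h hc)
      intro j hj
      obtain ⟨h1, h2⟩ := peel_imp h0 hj
      have := (hb j h1).1
      omega

theorem mem_downA {g : ℕ → List St → List St} {m w T : ℕ} {t : St}
    (hg : ∀ z acc, t ∈ acc → t ∈ g z acc) (hT : ∀ acc, t ∈ g T acc)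
    (hb : ∀ j, w.testBit j = true → j < m) (h : w.testBit T = true) : t ∈ downA g m w := by
  induction m generalizing w with
  | zero => have := hb _ h; omega
  | succ m ih =>
    unfold downA
    have h0 := ne_zero_of_testBit h
    have e : Nat.beq w 0 = false := by
      rw [Bool.eq_false_iff, Ne, Nat.beq_eq]; exact h0
    rw [e]
    have hz := hb _ (testBit_log2 h0)
    by_cases hc : T = Nat.log2 w
    · rw [← hc]; exact hT _
    · apply hg
      apply ih _ (peel_of_ne h hc)
      intro j hj
      obtain ⟨h1, h2⟩ := peel_imp h0 hj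
      omega

theorem mem_upA_acc {g : ℕ → List St → List St} {m w : ℕ} {acc : List St} {t : St}
    (hg : ∀ z acc, t ∈ acc → t ∈ g z acc) (h : t ∈ acc) : t ∈ upA g m w acc := by
  induction m generalizing w acc with
  | zero => exact h
  | succ m ih =>
    unfold upA
    cases Nat.beq w 0
    · exact ih (hg _ _ h)
    · exact h

theorem mem_upA {g : ℕ → List St → List St} {m w T : ℕ} {acc : List St} {t : St}
    (hg : ∀ z acc, t ∈ acc → t ∈ g z acc) (hT : ∀ acc, t ∈ g T acc)
    (hb : ∀ j, w.testBit j = true → j < m) (h : w.testBit T = true) : t ∈ upA g m w acc := by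
  induction m generalizing w acc with
  | zero => have := hb _ h; omega
  | succ m ih =>
    unfold upA
    have h0 := ne_zero_of_testBit h
    have e : Nat.beq w 0 = false := by
      rw [Bool.eq_false_iff, Ne, Nat.beq_eq]; exact h0
    rw [e]
    have hz := hb _ (testBit_log2 h0)
    by_cases hc : T = Nat.log2 w
    · apply mem_upA_acc hg
      rw [← hc]; exact hT _
    · apply ih _ (peel_of_ne h hc)
      intro j hj
      obtain ⟨h1, h2⟩ := peel_imp h0 hj
      omega

theorem mem_splitL {s : St} {p c k n a : ℕ} (h1 : k ≤ a) (h2 : a < k + n) :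
    splitSt s p c a ∈ splitL s p c n k := by
  induction n generalizing k with
  | zero => omega
  | succ n ih =>
    unfold splitL
    by_cases h : a = k
    · subst h; exact List.mem_cons_self
    · exact List.mem_cons_of_mem _ (ih (by omega) (by omega))

theorem isRef_sound {s : St} {K : List St} {i : ℕ} (h : isRef s K i = true) : s ∈ K := by
  induction K generalizing i with
  | nil => exact absurd h Bool.false_ne_true
  | cons a l ih =>
    unfold isRef at h
    cases hb : Nat.beq i 0
    · rw [hb] at h
      exact List.mem_cons_of_mem _ (ih h)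
    · rw [hb] at h
      rw [St.eqb_eq h]
      exact List.mem_cons_self

theorem cond_false_iff {a b : Bool} : (cond a b false = true) ↔ (a = true ∧ b = true) := by
  cases a <;> simp

theorem ble_succ {a b : ℕ} : (Nat.ble (Nat.succ a) b = true) ↔ a < b := by
  rw [Nat.ble_eq]
  exact Nat.succ_le_iff

end Lists

variable {V : Type*} [Fintype V] [DecidableEq V] {G : SimpleGraph V} [DecidableRel G.Adj]

theorem foldR_lt {a j : ℕ} (h : (foldR a).testBit j = true) : j < 32 := by
  have hm : (4294967295 : ℕ) = 2 ^ 32 - 1 := by norm_num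
  have e : (foldR a).testBit j =
      ((fold1 (fold1 (fold1 (fold1 (fold1 a 512) 256) 128) 64) 32).testBit j && decide (j < 32)) := by
    show ((fold1 (fold1 (fold1 (fold1 (fold1 a 512) 256) 128) 64) 32) &&& 4294967295).testBit j = _
    rw [Nat.testBit_land, hm, Nat.testBit_two_pow_sub_one]
  rw [e] at h
  simp only [Bool.and_eq_true, decide_eq_true_eq] at h
  exact h.2

/-- the unprocessed vertices have allowed values -/
theorem RealC.unp {s : St} {c : V → ℕ} (h : RealC G s c) {x : V}
    (hx : s.pm.testBit (32 * c x + tri G x) = false) :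
    (unR s).testBit (32 * c x + tri G x) = true ∧ (foldR (unR s)).testBit (tri G x) = true := by
  have h1 : (unR s).testBit (32 * c x + tri G x) = true := by
    rw [unR_testBit, h.al x, hx]; rfl
  have := h.clt x
  have := h.nc24
  exact ⟨h1, foldR_testBit (by omega) (h.t32 x) h1⟩

theorem RealC.top {s : St} {c : V → ℕ} (h : RealC G s c) (hinj : Function.Injective (tri G)) {T : ℕ}
    (hok : topOK s T = true) : ∃ s' ∈ topL s T, ∃ c', RealC G s' c' := by
  unfold topOK at hok
  rw [cond_false_iff, ble_succ, ble_succ] at hok
  obtain ⟨hn, hu⟩ := hok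
  set N := Finset.univ.filter (fun x => s.pm.testBit (32 * c x + tri G x) = false) with hN
  have hcard : N.card = s.u := h.cnt
  have hne : N.Nonempty := by rw [← Finset.card_pos]; omega
  obtain ⟨x, hx, hmax⟩ := Finset.exists_max_image N (tri G) hne
  have hx' : s.pm.testBit (32 * c x + tri G x) = false := by simpa [hN] using hx
  have hT : T ≤ tri G x := by
    by_contra hlt
    have : N.card ≤ pc (lowB (foldR (unR s)) T) := by
      apply card_le_pc (f := tri G) (fun a _ b _ e => hinj e)
      intro y hy
      have hy' : s.pm.testBit (32 * c y + tri G y) = false := by simpa [hN] using hy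
      have := hmax y hy
      refine ⟨h.t32 y, ?_⟩
      rw [lowB_testBit, (h.unp hy').2]
      have : tri G y < T := by omega
      simp [this]
    omega
  have hc32 : ∀ w, c w < 32 := fun w => lt_of_lt_of_le (h.clt w) (by have := h.nc24; omega)
  obtain ⟨c', hc'⟩ := h.ext (R := Nat.lor s.pm (lowR (tri G x))) hn hx' (by
    intro w hw
    show (s.pm ||| lowR (tri G x)).testBit _ = true
    rw [Nat.testBit_lor]
    by_cases hp : s.pm.testBit (32 * c w + tri G w) = true
    · rw [hp]; rfl
    · rw [Bool.not_eq_true] at hp
      have h1 := hmax w (by simpa [hN] using hp)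
      have h2 : tri G w ≠ tri G x := fun e => hw (hinj e)
      rw [lowR_testBit (h.t32 x) (hc32 w) (h.t32 w)]
      have : tri G w < tri G x := by omega
      simp [this])
  refine ⟨_, ?_, c', hc'⟩
  unfold topL
  apply mem_downA (T := tri G x)
  · intro z acc hacc
    exact mem_cellsA_acc hacc
  · intro acc
    apply mem_cellsA (f := extSt s (Nat.lor s.pm (lowR (tri G x))) (tri G x))
    · intro j hj
      obtain ⟨i, hi, rfl⟩ := colOf_testBit_imp hj
      omega
    · rw [colOf_testBit (hc32 x)]
      exact (h.unp hx').1
  · intro j hj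
    rw [highB_testBit, Bool.and_eq_true] at hj
    exact foldR_lt hj.1
  · rw [highB_testBit, (h.unp hx').2]
    simp [hT]

theorem RealC.bot {s : St} {c : V → ℕ} (h : RealC G s c) (hinj : Function.Injective (tri G)) {T : ℕ}
    (hok : botOK s T = true) : ∃ s' ∈ botL s T, ∃ c', RealC G s' c' := by
  unfold botOK at hok
  rw [cond_false_iff, ble_succ, ble_succ] at hok
  obtain ⟨hn, hu⟩ := hok
  set N := Finset.univ.filter (fun x => s.pm.testBit (32 * c x + tri G x) = false) with hN
  have hcard : N.card = s.u := h.cnt
  have hne : N.Nonempty := by rw [← Finset.card_pos]; omega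
  obtain ⟨x, hx, hmin⟩ := Finset.exists_min_image N (tri G) hne
  have hx' : s.pm.testBit (32 * c x + tri G x) = false := by simpa [hN] using hx
  have hT : tri G x ≤ T := by
    by_contra hlt
    have : N.card ≤ pc (highB (foldR (unR s)) (Nat.succ T)) := by
      apply card_le_pc (f := tri G) (fun a _ b _ e => hinj e)
      intro y hy
      have hy' : s.pm.testBit (32 * c y + tri G y) = false := by simpa [hN] using hy
      have := hmin y hy
      refine ⟨h.t32 y, ?_⟩
      rw [highB_testBit, (h.unp hy').2]
      have : Nat.succ T ≤ tri G y := by omega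
      simp only [this, decide_true, Bool.and_self]
    omega
  have hc32 : ∀ w, c w < 32 := fun w => lt_of_lt_of_le (h.clt w) (by have := h.nc24; omega)
  obtain ⟨c', hc'⟩ := h.ext (R := Nat.lor s.pm (highR (tri G x))) hn hx' (by
    intro w hw
    show (s.pm ||| highR (tri G x)).testBit _ = true
    rw [Nat.testBit_lor]
    by_cases hp : s.pm.testBit (32 * c w + tri G w) = true
    · rw [hp]; rfl
    · rw [Bool.not_eq_true] at hp
      have h1 := hmin w (by simpa [hN] using hp)
      have h2 : tri G w ≠ tri G x := fun e => hw (hinj e)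
      rw [highR_testBit (h.t32 x) (hc32 w) (h.t32 w)]
      have : tri G x < tri G w := by omega
      simp [this])
  refine ⟨_, ?_, c', hc'⟩
  unfold botL
  apply mem_upA (T := tri G x)
  · intro z acc hacc
    exact mem_cellsA_acc hacc
  · intro acc
    apply mem_cellsA (f := extSt s (Nat.lor s.pm (highR (tri G x))) (tri G x))
    · intro j hj
      obtain ⟨i, hi, rfl⟩ := colOf_testBit_imp hj
      omega
    · rw [colOf_testBit (hc32 x)]
      exact (h.unp hx').1
  · intro j hj
    rw [lowB_testBit, Bool.and_eq_true] at hj
    exact foldR_lt hj.1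
  · rw [lowB_testBit, (h.unp hx').2]
    have : tri G x < Nat.succ T := Nat.lt_succ_of_le hT
    simp only [this, decide_true, Bool.and_self]

theorem RealC.dgAl {s : St} {c : V → ℕ} (h : RealC G s c) (x : V) :
    (dg s.al (c x)).testBit (tri G x) = true := by
  rw [dg_testBit, h.al x]
  simp [h.t32 x]

theorem RealC.ctop {s : St} {c : V → ℕ} (h : RealC G s c) (hinj : Function.Injective (tri G)) {i T : ℕ}
    (hok : ctopOK s i T = true) : ∃ s' ∈ ctopL s i T, ∃ c', RealC G s' c' := by
  unfold ctopOK at hok
  rw [cond_false_iff, ble_succ, cond_false_iff, ble_succ, cond_false_iff, Nat.beq_eq, ble_succ] at hok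
  obtain ⟨hn, hi, hp0, hu⟩ := hok
  set N := Finset.univ.filter (fun x => c x = i) with hN
  have hcard : N.card = dg s.sz i := h.size i hi
  have hne : N.Nonempty := by rw [← Finset.card_pos]; omega
  obtain ⟨x, hx, hmax⟩ := Finset.exists_max_image N (tri G) hne
  have hxi : c x = i := by simpa [hN] using hx
  have hx' : s.pm.testBit (32 * c x + tri G x) = false := by
    have : (dg s.pm i).testBit (tri G x) = false := by rw [hp0]; simp
    rw [dg_testBit] at this
    rw [hxi]
    simpa [h.t32 x] using this
  have hT : T ≤ tri G x := by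
    by_contra hlt
    have : N.card ≤ pc (lowB (dg s.al i) T) := by
      apply card_le_pc (f := tri G) (fun a _ b _ e => hinj e)
      intro y hy
      have hyi : c y = i := by simpa [hN] using hy
      have := hmax y hy
      refine ⟨h.t32 y, ?_⟩
      rw [lowB_testBit, ← hyi, h.dgAl y]
      have : tri G y < T := by omega
      simp [this]
    omega
  have hc32 : ∀ w, c w < 32 := fun w => lt_of_lt_of_le (h.clt w) (by have := h.nc24; omega)
  obtain ⟨c', hc'⟩ := h.ext (R := Nat.xor (neR (tri G x))
      (Nat.shiftLeft (Nat.sub 4294967296 (Nat.shiftLeft 2 (tri G x))) (Nat.mul 32 i))) hn hx' (by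
    intro w hw
    have hne : tri G w ≠ tri G x := fun e => hw (hinj e)
    show ((neR (tri G x)) ^^^ ((Nat.sub 4294967296 (Nat.shiftLeft 2 (tri G x))) <<< (32 * i))).testBit _ = true
    rw [Nat.testBit_xor, neR_testBit (h.t32 x) (hc32 w) (h.t32 w), Nat.testBit_shiftLeft]
    have e1 : decide (tri G w ≠ tri G x) = true := by simp [hne]
    rw [e1, Bool.true_xor, Bool.not_eq_true']
    rcases lt_trichotomy (c w) i with hlt | heq | hgt
    · have : ¬ (32 * c w + tri G w ≥ 32 * i) := by have := h.t32 w; omega
      simp [this]
    · have hle := hmax w (by simpa [hN] using heq)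
      have : 32 * c w + tri G w - 32 * i = tri G w := by omega
      rw [this, highMask_testBit (h.t32 x) (h.t32 w)]
      have : ¬ (tri G x < tri G w) := by omega
      simp [this]
    · have h32 : 32 ≤ 32 * c w + tri G w - 32 * i := by omega
      have := Nat.testBit_lt_two_pow (lt_of_lt_of_le (highMask_lt (tri G x))
        (Nat.pow_le_pow_right (by norm_num) h32))
      rw [this, Bool.and_false])
  refine ⟨_, ?_, c', hc'⟩
  unfold ctopL
  rw [hxi]
  apply mem_downA (T := tri G x)
  · intro z acc hacc
    exact List.mem_cons_of_mem _ hacc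
  · intro acc
    exact List.mem_cons_self
  · intro j hj
    rw [highB_testBit, Bool.and_eq_true, dg_testBit, Bool.and_eq_true, decide_eq_true_eq] at hj
    exact hj.1.1
  · rw [highB_testBit, ← hxi, h.dgAl x]
    simp [hT]

theorem lowMask_lt {T : ℕ} (hT : T < 32) : Nat.sub (Nat.shiftLeft 1 T) 1 < 2 ^ 32 := by
  have e : Nat.sub (Nat.shiftLeft 1 T) 1 = 2 ^ T - 1 := by
    show 1 <<< T - 1 = _
    rw [Nat.shiftLeft_eq, one_mul]
  rw [e]
  exact lt_of_le_of_lt (Nat.sub_le _ _) (Nat.pow_lt_pow_right (by norm_num) hT)

theorem RealC.cbot {s : St} {c : V → ℕ} (h : RealC G s c) (hinj : Function.Injective (tri G)) {i T : ℕ}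
    (hok : cbotOK s i T = true) : ∃ s' ∈ cbotL s i T, ∃ c', RealC G s' c' := by
  unfold cbotOK at hok
  rw [cond_false_iff, ble_succ, cond_false_iff, ble_succ, cond_false_iff, Nat.beq_eq, ble_succ] at hok
  obtain ⟨hn, hi, hp0, hu⟩ := hok
  set N := Finset.univ.filter (fun x => c x = i) with hN
  have hcard : N.card = dg s.sz i := h.size i hi
  have hne : N.Nonempty := by rw [← Finset.card_pos]; omega
  obtain ⟨x, hx, hmin⟩ := Finset.exists_min_image N (tri G) hne
  have hxi : c x = i := by simpa [hN] using hx
  have hx' : s.pm.testBit (32 * c x + tri G x) = false := by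
    have : (dg s.pm i).testBit (tri G x) = false := by rw [hp0]; simp
    rw [dg_testBit] at this
    rw [hxi]
    simpa [h.t32 x] using this
  have hT : tri G x ≤ T := by
    by_contra hlt
    have : N.card ≤ pc (highB (dg s.al i) (Nat.succ T)) := by
      apply card_le_pc (f := tri G) (fun a _ b _ e => hinj e)
      intro y hy
      have hyi : c y = i := by simpa [hN] using hy
      have := hmin y hy
      refine ⟨h.t32 y, ?_⟩
      rw [highB_testBit, ← hyi, h.dgAl y]
      have : Nat.succ T ≤ tri G y := by omega
      simp only [this, decide_true, Bool.and_self]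
    omega
  have hc32 : ∀ w, c w < 32 := fun w => lt_of_lt_of_le (h.clt w) (by have := h.nc24; omega)
  obtain ⟨c', hc'⟩ := h.ext (R := Nat.xor (neR (tri G x))
      (Nat.shiftLeft (Nat.sub (Nat.shiftLeft 1 (tri G x)) 1) (Nat.mul 32 i))) hn hx' (by
    intro w hw
    have hne : tri G w ≠ tri G x := fun e => hw (hinj e)
    show ((neR (tri G x)) ^^^ ((Nat.sub (Nat.shiftLeft 1 (tri G x)) 1) <<< (32 * i))).testBit _ = true
    rw [Nat.testBit_xor, neR_testBit (h.t32 x) (hc32 w) (h.t32 w), Nat.testBit_shiftLeft]
    have e1 : decide (tri G w ≠ tri G x) = true := by simp [hne]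
    rw [e1, Bool.true_xor, Bool.not_eq_true']
    rcases lt_trichotomy (c w) i with hlt | heq | hgt
    · have : ¬ (32 * c w + tri G w ≥ 32 * i) := by have := h.t32 w; omega
      simp [this]
    · have hle := hmin w (by simpa [hN] using heq)
      have : 32 * c w + tri G w - 32 * i = tri G w := by omega
      rw [this, lowMask_testBit]
      have : ¬ (tri G w < tri G x) := by omega
      simp [this]
    · have h32 : 32 ≤ 32 * c w + tri G w - 32 * i := by omega
      have := Nat.testBit_lt_two_pow (lt_of_lt_of_le (lowMask_lt (h.t32 x))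
        (Nat.pow_le_pow_right (by norm_num) h32))
      rw [this, Bool.and_false])
  refine ⟨_, ?_, c', hc'⟩
  unfold cbotL
  rw [hxi]
  apply mem_upA (T := tri G x)
  · intro z acc hacc
    exact List.mem_cons_of_mem _ hacc
  · intro acc
    exact List.mem_cons_self
  · intro j hj
    rw [lowB_testBit, Bool.and_eq_true, dg_testBit, Bool.and_eq_true, decide_eq_true_eq] at hj
    exact hj.1.1
  · rw [lowB_testBit, ← hxi, h.dgAl x]
    have : tri G x < Nat.succ T := Nat.lt_succ_of_le hT
    simp only [this, decide_true, Bool.and_self]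

theorem RealC.tc {s : St} {c : V → ℕ} (h : RealC G s c) (hinj : Function.Injective (tri G)) {i : ℕ}
    (hok : tcOK s i = true) : False := by
  unfold tcOK at hok
  rw [cond_false_iff, ble_succ, ble_succ] at hok
  obtain ⟨hi, hu⟩ := hok
  have : (Finset.univ.filter (fun x => c x = i)).card ≤ pc (dg s.al i) := by
    apply card_le_pc (f := tri G) (fun a _ b _ e => hinj e)
    intro y hy
    have hyi : c y = i := by simpa using hy
    exact ⟨h.t32 y, by rw [← hyi, h.dgAl y]⟩
  rw [h.size i hi] at this
  omega

/-- the sum of the triangle degrees is three times the number of triangles -/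
theorem sum_tri : ∑ x, tri G x = 3 * (G.cliqueFinset 3).card := by
  have e : ∀ x, tri G x = ∑ s ∈ G.cliqueFinset 3, if x ∈ s then 1 else 0 := by
    intro x
    rw [tri, Finset.card_filter]
  simp only [e]
  rw [Finset.sum_comm]
  have e2 : ∀ s ∈ G.cliqueFinset 3, (∑ x, if x ∈ s then 1 else 0) = 3 := by
    intro s hs
    rw [← Finset.card_filter]
    have : (Finset.univ.filter (fun x => x ∈ s)) = s := by ext; simp
    rw [this]
    exact (SimpleGraph.mem_cliqueFinset_iff.1 hs).card_eq
  rw [Finset.sum_congr rfl e2, Finset.sum_const, smul_eq_mul, mul_comm]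

theorem RealC.tg {s : St} {c : V → ℕ} (h : RealC G s c) (hinj : Function.Injective (tri G))
    (hok : tgOK s = true) : False := by
  unfold tgOK tgAux at hok
  set N := Finset.univ.filter (fun x => s.pm.testBit (32 * c x + tri G x) = false) with hN
  have hcard : N.card = s.u := h.cnt
  have hin : ∀ x ∈ N, tri G x < 32 ∧ (foldR (unR s)).testBit (tri G x) = true := by
    intro x hx
    exact ⟨h.t32 x, (h.unp (by simpa [hN] using hx)).2⟩
  have hle : N.card ≤ pc (foldR (unR s)) := card_le_pc (fun a _ b _ e => hinj e) hin
  have e1 : Nat.ble (Nat.succ (pc (foldR (unR s)))) s.u = false := by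
    rw [Bool.eq_false_iff, Ne, ble_succ]; omega
  rw [e1] at hok
  simp only [cond_false] at hok
  rw [cond_false_iff, Nat.beq_eq, Nat.ble_eq] at hok
  obtain ⟨h1, h2⟩ := hok
  have h3 : 1 ≤ (s.sm + ps (foldR (unR s))) % 3 := h2
  have hs : ∑ x ∈ N, tri G x = ps (foldR (unR s)) :=
    sum_eq_ps (fun a _ b _ e => hinj e) hin (by rw [hcard, h1])
  have htot : ∑ x, tri G x = s.sm + ps (foldR (unR s)) := by
    rw [← hs, ← h.sum, ← Finset.sum_filter_add_sum_filter_not Finset.univ
      (fun x => s.pm.testBit (32 * c x + tri G x) = true)]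
    congr 1
    apply Finset.sum_congr _ (fun _ _ => rfl)
    ext x
    simp [hN]
  rw [sum_tri] at htot
  omega

theorem EE_single {c : V → ℕ} {p i : ℕ} {v : V} (hv : ∀ w, c w = p ↔ w = v) :
    EE G c p i = (Finset.univ.filter (fun x => c x = i ∧ G.Adj v x)).card := by
  unfold EE
  apply Finset.card_bij (fun z _ => z.2)
  · rintro ⟨a, b⟩ hz
    simp only [Finset.mem_filter, Finset.mem_univ, true_and] at hz ⊢
    obtain ⟨h1, h2, h3⟩ := hz
    rw [hv] at h1
    subst h1
    exact ⟨h2, h3⟩
  · rintro ⟨a, b⟩ hz ⟨a', b'⟩ hz' e
    simp only [Finset.mem_filter, Finset.mem_univ, true_and] at hz hz' e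
    rw [(hv a).1 hz.1, (hv a').1 hz'.1, e]
  · intro b hb
    simp only [Finset.mem_filter, Finset.mem_univ, true_and] at hb
    exact ⟨(v, b), by simp [hb.1, hb.2, (hv v).2 rfl], rfl⟩

theorem RealC.split {LL LG : St → ℕ → ℕ → ℕ → ℕ → Bool} {s : St} {c : V → ℕ} (h : RealC G s c)
    {p i k n dl dh : ℕ}
    (hLL : ∀ k d, p < s.nc → i < s.nc → p ≠ i → dg s.sz p = 1 → LL s p i k d = true → k < EE G c p i)
    (hLG : ∀ k d, p < s.nc → i < s.nc → p ≠ i → dg s.sz p = 1 → LG s p i k d = true → EE G c p i < k)
    (hok : splitOK LL LG s p i k n dl dh = true) : ∃ s' ∈ splitL s p i n k, ∃ c', RealC G s' c' := by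
  unfold splitOK at hok
  rw [cond_false_iff, ble_succ, cond_false_iff, ble_succ, cond_false_iff, ble_succ] at hok
  obtain ⟨hn, hp, hi, hok⟩ := hok
  have hpi : p ≠ i := by
    rintro rfl
    have e : Nat.beq p p = true := by rw [Nat.beq_eq]
    rw [e] at hok
    exact Bool.false_ne_true hok
  have e : Nat.beq p i = false := by rw [Bool.eq_false_iff, Ne, Nat.beq_eq]; exact hpi
  rw [e] at hok
  simp only [cond_false] at hok
  rw [cond_false_iff, Nat.beq_eq, cond_false_iff] at hok
  obtain ⟨hs1, hlo, hhi⟩ := hok
  have hc := h.size p hp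
  rw [hs1, Finset.card_eq_one] at hc
  obtain ⟨v, hv⟩ := hc
  have hvv : ∀ w, c w = p ↔ w = v := by
    intro w
    have := Finset.ext_iff.1 hv w
    simpa using this
  set κ := (Finset.univ.filter (fun x => c x = i ∧ G.Adj v x)).card with hκ
  have hEE : EE G c p i = κ := EE_single hvv
  have hκn : κ ≤ dg s.sz i := by
    rw [← h.size i hi]
    apply Finset.card_le_card
    intro x
    simp only [Finset.mem_filter, Finset.mem_univ, true_and]
    exact fun hx => hx.1
  have hk : k ≤ κ := by
    by_cases hk0 : k = 0
    · omega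
    · have e : Nat.beq k 0 = false := by rw [Bool.eq_false_iff, Ne, Nat.beq_eq]; exact hk0
      rw [e] at hlo
      have := hLL _ _ hp hi hpi hs1 hlo
      rw [hEE] at this
      have h2 : Nat.sub k 1 = k - 1 := rfl
      omega
  have hkn : κ < k + n := by
    by_cases hkn0 : dg s.sz i < k + n
    · omega
    · have e : Nat.ble (Nat.succ (dg s.sz i)) (Nat.add k n) = false := by
        rw [Bool.eq_false_iff, Ne, ble_succ]; exact hkn0
      rw [e] at hhi
      have := hLG _ _ hp hi hpi hs1 hhi
      rw [hEE] at this
      exact this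
  refine ⟨_, mem_splitL hk hkn, ?_⟩
  unfold splitSt
  by_cases h0 : κ = 0
  · have e : Nat.beq κ 0 = true := by rw [Nat.beq_eq]; exact h0
    rw [e]
    refine ⟨c, h.set0 hp hi ?_⟩
    intro x y hx hy hxy
    rw [hvv] at hx
    subst hx
    rw [hκ, Finset.card_eq_zero] at h0
    have : y ∈ Finset.univ.filter (fun z => c z = i ∧ G.Adj x z) := by simp [hy, hxy]
    rw [h0] at this
    simp at this
  · have e : Nat.beq κ 0 = false := by rw [Bool.eq_false_iff, Ne, Nat.beq_eq]; exact h0
    rw [e]
    by_cases hall : κ = dg s.sz i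
    · have e : Nat.beq κ (dg s.sz i) = true := by rw [Nat.beq_eq]; exact hall
      rw [e]
      refine ⟨c, h.set1 hp hi ?_⟩
      intro x y hx hy
      rw [hvv] at hx
      subst hx
      have : Finset.univ.filter (fun z => c z = i ∧ G.Adj x z) = Finset.univ.filter (fun z => c z = i) := by
        apply Finset.eq_of_subset_of_card_le
        · intro z
          simp only [Finset.mem_filter, Finset.mem_univ, true_and]
          exact fun hz => hz.1
        · rw [h.size i hi, ← hall]
      have hy' : y ∈ Finset.univ.filter (fun z => c z = i) := by simp [hy]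
      rw [← this] at hy'
      simp only [Finset.mem_filter, Finset.mem_univ, true_and] at hy'
      exact hy'.2
    · have e : Nat.beq κ (dg s.sz i) = false := by
        rw [Bool.eq_false_iff, Ne, Nat.beq_eq]; exact hall
      rw [e]
      have hd := h.dup hi hn (fun x => G.Adj v x) hκ.symm
      set c' : V → ℕ := fun x => if c x = i ∧ ¬ G.Adj v x then s.nc else c x with hc'
      have hcv : ∀ w, c' w = p → w = v := by
        intro w hw
        simp only [hc'] at hw
        split_ifs at hw with hh
        · omega
        · exact (hvv w).1 hw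
      refine ⟨c', ?_⟩
      have h1 := hd.set1 (p := p) (q := i) (by show p < s.nc + 1; omega) (by show i < s.nc + 1; omega) (by
        intro x y hx hy
        rw [hcv x hx]
        simp only [hc'] at hy
        split_ifs at hy with hh
        · omega
        · by_contra hna
          exact hh ⟨hy, hna⟩)
      have h2 := h1.set0 (p := p) (q := s.nc) (by show p < s.nc + 1; omega)
        (by show s.nc < s.nc + 1; omega) (by
        intro x y hx hy
        rw [hcv x hx]
        simp only [hc'] at hy
        split_ifs at hy with hh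
        · exact hh.2
        · have := h.clt y; omega)
      exact h2

section Main

variable {LF : St → ℕ → Bool} {LL LG : St → ℕ → ℕ → ℕ → ℕ → Bool} {K : List St}

/-- the checker is sound -/
theorem chk_sound (hinj : Function.Injective (tri G))
    (hLF : ∀ s d c, LF s d = true → RealC G s c → False)
    (hLL : ∀ s p i k d c, LL s p i k d = true → RealC G s c → p < s.nc → i < s.nc → p ≠ i →
      dg s.sz p = 1 → k < EE G c p i)
    (hLG : ∀ s p i k d c, LG s p i k d = true → RealC G s c → p < s.nc → i < s.nc → p ≠ i →
      dg s.sz p = 1 → EE G c p i < k)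
    (hK : ∀ s ∈ K, ∀ c, ¬ RealC G s c) (C : Cert) :
    ∀ L, chk LF LL LG K C L = true → ∀ s ∈ L, ∀ c, ¬ RealC G s c := by
  induction C with
  | leaf d =>
    intro L hL s hs c h
    match L, hL with
    | [s'], hL =>
      have : s = s' := by simpa using hs
      subst this
      exact hLF _ _ _ hL h
  | tg =>
    intro L hL s hs c h
    match L, hL with
    | [s'], hL =>
      have : s = s' := by simpa using hs
      subst this
      exact h.tg hinj hL
  | tc i =>
    intro L hL s hs c h
    match L, hL with
    | [s'], hL =>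
      have : s = s' := by simpa using hs
      subst this
      exact h.tc hinj hL
  | split p i k n dl dh l ih =>
    intro L hL s hs c h
    match L, hL with
    | [s'], hL =>
      have : s = s' := by simpa using hs
      subst this
      have hL' : cond (splitOK LL LG s p i k n dl dh) (chk LF LL LG K l (splitL s p i n k)) false = true := hL
      rw [cond_false_iff] at hL'
      obtain ⟨t, ht, c', hc'⟩ := h.split (fun k d h1 h2 h3 h4 h5 => hLL _ _ _ _ _ _ h5 h h1 h2 h3 h4)
        (fun k d h1 h2 h3 h4 h5 => hLG _ _ _ _ _ _ h5 h h1 h2 h3 h4) hL'.1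
      exact ih _ hL'.2 t ht c' hc'
  | top T l ih =>
    intro L hL s hs c h
    match L, hL with
    | [s'], hL =>
      have : s = s' := by simpa using hs
      subst this
      have hL' : cond (topOK s T) (chk LF LL LG K l (topL s T)) false = true := hL
      rw [cond_false_iff] at hL'
      obtain ⟨t, ht, c', hc'⟩ := h.top hinj hL'.1
      exact ih _ hL'.2 t ht c' hc'
  | bot T l ih =>
    intro L hL s hs c h
    match L, hL with
    | [s'], hL =>
      have : s = s' := by simpa using hs
      subst this
      have hL' : cond (botOK s T) (chk LF LL LG K l (botL s T)) false = true := hL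
      rw [cond_false_iff] at hL'
      obtain ⟨t, ht, c', hc'⟩ := h.bot hinj hL'.1
      exact ih _ hL'.2 t ht c' hc'
  | ctop i T l ih =>
    intro L hL s hs c h
    match L, hL with
    | [s'], hL =>
      have : s = s' := by simpa using hs
      subst this
      have hL' : cond (ctopOK s i T) (chk LF LL LG K l (ctopL s i T)) false = true := hL
      rw [cond_false_iff] at hL'
      obtain ⟨t, ht, c', hc'⟩ := h.ctop hinj hL'.1
      exact ih _ hL'.2 t ht c' hc'
  | cbot i T l ih =>
    intro L hL s hs c h
    match L, hL with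
    | [s'], hL =>
      have : s = s' := by simpa using hs
      subst this
      have hL' : cond (cbotOK s i T) (chk LF LL LG K l (cbotL s i T)) false = true := hL
      rw [cond_false_iff] at hL'
      obtain ⟨t, ht, c', hc'⟩ := h.cbot hinj hL'.1
      exact ih _ hL'.2 t ht c' hc'
  | ref i =>
    intro L hL s hs c h
    match L, hL with
    | [s'], hL =>
      have : s = s' := by simpa using hs
      subst this
      exact hK s (isRef_sound hL) c h
  | cons a l iha ihl =>
    intro L hL s hs c h
    match L, hL with
    | s' :: ss, hL =>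
      have hL' : cond (chk LF LL LG K a [s']) (chk LF LL LG K l ss) false = true := hL
      rw [cond_false_iff] at hL'
      rcases List.mem_cons.1 hs with rfl | hs
      · exact iha _ hL'.1 s List.mem_cons_self c h
      · exact ihl _ hL'.2 s hs c h
  | nil =>
    intro L hL s hs c h
    match L, hL with
    | [], _ => simp at hs

end Main

end Pool.Agent.K3
end

section

set_option autoImplicit false
set_option maxRecDepth 100000

namespace Pool.Agent.K3

/-- state -/
def s22_18 : St := ⟨7, 0x100000001000000000000000000000000000000000000000000000000000000000000000000000000000000000000000000000000000000000000000000000000000000000000000000000000000000000000000000000000000000000000000000000000000000000000000000000000000000000000000000000000000000000000000000000000000000000000000000000000000000000000000000000000000000000000000000000000000000000000000000000000000000000000000100000000000000000000000000000000000000000000000000000000000000000000000000000000000000000000000000000000000000000000000000000000000000000000000000000000000000000000000000000000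000000010000000000000001000000000000000000000000000000000000000000000000000000000000000000000000000000000000000000000000000000000000000000000000000000000000000000000000000000000000000000000001000000000000000000000000000000000000000000000000000000000000000000000000000000000000000000000000000000000000000000000000000000000000000000000000000000000000000000000001000000000000000100000000000000000000000000000001000000000000000000000000000000000000000000000000000000000000000000000000000000000000000000000000000000000000000000000000000000000000000000000001000000000000000000000001000000000000000100000000, 0x100000000000000000000000000000000000000000000000000000000000000000000000000000000000000000000000000000000000000000000000000000000000000000000000000000000000000000000000000000000000000000000000100000000000000010000000000000000000000000000000000000000000000000000000000000000000000000000000000000000000000000000000000000000000000000000000000000000000000000000000000000000000000000000000100000000000000000000000000000000000000000000000000000000000000000000000000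0000000000000000000000000000000000000000000000000000000000000000000000000000000000000000000001000000010000000100000000000000000000000100000000000000000000000000000000000000000000000000000000000000000000000000000000000000000000000000000000000000000000000000000000000000000000000000000000000000000000000000000000000000000000000100000000000000000000000000000000000000000000000000000000000000000000000000000000000000000000000000000000000000000000000000000000000000000000000000000000000000010000000000000001000000010000000000000000000000000000000000000000000000000000000000000000000000000000000000000000000000000000000000000000000000000000000000000000000000000000000000000000000000000000000000000000000000000000000000000000, 0x1000000060000000500000001000000060000000100000002, 0xffffffff0000000000000000ffffffff00000000ffffffff00000000, 0x100000000ffffe000ffffe00000001000ffffe00200000000ffffe, 19, 41⟩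

noncomputable def c22_18_0 : Cert := (.cons (.split 12 0 2 1 0x2012020060200c02002fffd310002ce0002ce0002ce0002ce001db5202 0 (.cons (.split 12 4 2 1 0x2012020060200c02002fffd310002ce0002ce0002ce0002ce001db5202 0 (.cons (.split 12 10 1 1 0x2012020060200c02002fffd310002ce0002ce0002ce0002ce001fff202 0 (.cons (.leaf 0x205802012020060200c02002fffd310002ce0002ce0002ce0002ce001db5200) .nil)) .nil)) .nil)) (.cons (.split 12 0 2 1 0x2012020060200c02002fffd310002ce0002ce0002ce0002ce001db5202 0 (.cons (.split 12 4 2 1 0x2012020060200c02002fffd310002ce0002ce0002ce0002ce001db5202 0 (.cons (.split 12 10 1 1 0x2012020060200c02002fffd310002ce0002ce0002ce0002ce001fff202 0 (.cons (.leaf 0x205802012020060200c02002fffd310002ce0002ce0002ce0002ce001db5200) .nil)) .nil)) .nil)) (.cons (.split 12 0 2 1 0x2012020060200c02002fffd310002ce0002ce0002ce0002ce001db5202 0 (.cons (.split 12 4 2 1 0x2012020060200c02002fffd310002ce0002ce0002ce0002ce001db5202 0 (.cons (.split 12 10 1 1 0x2012020060200c02002fffd310002ce0002ce0002ce0002ce001fff202 0 (.cons (.leaf 0x205802012020060200c02002fffd310002ce0002ce0002ce0002ce001db5200)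 .nil)) .nil)) .nil)) .nil)))
noncomputable def c22_18_1 : Cert := (.cons (.split 12 0 2 1 0x2012020060200c02002fffd310002ce0002ce0002ce0002ce001db5202 0 (.cons (.split 12 4 2 1 0x2012020060200c02002fffd310002ce0002ce0002ce0002ce001db5202 0 (.cons (.leaf 0x205802012020060200c02002fffd310002ce0002ce0002ce0002ce001db5200) .nil)) .nil)) (.cons (.split 12 0 2 1 0x2012020060200c02002fffd310002ce0002ce0002ce0002ce001db5202 0 (.cons (.split 12 4 2 1 0x2012020060200c02002fffd310002ce0002ce0002ce0002ce001db5202 0 (.cons (.leaf 0x205802012020060200c02002fffd310002ce0002ce0002ce0002ce001fff200) .nil)) .nil)) (.cons (.split 12 0 2 1 0x2012020060200c02002fffd310002ce0002ce0002ce0002ce001db5202 0 (.cons (.split 12 4 2 1 0x2012020060200c02002fffd310002ce0002ce0002ce0002ce001db5202 0 (.cons (.leaf 0x105802012020060200c02002fffd310002ce0002ce0002ce0002ce001fff200) .nil)) .nil)) (.cons (.split 12 0 2 1 0x2012020060200c02002fffd310002ce0002ce0002ce0002ce001db5202 0 (.cons (.split 12 4 2 1 0x2012020060200c02002fffd310002ce0002ce0002ce0002ce001db5202 0 (.cons (.split 12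 10 1 1 0x2012020060200c02002fffd310002ce0002ce0002ce0002ce001fff202 0 (.cons (.leaf 0x205802012020060200c02002fffd310002ce0002ce0002ce0002ce001db5200) .nil)) .nil)) .nil)) c22_18_0))))
noncomputable def c22_18_2 : Cert := (.cbot 10 18 (.cons (.leaf 0x105802012020060200c02002fffd310002ce0002ce0002ce0002ce001db5200) (.cons (.leaf 0x105802012020060200c02002fffd310002ce0002ce0002ce0002ce001db5200) (.cons (.leaf 0x105802012020060200c02002fffd310002ce0002ce0002ce0002ce001db5200) (.cons (.leaf 0x105802012020060200c02002fffd310002ce0002ce0002ce0002ce001db5200) (.cons (.leaf 0x105802012020060200c02002fffd310002ce0002ce0002ce0002ce001db5200) (.cons (.leaf 0x205802012020060400c04002fffd310002ce0002ce0002ce0006df001fff200) (.cons (.leaf 0x105802012020060200c02002fffd310002ce0002ce0002ce0002ce001fff200) (.cons (.leaf 0x105802012020060200c02002fffd310002ce0002ce0002ce0002ce001fff200) (.cons (.leaf 0x105802012020060200c02002fffd310002ce0002ce0002ce0002ce001fff200) (.cons (.split 12 0 2 1 0x2012020060200c02002fffd310002ce0002ce0002ce0002ce001db5202 0 (.cons (.split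 12 4 2 1 0x2012020060200c02002fffd310002ce0002ce0002ce0002ce001db5202 0 (.cons (.leaf 0x205802012020060200c02002fffd310002ce0002ce0002ce0002ce001db5200) .nil)) .nil)) c22_18_1)))))))))))
noncomputable def c22_18_3 : Cert := (.cons (.split 12 0 2 1 0x2012020060200c02002fffd310002ce0002ce0002ce0002ce001fff202 0 (.cons (.split 12 4 2 1 0x2012020060200c02002fffd310002ce0002ce0002ce0002ce001fff202 0 (.cons (.split 12 10 1 1 0x2012020060200c02002fffd310002ce0002ce0002ce0002ce001fff202 0 (.cons (.leaf 0x205802012020060200c02002fffd310002ce0002ce0002ce0002ce001db5200) .nil)) .nil)) .nil)) (.cons (.split 12 0 2 1 0x2012020060200c02002fffd310002ce0002ce0002ce0002ce001fff202 0 (.cons (.split 12 4 2 1 0x2012020060200c02002fffd310002ce0002ce0002ce0002ce001fff202 0 (.cons (.split 12 10 1 1 0x2012020060200c02002fffd310002ce0002ce0002ce0002ce001fff202 0 (.cons (.leaf 0x205802012020060200c02002fffd310002ce0002ce0002ce0002ce001db5200) .nil)) .nil)) .nil)) (.cons (.split 12 0 2 1 0x2012020060200c02002fffd310002ce0002ce0002ce0002ce001fff202 0 (.cons (.split 12 4 2 1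 0x2012020060200c02002fffd310002ce0002ce0002ce0002ce001fff202 0 (.cons (.split 12 10 1 1 0x2012020060200c02002fffd310002ce0002ce0002ce0002ce001fff202 0 (.cons (.leaf 0x205802012020060200c02002fffd310002ce0002ce0002ce0002ce001fff200) .nil)) .nil)) .nil)) .nil)))
noncomputable def c22_18_4 : Cert := (.cons (.split 12 0 2 1 0x2012020060200c02002fffd310002ce0002ce0002ce0002ce001fff202 0 (.cons (.split 12 4 2 1 0x2012020060200c02002fffd310002ce0002ce0002ce0002ce001fff202 0 (.cons (.leaf 0x205802012020060200c02002fffd310002ce0002ce0002ce0002ce001db5200) .nil)) .nil)) (.cons (.split 12 0 2 1 0x2012020060200c02002fffd310002ce0002ce0002ce0002ce001fff202 0 (.cons (.split 12 4 2 1 0x2012020060200c02002fffd310002ce0002ce0002ce0002ce001fff202 0 (.cons (.leaf 0x205802012020060200c02002fffd310002ce0002ce0002ce0002ce001fff200) .nil)) .nil)) (.cons (.split 12 0 2 1 0x2012020060200c02002fffd310002ce0002ce0002ce0002ce001fff202 0 (.cons (.split 12 4 2 1 0x2012020060200c02002fffd310002ce0002ce0002ce0002ce001fff202 0 (.cons (.leaf 0x105802012020060200c02002fffd310002ce0002ce0002ce0002ce001fff200)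 .nil)) .nil)) (.cons (.split 12 0 2 1 0x2012020060200c02002fffd310002ce0002ce0002ce0002ce001fff202 0 (.cons (.split 12 4 2 1 0x2012020060200c02002fffd310002ce0002ce0002ce0002ce001fff202 0 (.cons (.split 12 10 1 1 0x2012020060200c02002fffd310002ce0002ce0002ce0002ce001fff202 0 (.cons (.leaf 0x205802012020060200c02002fffd310002ce0002ce0002ce0002ce001db5200) .nil)) .nil)) .nil)) c22_18_3))))
noncomputable def c22_18_5 : Cert := (.cbot 10 18 (.cons (.leaf 0x105802012020060200c02002fffd310002ce0002ce0002ce0002ce001db5200) (.cons (.leaf 0x105802012020060200c02002fffd310002ce0002ce0002ce0002ce001db5200) (.cons (.leaf 0x105802012020060200c02002fffd310002ce0002ce0002ce0002ce001db5200) (.cons (.leaf 0x105802012020060200c02002fffd310002ce0002ce0002ce0002ce001db5200) (.cons (.leaf 0x205802012020060300c03002fffd310002ce0002ce0002ce0006df001bee200) (.cons (.leaf 0x105802012020060200c02002fffd310002ce0002ce0002ce0002ce001fff200) (.cons (.leaf 0x105802012020060200c02002fffd310002ce0002ce0002ce0002ce001fff200) (.cons (.leaf 0x105802012020060200c02002fffd310002ce0002ce0002ce0002ce001fff200)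 (.cons (.leaf 0x105802012020060200c02002fffd310002ce0002ce0002ce0002ce001fff200) (.cons (.split 12 0 2 1 0x2012020060200c02002fffd310002ce0002ce0002ce0002ce001fff202 0 (.cons (.split 12 4 2 1 0x2012020060200c02002fffd310002ce0002ce0002ce0002ce001fff202 0 (.cons (.leaf 0x205802012020060200c02002fffd310002ce0002ce0002ce0002ce001db5200) .nil)) .nil)) c22_18_4)))))))))))
noncomputable def c22_18_6 : Cert := (.cons (.split 12 0 0 1 0 0x2012020060200c02002fffd310002ce0002ce0002ce0002ce0007ff201 (.cons (.split 12 2 5 1 0x2012020060200c02002ffedb100124e00124e00124e00124e00177f202 0 (.cons (.split 12 11 2 1 0x2012020060200c02002ffed310012ce0012ce0012ce0012ce0017ff201 0 (.cons (.leaf 0x30580201202006010580200c02002ffe531001ace001ace001ace001ace001fff300) .nil)) .nil)) .nil)) (.cons (.split 12 0 0 1 0 0x2012020060200c02002fffd310002ce0002ce0002ce0002ce0007ff201 (.cons (.split 12 2 5 1 0x2012020060200c02002ffedb100124e00124e00124e00124e00177f202 0 (.cons (.split 12 11 2 1 0x2012020060200c02002ffed310012ce0012ce0012ce0012ce0017ff201 0 (.cons (.leaf 0x30580201202006010580200c02002ffe531001ace001ace001ace001ace001fff300)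 .nil)) .nil)) .nil)) (.cons (.split 12 0 0 1 0 0x2012020060200c02002fffd310002ce0002ce0002ce0002ce0007ff201 (.cons (.split 12 2 5 1 0x2012020060200c02002ffedb100124e00124e00124e00124e00177f202 0 (.cons (.split 12 11 2 1 0x2012020060200c02002ffed310012ce0012ce0012ce0012ce0017ff201 0 (.cons (.leaf 0x30580201202006010580200c02002ffe531001ace001ace001ace001ace001fff300) .nil)) .nil)) .nil)) .nil)))
noncomputable def c22_18_7 : Cert := (.cons (.split 12 0 0 1 0 0x2012020060200c02002fffd310002ce0002ce0002ce0002ce0007ff201 (.cons (.split 12 2 5 1 0x2012020060200c02002ffedb100124e00124e00124e00124e00177f202 0 (.cons (.split 12 11 2 1 0x2012020060200c02002ffed310012ce0012ce0012ce0012ce0017ff201 0 (.cons (.leaf 0x30580201202006010580200c02002ffe531001ace001ace001ace001ace001fff300) .nil)) .nil)) .nil)) (.cons (.split 12 0 0 1 0 0x2012020060200c02002fffd310002ce0002ce0002ce0002ce0007ff201 (.cons (.split 12 2 5 1 0x2012020060200c02002ffedb100124e00124e00124e00124e00177f202 0 (.cons (.split 12 11 2 1 0x2012020060200c02002ffed310012ce0012ce0012ce0012ce0017ff201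 0 (.cons (.leaf 0x30580201202006010580200c02002ffe531001ace001ace001ace001ace001fff300) .nil)) .nil)) .nil)) (.cons (.split 12 0 0 1 0 0x2012020060200c02002fffd310002ce0002ce0002ce0002ce0007ff201 (.cons (.split 12 2 5 1 0x2012020060200c02002ffedb100124e00124e00124e00124e00177f202 0 (.cons (.split 12 11 2 1 0x2012020060200c02002ffed310012ce0012ce0012ce0012ce0017ff201 0 (.cons (.leaf 0x30580201202006010580200c02002ffe531001ace001ace001ace001ace001fff300) .nil)) .nil)) .nil)) c22_18_6)))
noncomputable def c22_18_8 : Cert := (.cons (.split 12 2 5 1 0x2012020060200c02002ffed310012ce0012ce0012ce0012ce0017ff202 0 (.cons (.leaf 0x201203006010580200c02002ffed310012ce0012ce0012ce0012ce0017ff300) .nil)) (.cons (.split 12 2 5 1 0x2012020060200c02002ffed310012ce0012ce0012ce0012ce0017ff202 0 (.cons (.leaf 0x201204006020580200c02002ffedb100124e00124e00124e00124e000535300) .nil)) (.cons (.split 12 2 5 1 0x2012020060200c02002ffed310012ce0012ce0012ce0012ce0017ff202 0 (.cons (.leaf 0x201204006020580200c02002ffedb100124e00124e00124e00124e000535300) .nil)) (.cons (.split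 12 0 0 1 0 0x2012020060200c02002fffd310002ce0002ce0002ce0002ce0007ff201 (.cons (.split 12 2 5 1 0x2012020060200c02002ffedb100124e00124e00124e00124e00177f202 0 (.cons (.split 12 11 2 1 0x2012020060200c02002ffed310012ce0012ce0012ce0012ce0017ff201 0 (.cons (.leaf 0x201204006020580200c02002ffed310012ce0012ce0012ce0012ce001db5300) .nil)) .nil)) .nil)) (.cons (.split 12 0 0 1 0 0x2012020060200c02002fffd310002ce0002ce0002ce0002ce0007ff201 (.cons (.split 12 2 5 1 0x2012020060200c02002ffedb100124e00124e00124e00124e00177f202 0 (.cons (.split 12 11 2 1 0x2012020060200c02002ffed310012ce0012ce0012ce0012ce0017ff201 0 (.cons (.leaf 0x2399030580201202006010580200c02002ffe531001ace001ace001ace001ace001fff300) .nil)) .nil)) .nil)) c22_18_7)))))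
noncomputable def c22_18_9 : Cert := (.ctop 7 4 (.cons (.split 12 2 5 1 0x2012020060200c02002ffed310012ce0012ce0012ce0012ce0017ff202 0 (.cons (.leaf 0x201203006010580200c02002ffed310012ce0012ce0012ce0012ce0017ff300) .nil)) (.cons (.split 12 2 5 1 0x2012020060200c02002ffed310012ce0012ce0012ce0012ce0017ff202 0 (.cons (.leaf 0x201203006010580200c02002ffed310012ce0012ce0012ce0012ce0017ff300) .nil)) (.cons (.split 12 2 5 1 0x2012020060200c02002ffed310012ce0012ce0012ce0012ce0017ff202 0 (.cons (.leaf 0x201203006010580200c02002ffed310012ce0012ce0012ce0012ce0017ff300) .nil)) (.cons (.split 12 2 5 1 0x2012020060200c02002ffed310012ce0012ce0012ce0012ce0017ff202 0 (.cons (.leaf 0x201203006010580200c02002ffed310012ce0012ce0012ce0012ce0017ff300) .nil)) (.cons (.split 12 2 5 1 0x2012020060200c02002ffed310012ce0012ce0012ce0012ce0017ff202 0 (.cons (.leaf 0x201203006010580200c02002ffed310012ce0012ce0012ce0012ce0017ff300) .nil)) c22_18_8))))))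
noncomputable def c22_18_10 : Cert := (.split 9 4 0 5 0 0 (.cons (.leaf 0xfffdff000200000200000200000200000200000) (.cons (.split 9 7 5 1 0xfffdb500024a00024a00024a00024a00024a001 0 (.cons (.leaf 0x20120200602002fffd110002ee0002ee0002ee0002ee0007ff100) .nil)) (.cons (.split 9 7 4 2 0xfffdb500024a00024a00024a00024a00024a001 0 (.cons c22_18_5 (.cons (.leaf 0xffffff000000000000000000000000000200000) .nil))) (.cons (.split 9 7 3 1 0xfffdb500024a00024a00024a00024a00024a001 0xffffb500004a00004a00004a00004a00024a001 (.cons c22_18_9 .nil)) (.cons (.leaf 0x20520100c01002ffffb500004a00004a00004a00004a00004b200) .nil))))))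
noncomputable def c22_18_11 : Cert := (.cons (.split 9 8 0 2 0 0 (.cons c22_18_10 (.cons (.ref 0) .nil))) .nil)
noncomputable def c22_18_12 : Cert := (.split 9 8 0 2 0 0 (.cons (.split 9 4 2 3 0xfffdb500024a00024a00024a00024a00024a001 0 (.cons (.split 9 7 5 1 0xfffdb500024a00024a00024a00024a00024a001 0 (.cons (.leaf 0x20120200602002fffd310002ce0002ce0002ce0002ce0007ff100) .nil)) (.cons (.split 9 7 4 1 0xfffdb500024a00024a00024a00024a00024a001 0xffffb500004a00004a00004a00004a00024a001 (.cons (.leaf 0x2012020060200c02002fffd310002ce0002ce0002ce0002ce000fff200) .nil)) (.cons (.leaf 0x2052020060200c02002ffffb100004e00004e00004e00004e000135200) .nil)))) (.cons (.split 9 4 0 5 0 0 (.cons (.leaf 0xfffdff000200000200000200000200000200000) (.cons (.split 9 7 5 1 0xfffdb500024a00024a00024a00024a00024a001 0 (.cons (.leaf 0x20120200602002fffd310002ce0002ce0002ce0002ce0007ff100) .nil)) (.cons (.split 9 7 4 2 0xfffdb500024a00024a00024a00024a00024a001 0 (.cons c22_18_2 (.cons (.leaf 0xffffff000000000000000000000000000200000) .nil))) (.cons (.leaf 0x1503010520100601002ffffb500004a00004a00004a00004a00004a100)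 (.cons (.leaf 0x20520100c01002ffffb500004a00004a00004a00004a00004b200) .nil)))))) .nil)))
noncomputable def c22_18_13 : Cert := (.split 10 8 0 2 0 0 (.cons (.split 10 7 3 3 0xfffb9500046a00046a00046a00046a00046a001 0 (.cons (.split 10 9 3 1 0xfffb9500046a00046a00046a00046a00046a001 0 (.cons (.leaf 0x100a01006010140100cfffb9100046e00046e00046e00046e0006ee200) .nil)) (.cons (.leaf 0x2006020540100c01002fff391000c6e000c6e000c6e00086e000aff300) (.cons (.leaf 0x2006020540100c01002fffb9100046e00046e00046e00006e0002ff300) .nil)))) (.cons (.split 10 7 2 4 0xfffb9500046a00046a00046a00046a00046a001 0 (.cons (.leaf 0x200a0205402002fffb9100046e00046e00000400046e0007ff200) (.cons (.leaf 0x20060205402002fff391000c6e000c6e000c6e00086e000bff200) (.cons (.leaf 0x200a0205402002fff391000c6e000c6e000c6e00086e000bff200) (.cons (.leaf 0x200a0205402002fffb9100046e00046e00046e00046e000395200) .nil))))) .nil)))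
noncomputable def c22_18_14 : Cert := (.split 10 8 0 2 0 0 (.cons (.split 10 7 3 3 0xfffb9500046a00046a00046a00046a00046a001 0 (.cons (.split 10 9 3 1 0xfffb9500046a00046a00046a00046a00046a001 0 (.cons (.leaf 0x100a01006010140100cfffb9100046e00046e00046e00046e0006ee200) .nil)) (.cons (.leaf 0x200a0205402002fff391000c6e000c6e00086e000c6e000fff200) (.cons (.leaf 0x2006020540100c01002fffb9100046e00046e00046e00006e0002ff300) .nil)))) (.cons (.split 10 7 2 4 0xfffb9500046a00046a00046a00046a00046a001 0 (.cons (.split 10 9 3 1 0xfffb9500046a00046a00046a00046a00046a001 0 (.cons (.leaf 0x100a010060101401002fffb9100046e00046e00046e00046e0007ee200) .nil)) (.cons (.leaf 0x20060205402002fff391000c6e000c6e000c6e00086e000bff200) (.cons (.leaf 0x200a0205402002fff391000c6e000c6e000c6e00086e000bff200) (.cons (.leaf 0x200a0205402002fffb9100046e00046e00046e00046e000395200) .nil))))) .nil)))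
noncomputable def c22_18_15 : Cert := (.split 10 8 0 2 0 0 (.cons (.split 10 7 3 3 0xfffb9500046a00046a00046a00046a00046a001 0 (.cons (.split 10 9 3 1 0xfffb9500046a00046a00046a00046a00046a001 0 (.cons (.leaf 0x100a01006010140100cfffb9100046e00046e00046e00046e0006ee200) .nil)) (.cons (.split 10 9 2 1 0xfffb9500046a00046a00046a00046a00046a001 0x200a0205402002fff391000c6e000c6e000c6e00086e000bff201 (.cons (.leaf 0x2006020140200c02002fff391000c6e000c6e000c6e000e6e001b95300) .nil)) (.cons (.leaf 0x2006020540100c01002fffb9100046e00046e00046e00006e0002ff300) .nil)))) (.cons (.split 10 7 2 4 0xfffb9500046a00046a00046a00046a00046a001 0 (.cons (.split 10 9 3 1 0xfffb9500046a00046a00046a00046a00046a001 0 (.cons (.leaf 0x100a010060101401002fffb9100046e00046e00046e00046e0007ee200) .nil)) (.cons (.leaf 0x200a0205402002fff391000c6e000c6e000804000c6e000fff200) (.cons (.leaf 0x200a0205402002fff391000c6e000c6e000c6e00086e000bff200) (.cons (.leaf 0x200a0205402002fffb9100046e00046e00046e00046e000395200) .nil))))) .nil)))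
noncomputable def c22_18_16 : Cert := (.split 10 8 0 2 0 0 (.cons (.split 10 7 3 3 0xfffb9500046a00046a00046a00046a00046a001 0 (.cons (.split 10 9 3 1 0xfffb9500046a00046a00046a00046a00046a001 0 (.cons (.leaf 0x100a01006010140100cfffb9100046e00046e00046e00046e0006ee200) .nil)) (.cons (.split 10 9 2 1 0xfffb9500046a00046a00046a00046a00046a001 0xffff9500006a00006a00006a00006a00046a001 (.cons (.leaf 0x2006020140200c02002fff391000c6e000c6e000c6e000e6e001b95300) .nil)) (.cons (.leaf 0x220d0200a0400602002020540400cfffa8000057f00057f00017f00057f0007ff200) .nil)))) (.cons (.split 10 7 2 4 0xfffb9500046a00046a00046a00046a00046a001 0 (.cons (.split 10 9 3 1 0xfffb9500046a00046a00046a00046a00046a001 0 (.cons (.leaf 0x100a010060101401002fffb9100046e00046e00046e00046e0007ee200) .nil)) (.cons (.split 10 9 2 1 0xfffb9500046a00046a00046a00046a00046a001 0x200a0205402002fff391000c6e000c6e000c6e00086e000bff201 (.cons (.leaf 0x2006020140200c02002fff391000c6e000c6e000c6e000e6e001b95300) .nil)) (.cons (.leaf 0x200a0205402002fff391000c6e000c6e000c6e00086e000bff200) (.cons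 (.leaf 0x200a0205402002fffb9100046e00046e00046e00046e000395200) .nil))))) .nil)))
noncomputable def c22_18_17 : Cert := (.split 10 8 0 2 0 0 (.cons (.split 10 7 3 3 0xfffb9500046a00046a00046a00046a00046a001 0 (.cons (.split 10 9 3 1 0xfffb9500046a00046a00046a00046a00046a001 0 (.cons (.leaf 0x100a01006010140100cfffb9100046e00046e00046e00046e0006ee200) .nil)) (.cons (.split 10 9 2 1 0xfffb9500046a00046a00046a00046a00046a001 0xffff9500006a00006a00006a00006a00046a001 (.cons (.leaf 0x2006020140200c02002fff391000c6e000c6e000c6e000e6e001b95300) .nil)) (.cons (.split 10 9 1 1 0xfffb9500046a00046a00046a00046a00046a001 0xffff9500006a00006a00006a00006a00046a001 (.cons (.leaf 0x200a020140200cfffa9100056e00056e00056e00056e000b95200) .nil)) .nil)))) (.cons (.split 10 7 2 4 0xfffb9500046a00046a00046a00046a00046a001 0 (.cons (.split 10 9 3 1 0xfffb9500046a00046a00046a00046a00046a001 0 (.cons (.leaf 0x100a010060101401002fffb9100046e00046e00046e00046e0007ee200) .nil)) (.cons (.split 10 9 2 1 0xfffb9500046a00046a00046a00046a00046a001 0xffff9500006a00006a00006a00006a00046a001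 (.cons (.leaf 0x2006020140200c02002fff391000c6e000c6e000c6e000e6e001b95300) .nil)) (.cons (.leaf 0x200a0205402002fff391000c6e000c6e000c6e00086e000bff200) (.cons (.leaf 0x200a0205402002fffb9100046e00046e00046e00046e000395200) .nil))))) .nil)))
noncomputable def c22_18_18 : Cert := (.split 10 8 0 2 0 0 (.cons (.split 10 7 3 3 0xfffb9500046a00046a00046a00046a00046a001 0 (.cons (.split 10 9 3 1 0xfffb9500046a00046a00046a00046a00046a001 0 (.cons (.leaf 0x100a02006020140200cfffb9100046e00046e00046e00066e000084200) .nil)) (.cons (.split 10 9 2 1 0xfffb9500046a00046a00046a00046a00046a001 0xffff9500006a00006a00006a00006a00046a001 (.cons (.leaf 0x2006020140200c02002fff391000c6e000c6e000c6e000e6e001b95300) .nil)) (.cons (.split 10 9 1 1 0xfffb9500046a00046a00046a00046a00046a001 0xffff9500006a00006a00006a00006a00046a001 (.cons (.leaf 0x200a020140200cfffa9100056e00056e00056e00056e000b95200) .nil)) .nil)))) (.cons (.split 10 7 2 4 0xfffb9500046a00046a00046a00046a00046a001 0 (.cons (.split 10 9 3 1 0xfffb9500046a00046a00046a00046a00046a001 0 (.cons (.leaf 0x100a010060101401002fffb9100046e00046e00046e00046e0007ee200)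 .nil)) (.cons (.split 10 9 2 1 0xfffb9500046a00046a00046a00046a00046a001 0xffff9500006a00006a00006a00006a00046a001 (.cons (.leaf 0x2006020140200c02002fff391000c6e000c6e000c6e000e6e001b95300) .nil)) (.cons (.leaf 0x200a0205402002fff391000c6e000c6e000c6e00086e000bff200) (.cons (.leaf 0x200a0205402002fffb9100046e00046e00046e00046e000395200) .nil))))) .nil)))
noncomputable def c22_18_19 : Cert := (.cons (.leaf 0x100affffff000000000000000000000000000000000) .nil)
noncomputable def c22_18_20 : Cert := (.split 10 8 0 2 0 0 (.cons (.split 10 7 3 3 0xfffb9500046a00046a00046a00046a00046a001 0 (.cons (.split 10 9 3 1 0xfffb9500046a00046a00046a00046a00046a001 0 (.cons (.leaf 0x100a02006020140200cfffb9100046e00046e00046e00066e000084200) .nil)) (.cons (.split 10 9 2 1 0xfffb9500046a00046a00046a00046a00046a001 0xffff9500006a00006a00006a00006a00046a001 (.cons (.leaf 0x2006020140200c02002fff391000c6e000c6e000c6e000e6e001b95300) .nil)) (.cons (.split 10 9 1 1 0xfffb9500046a00046a00046a00046a00046a001 0xffff9500006a00006a00006a00006a00046a001 (.cons (.leaf 0x200a020140200cfffa9100056e00056e00056e00056e000b95200)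 .nil)) .nil)))) (.cons (.split 10 7 2 4 0xfffb9500046a00046a00046a00046a00046a001 0 (.cons (.split 10 9 3 1 0xfffb9500046a00046a00046a00046a00046a001 0 (.cons (.leaf 0x100a010060101401002fffb9100046e00046e00046e00046e0007ee200) .nil)) (.cons (.split 10 9 2 1 0xfffb9500046a00046a00046a00046a00046a001 0xffff9500006a00006a00006a00006a00046a001 (.cons (.leaf 0x2006020140200c02002fff391000c6e000c6e000c6e000e6e001b95300) .nil)) (.cons (.split 10 9 1 1 0xfffb9500046a00046a00046a00046a00046a001 0x200a0205402002fff391000c6e000c6e000c6e00086e000bff201 (.cons (.leaf 0x200a0201402002fff391000c6e000c6e000c6e000c6e001b95200) .nil)) (.cons (.leaf 0x200a0205402002fffb9100046e00046e00046e00046e000395200) .nil))))) .nil)))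
noncomputable def c22_18_21 : Cert := (.cons (.leaf 0x100affffff000000000000000000000000000000000) .nil)
noncomputable def c22_18_22 : Cert := (.split 10 8 0 2 0 0 (.cons (.split 10 7 3 3 0xfffb9500046a00046a00046a00046a00046a001 0 (.cons (.split 10 9 3 1 0xfffb9500046a00046a00046a00046a00046a001 0 (.cons (.leaf 0x100a02006020140200cfffb9100046e00046e00046e00066e000084200) .nil)) (.cons (.split 10 9 2 1 0xfffb9500046a00046a00046a00046a00046a001 0xffff9500006a00006a00006a00006a00046a001 (.cons (.leaf 0x2006020140200c02002fff391000c6e000c6e000c6e000e6e001b95300) .nil)) (.cons (.split 10 9 1 1 0xfffb9500046a00046a00046a00046a00046a001 0xffff9500006a00006a00006a00006a00046a001 (.cons (.leaf 0x200a020140200cfffa9100056e00056e00056e00056e000b95200) .nil)) .nil)))) (.cons (.split 10 7 2 4 0xfffb9500046a00046a00046a00046a00046a001 0 (.cons (.split 10 9 3 1 0xfffb9500046a00046a00046a00046a00046a001 0 (.cons (.leaf 0x100a010060101401002fffb9100046e00046e00046e00046e0007ee200) .nil)) (.cons (.split 10 9 2 1 0xfffb9500046a00046a00046a00046a00046a001 0xffff9500006a00006a00006a00006a00046a001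 (.cons (.leaf 0x2006020140200c02002fff391000c6e000c6e000c6e000e6e001b95300) .nil)) (.cons (.split 10 9 1 1 0xfffb9500046a00046a00046a00046a00046a001 0xffff9500006a00006a00006a00006a00046a001 (.cons (.leaf 0x200a0201402002fff391000c6e000c6e000c6e000c6e001b95200) .nil)) (.cons (.leaf 0x200a0205402002fffb9100046e00046e00046e00046e000395200) .nil))))) .nil)))
noncomputable def c22_18_23 : Cert := (.cons (.split 10 7 2 4 0xfffb9500046a00046a00046a00046a00046a001 0 (.cons (.split 10 9 3 1 0xfffb9500046a00046a00046a00046a00046a001 0 (.cons (.leaf 0x200a020060201402002fffb9100046e00046e00046e00076e000080200) .nil)) (.cons (.split 10 9 2 1 0xfffb9500046a00046a00046a00046a00046a001 0xffff9500006a00006a00006a00006a00046a001 (.cons (.leaf 0x2006020140200c02002fff391000c6e000c6e000c6e000e6e001b95300) .nil)) (.cons (.split 10 9 1 1 0xfffb9500046a00046a00046a00046a00046a001 0xffff9500006a00006a00006a00006a00046a001 (.cons (.leaf 0x200a0201402002fff391000c6e000c6e000c6e000c6e001b95200) .nil)) (.cons (.leaf 0x220d0200a04006020540200cfffb8000047f00047f00047f00047f000395200)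 .nil))))) .nil)
noncomputable def c22_18_24 : Cert := (.split 10 7 3 3 0xfffb9500046a00046a00046a00046a00046a001 0 (.cons (.split 10 9 3 1 0xfffb9500046a00046a00046a00046a00046a001 0 (.cons (.cbot 2 2 (.cons (.split 12 7 3 1 0x200a040060201404002ffe391001c6e001c6e001c6e000f6a001b95202 0 (.cons (.leaf 0x10580100a01006010140100cffeb9100146e00146e00146e00146e00166e200) .nil)) .nil)) .nil)) (.cons (.split 10 9 2 1 0xfffb9500046a00046a00046a00046a00046a001 0xffff9500006a00006a00006a00006a00046a001 (.cons (.leaf 0x2006020140200c02002fff391000c6e000c6e000c6e000e6e001b95300) .nil)) (.cons (.split 10 9 1 1 0xfffb9500046a00046a00046a00046a00046a001 0xffff9500006a00006a00006a00006a00046a001 (.cons (.leaf 0x220d0200a0400602002020140400cfffa8000057f00057f00057f00057f000b95200) .nil)) .nil))))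
noncomputable def c22_18_25 : Cert := (.cons (.split 10 0 0 1 0 0x1006ffff9500006a00006a00006a00006a00006a001 (.cons (.split 10 2 0 1 0 0x100affff9500006a00006a00006a00006a00006a001 (.cons (.split 10 4 0 2 0 0 (.cons c22_18_20 c22_18_19)) .nil)) .nil)) (.cons (.split 10 0 0 1 0 0x1006ffff9500006a00006a00006a00006a00006a001 (.cons (.split 10 2 0 1 0 0x100affff9500006a00006a00006a00006a00006a001 (.cons (.split 10 4 0 2 0 0 (.cons c22_18_22 c22_18_21)) .nil)) .nil)) (.cons (.split 10 0 0 1 0 0x1006ffff9500006a00006a00006a00006a00006a001 (.cons (.split 10 2 0 1 0 0x100affff9500006a00006a00006a00006a00006a001 (.cons (.split 10 4 0 2 0 0 (.cons (.split 10 8 0 2 0 0 (.cons c22_18_24 c22_18_23)) (.cons (.leaf 0x100affffff000000000000000000000000000000000) .nil))) .nil)) .nil)) .nil)))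
noncomputable def c22_18_26 : Cert := (.cons (.split 10 0 0 1 0 0x1006ffff9500006a00006a00006a00006a00006a001 (.cons (.split 10 2 0 1 0 0x100affff9500006a00006a00006a00006a00006a001 (.cons (.split 10 4 0 2 0 0 (.cons c22_18_16 (.cons (.leaf 0x100affffff000000000000000000000000000000000) .nil))) .nil)) .nil)) (.cons (.split 10 0 0 1 0 0x1006ffff9500006a00006a00006a00006a00006a001 (.cons (.split 10 2 0 1 0 0x100affff9500006a00006a00006a00006a00006a001 (.cons (.split 10 4 0 2 0 0 (.cons c22_18_17 (.cons (.leaf 0x100affffff000000000000000000000000000000000) .nil))) .nil)) .nil)) (.cons (.split 10 0 0 1 0 0x1006ffff9500006a00006a00006a00006a00006a001 (.cons (.split 10 2 0 1 0 0x100affff9500006a00006a00006a00006a00006a001 (.cons (.split 10 4 0 2 0 0 (.cons c22_18_18 (.cons (.leaf 0x100affffff000000000000000000000000000000000) .nil))) .nil)) .nil)) c22_18_25)))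
noncomputable def c22_18_27 : Cert := (.cons (.split 10 0 0 1 0 0x1006ffff9500006a00006a00006a00006a00006a001 (.cons (.split 10 2 0 1 0 0x100affff9500006a00006a00006a00006a00006a001 (.cons (.split 10 4 0 2 0 0 (.cons c22_18_13 (.cons (.leaf 0x100affffff000000000000000000000000000000000) .nil))) .nil)) .nil)) (.cons (.split 10 0 0 1 0 0x1006ffff9500006a00006a00006a00006a00006a001 (.cons (.split 10 2 0 1 0 0x100affff9500006a00006a00006a00006a00006a001 (.cons (.split 10 4 0 2 0 0 (.cons c22_18_14 (.cons (.leaf 0x100affffff000000000000000000000000000000000) .nil))) .nil)) .nil)) (.cons (.split 10 0 0 1 0 0x1006ffff9500006a00006a00006a00006a00006a001 (.cons (.split 10 2 0 1 0 0x100affff9500006a00006a00006a00006a00006a001 (.cons (.split 10 4 0 2 0 0 (.cons c22_18_15 (.cons (.leaf 0x100affffff000000000000000000000000000000000) .nil))) .nil)) .nil)) c22_18_26)))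
noncomputable def c22_18_28 : Cert := (.split 5 7 0 5 0 0x200602002ffffb100004e00004e00004e00004e00037f101 (.cons (.split 5 2 6 1 0xffff9500006a00006a00006a00006a00006a001 0 (.cons (.ctop 2 7 (.cons (.leaf 0x100a0100601054fffb9500046a00046a00046a00046a000000100) (.cons (.leaf 0x100a0100601054fffb9500046a00046a00046a00046a000000100) (.cons (.leaf 0x100a0100601054fffb9500046a00046a00046a00046a000000100) (.cons (.leaf 0x100a0100601054fffb9500046a00046a00046a00046a000000100) c22_18_27))))) .nil)) (.cons (.split 5 2 5 1 0xffff9500006a00006a00006a00006a00006a001 0xffffb500004a00004a00004a00004a00006a001 (.cons (.leaf 0x200a020060100c01002fff7110008ee0008ee0008ee0008ee000bff200) .nil)) (.cons (.split 5 2 4 1 0xffff9500006a00006a00006a00006a00006a001 0xffffb500004a00004a00004a00004a00006a001 (.cons (.leaf 0x200a020060100c01002fff7110008ee0008ee0008ee0008ee000bff200) .nil)) (.cons (.split 5 2 3 1 0x200602002ffff9100006e00006e00006e00006e00037f102 0xffffb500004a00004a00004a00004a00006a001 (.cons (.leaf 0x200a020060100c01002fff7110008ee0008ee0008ee0008ee000fff200)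 .nil)) (.cons (.leaf 0x204a0200602002ffff310000ce0000ce0000ce0000ce0007ff100) .nil))))))
noncomputable def c22_18_29 : Cert := (.split 5 7 0 6 0 0 (.cons (.leaf 0xffffdf000020000020000020000020000020000) (.cons (.split 5 2 6 1 0xffff9500006a00006a00006a00006a00006a001 0 (.cons (.leaf 0x200a02002ffff110000ee0000ee0000ee0000ee0001ff100) .nil)) (.cons (.split 5 2 5 1 0xffff9500006a00006a00006a00006a00006a001 0xffffb500004a00004a00004a00004a00006a001 (.cons (.leaf 0x200a0200602002fffb110004ee0004ee0004ee0004ee0005ff100) .nil)) (.cons (.split 5 2 4 1 0xffff9500006a00006a00006a00006a00006a001 0xffffb500004a00004a00004a00004a00006a001 (.cons (.leaf 0x200a0200602002fffb110004ee0004ee0004ee0004ee0007ff100) .nil)) (.cons (.split 5 2 3 1 0xffff9500006a00006a00006a00006a00006a001 0xffffb500004a00004a00004a00004a00006a001 (.cons (.leaf 0x200a0200602002fffb110004ee0004ee0004ee0004ee0007ff100) .nil)) (.cons (.leaf 0x204a0200602002ffff310000ce0000ce0000ce0000ce0001ff100) .nil)))))))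
noncomputable def c22_18_30 : Cert := (.split 10 8 0 2 0 0 (.cons (.split 10 7 2 4 0x10060100afffb9500046a00046a00046a00046a00046a101 0 (.cons (.split 10 4 4 1 0x10060100afffb9500046a00046a00046a00046a00046a101 0 (.cons (.leaf 0x1006010140100c0100afffb9500046a00046a00046a00046a00047a300) .nil)) (.cons (.split 10 4 3 1 0x10060100afffb9500046a00046a00046a00046a00046a101 0x3006020540100a02002fff391000c6e000c6e000c6e00086e000bff301 (.cons (.leaf 0x4006020140200c0200a02002fff391000c6e000c6e000c6e000c7e001b95400) .nil)) (.cons (.leaf 0x3006020540100c0100a01002fff391000c6e000c6e00086e000c6e000eff400) (.cons (.leaf 0x3006020540100c0100a01002fff99100066e00066e00026e00066e0006ff400) .nil))))) (.cons (.split 10 7 1 5 0x40060200a02002fffb9100046e00046e00046e00046e000315202 0 (.cons (.leaf 0x5006010540300a02002fffb9100046e00046e00046e00000400077f300) (.cons (.leaf 0x4006020540200a02002fffb9100046e00046e00006e00046e000595300) (.cons (.leaf 0x3006020540100c0100a01002fff391000c6e000c6e00086e000c6e000fff400) (.cons (.leaf 0x3006020540100c0100a01002fff391000c6e000c6e00086e000c6e000fff400)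 (.cons (.leaf 0x3006020540200a02002fff99100066e00066e00066e00066e000395300) .nil)))))) .nil)))
noncomputable def c22_18_31 : Cert := (.cons (.leaf 0x1006ffffff000000000000000000000000000000000) .nil)
noncomputable def c22_18_32 : Cert := (.split 10 8 0 2 0 0 (.cons (.split 10 7 2 4 0x10060100afffb9500046a00046a00046a00046a00046a101 0 (.cons (.split 10 4 4 1 0x10060100afffb9500046a00046a00046a00046a00046a101 0 (.cons (.leaf 0x1006010140100c0100afffb9500046a00046a00046a00046a00047a300) .nil)) (.cons (.split 10 4 3 1 0x10060100afffb9500046a00046a00046a00046a00046a101 0x10060100affff9500006a00006a00006a00006a00046a101 (.cons (.leaf 0x4006020140200c0200a02002fff391000c6e000c6e000c6e000c7e001b95400) .nil)) (.cons (.leaf 0x3006020540100a02002fff391000c6e000c6e00086e000c6e000fff300) (.cons (.leaf 0x3006020540100c0100a01002fff99100066e00066e00026e00066e0006ff400) .nil))))) (.cons (.split 10 7 0 6 0 0 (.cons (.leaf 0xfffbff000400000400000400000400000400000) (.cons (.split 10 4 4 1 0x10060100afffb9500046a00046a00046a00046a00046a101 0 (.cons (.leaf 0x3006010140100a01002fffb9100046e00046e00046e00046e00057e300)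 .nil)) (.cons (.split 10 4 3 1 0x10060100afffb9500046a00046a00046a00046a00046a101 0x10060100affff9500006a00006a00006a00006a00046a101 (.cons (.leaf 0x4006020140200c0200a02002fff391000c6e000c6e000c6e000c7e001b95400) .nil)) (.cons (.leaf 0x4006020540200a02002fff391000c6e000c6e00086e000c6e000f95300) (.cons (.leaf 0x3006020540100c0100a01002fff391000c6e000c6e00086e000c6e000fff400) (.cons (.leaf 0x3006020540200a02002fff99100066e00066e00066e00066e000395300) .nil))))))) .nil)))
noncomputable def c22_18_33 : Cert := (.cons (.split 10 7 0 6 0 0 (.cons (.leaf 0xfffbff000400000400000400000400000400000) (.cons (.split 10 4 4 1 0x10060100afffb9500046a00046a00046a00046a00046a101 0 (.cons (.leaf 0x3006010140100a01002fffb9100046e00046e00046e00046e00057e300) .nil)) (.cons (.split 10 4 3 1 0x10060100afffb9500046a00046a00046a00046a00046a101 0x10060100affff9500006a00006a00006a00006a00046a101 (.cons (.leaf 0x4006020140200c0200a02002fff391000c6e000c6e000c6e000c7e001b95400) .nil)) (.cons (.leaf 0x4006020540200a02002fff391000c6e000c6e00086e000c6e000f95300) (.cons (.leaf 0x3006020540100c0100a01002fff391000c6e000c6e00086e000c6e000fff400)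 (.cons (.leaf 0x4006020540200a02002fff99100066e00066e00066e00066e000395300) .nil))))))) .nil)
noncomputable def c22_18_34 : Cert := (.split 10 8 0 2 0 0 (.cons (.split 10 7 2 4 0x10060100afffb9500046a00046a00046a00046a00046a101 0 (.cons (.split 10 4 4 1 0x10060100afffb9500046a00046a00046a00046a00046a101 0 (.cons (.leaf 0x1006010140100c0100afffb9500046a00046a00046a00046a00047a300) .nil)) (.cons (.split 10 4 3 1 0x10060100afffb9500046a00046a00046a00046a00046a101 0x10060100affff9500006a00006a00006a00006a00046a101 (.cons (.leaf 0x4006020140200c0200a02002fff391000c6e000c6e000c6e000c7e001b95400) .nil)) (.cons (.split 10 4 2 1 0x10060100afffb9500046a00046a00046a00046a00046a101 0x10060100affff9500006a00006a00006a00006a00046a101 (.cons (.leaf 0x3006020140200a02002fff391000c6e000c6e000c6e000c6e001b95300) .nil)) (.cons (.leaf 0x3006020540100c0100a01002fff99100066e00066e00026e00066e0006ff400) .nil))))) c22_18_33))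
noncomputable def c22_18_35 : Cert := (.split 10 7 0 6 0 0 (.cons (.leaf 0xfffbff000400000400000400000400000400000) (.cons (.split 10 4 4 1 0x10060100afffb9500046a00046a00046a00046a00046a101 0 (.cons (.leaf 0x3006010140100a01002fffb9100046e00046e00046e00046e00057e300) .nil)) (.cons (.split 10 4 3 1 0x10060100afffb9500046a00046a00046a00046a00046a101 0x10060100affff9500006a00006a00006a00006a00046a101 (.cons (.leaf 0x4006020140200c0200a02002fff391000c6e000c6e000c6e000c7e001b95400) .nil)) (.cons (.split 10 4 2 1 0x10060100afffb9500046a00046a00046a00046a00046a101 0x10060100affff9500006a00006a00006a00006a00046a101 (.cons (.leaf 0x4006020140200c0200a02002fff391000c6e000c6e000c6e000c7e001b95400) .nil)) (.cons (.leaf 0x3006020540100c0100a01002fff391000c6e000c6e00086e000c6e000fff400) (.cons (.leaf 0x4006020540200a02002fff99100066e00066e00066e00066e000395300) .nil)))))))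
noncomputable def c22_18_36 : Cert := (.split 10 4 0 5 0 0 (.cons (.leaf 0xfffbff000400000400000400000400000400000) (.cons (.split 10 7 5 1 0x10060100afffb9500046a00046a00046a00046a00046a101 0 (.cons (.leaf 0x4006020140200c0200afff89100076e00076e00076e00076e000b95300) .nil)) (.cons (.split 10 7 4 1 0x10060100afffb9500046a00046a00046a00046a00046a101 0x10060100affff9500006a00006a00006a00006a00046a101 (.cons (.leaf 0x4006020140200a02002ffeb9100146e00146e00146e00146e001b95300) .nil)) (.cons (.split 10 7 3 1 0x10060100afffb9500046a00046a00046a00046a00046a101 0x10060100affff9500006a00006a00006a00006a00046a101 (.cons (.leaf 0x4006020140200c0200a02002ffeb9100146e00146e00146e00147e001b95400) .nil)) (.cons (.split 10 7 2 1 0x10060100afffb9500046a00046a00046a00046a00046a101 0x10060100affff9500006a00006a00006a00006a00046a101 (.cons (.leaf 0x1006010140100c0100afffb9500046a00046a00046a00046a00047a300) .nil)) .nil))))))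
noncomputable def c22_18_37 : Cert := (.split 10 7 0 6 0 0 (.cons (.leaf 0xfffbff000400000400000400000400000400000) (.cons (.split 10 4 4 1 0x10060100afffb9500046a00046a00046a00046a00046a101 0 (.cons (.leaf 0x3006010140100a01002fffb9100046e00046e00046e00046e00057e300) .nil)) (.cons (.split 10 4 3 1 0x10060100afffb9500046a00046a00046a00046a00046a101 0x10060100affff9500006a00006a00006a00006a00046a101 (.cons (.leaf 0x4006020140200c0200a02002fff391000c6e000c6e000c6e000c7e001b95400) .nil)) (.cons (.split 10 4 2 1 0x10060100afffb9500046a00046a00046a00046a00046a101 0x10060100affff9500006a00006a00006a00006a00046a101 (.cons (.leaf 0x4006020140200c0200a02002fff391000c6e000c6e000c6e000c7e001b95400) .nil)) (.cons (.leaf 0x3006020540100c0100a01002fff391000c6e000c6e00086e000c6e000dff400) (.cons (.leaf 0x4006020540200a02002fff99100066e00066e00066e00066e000395300) .nil)))))))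
noncomputable def c22_18_38 : Cert := (.split 10 4 0 5 0 0 (.cons (.leaf 0xfffbff000400000400000400000400000400000) (.cons (.split 10 7 5 1 0x10060100afffb9500046a00046a00046a00046a00046a101 0 (.cons (.leaf 0x4006020140200c0200afff89100076e00076e00076e00076e000b95300) .nil)) (.cons (.split 10 7 4 1 0x10060100afffb9500046a00046a00046a00046a00046a101 0x10060100affff9500006a00006a00006a00006a00046a101 (.cons (.leaf 0x4006020140200a02002ffeb9100146e00146e00146e00146e001b95300) .nil)) (.cons (.split 10 7 3 1 0x10060100afffb9500046a00046a00046a00046a00046a101 0x10060100affff9500006a00006a00006a00006a00046a101 (.cons (.leaf 0x4006020140200c0200a02002ffeb9100146e00146e00146e00147e001b95400) .nil)) (.cons (.split 10 7 2 1 0x10060100afffb9500046a00046a00046a00046a00046a101 0x10060100affff9500006a00006a00006a00006a00046a101 (.cons (.leaf 0x1006010140100c0100afffb9500046a00046a00046a00046a00047a300) .nil)) .nil))))))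
noncomputable def c22_18_39 : Cert := (.split 10 7 0 6 0 0 (.cons (.leaf 0xfffbff000400000400000400000400000400000) (.cons (.split 10 4 4 1 0x10060100afffb9500046a00046a00046a00046a00046a101 0 (.cons (.leaf 0x3006010140100a01002fffb9100046e00046e00046e00046e00057e300) .nil)) (.cons (.split 10 4 3 1 0x10060100afffb9500046a00046a00046a00046a00046a101 0x10060100affff9500006a00006a00006a00006a00046a101 (.cons (.leaf 0x4006020140200c0200a02002fff391000c6e000c6e000c6e000c7e001b95400) .nil)) (.cons (.split 10 4 2 1 0x10060100afffb9500046a00046a00046a00046a00046a101 0x10060100affff9500006a00006a00006a00006a00046a101 (.cons (.leaf 0x4006020140200c0200a02002fff391000c6e000c6e000c6e000c7e001b95400) .nil)) (.cons (.leaf 0x4006020540200a02002fff391000c6e000c6e00086e000c6e000f95300) (.cons (.leaf 0x4006020540200a02002fff99100066e00066e00066e00066e000395300) .nil)))))))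
noncomputable def c22_18_40 : Cert := (.split 10 4 0 5 0 0 (.cons (.leaf 0xfffbff000400000400000400000400000400000) (.cons (.split 10 7 5 1 0x10060100afffb9500046a00046a00046a00046a00046a101 0 (.cons (.leaf 0x4006020140200c0200afff89100076e00076e00076e00076e000b95300) .nil)) (.cons (.split 10 7 4 1 0x10060100afffb9500046a00046a00046a00046a00046a101 0x10060100affff9500006a00006a00006a00006a00046a101 (.cons (.leaf 0x4006020140200a02002ffeb9100146e00146e00146e00146e001b95300) .nil)) (.cons (.split 10 7 3 1 0x10060100afffb9500046a00046a00046a00046a00046a101 0x10060100affff9500006a00006a00006a00006a00046a101 (.cons (.leaf 0x4006020140200c0200a02002ffeb9100146e00146e00146e00147e001b95400) .nil)) (.cons (.split 10 7 2 1 0x10060100afffb9500046a00046a00046a00046a00046a101 0x10060100affff9500006a00006a00006a00006a00046a101 (.cons (.leaf 0x1006010140100c0100afffb9500046a00046a00046a00046a00047a300) .nil)) .nil))))))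
noncomputable def c22_18_41 : Cert := (.top 19 (.cons (.leaf 0x3006020140100c0200a0200201040fffb9400046b00046b00046b00047b000200500) (.cons (.split 12 4 3 1 0x4006020140200c0200a02002fff391000c6e000c6e000c6e000c7e001b95402 0 (.cons (.leaf 0x1048150060b0140100c0b00a06002fffb9100046e0000040014fa0010040014fe400) .nil)) (.cons (.leaf 0x3006010140100a01002fffb9100046e00046e00046e00046e00057e300) (.cons (.split 8 2 5 1 0x5006010140200c0100a01002fffb9100046e00046e00046e00047e00066b402 0 (.cons (.leaf 0x200601014010500100a01002fffb9500046a00046a00046a00046a00047a400) .nil)) (.cons (.split 9 4 4 1 0x900603014010520600c0300a03002fff99500066a00066a00067a00001100066b505 0 (.cons (.leaf 0x104809006050140400c0500a03002fffb9100046e00046e0000040006ff00066b400) .nil)) (.cons (.split 12 2 5 1 0x8006020140200c0200a02002ffeb9100146e00146e00146e00147a001395404 0 (.cons (.leaf 0x200601058010140100a01002fffb9500046a00046a00046a00046a00047a400) .nil)) .nil)))))))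
noncomputable def c22_18_42 : Cert := (.split 10 7 0 6 0 0 (.cons (.leaf 0xfffbff000400000400000400000400000400000) (.cons (.split 10 4 4 1 0x10060100afffb9500046a00046a00046a00046a00046a101 0 (.cons (.leaf 0x3006010140100a01002fffb9100046e00046e00046e00046e00057e300) .nil)) (.cons (.split 10 4 3 1 0x10060100afffb9500046a00046a00046a00046a00046a101 0x10060100affff9500006a00006a00006a00006a00046a101 (.cons (.leaf 0x4006020140200c0200a02002fff391000c6e000c6e000c6e000c7e001b95400) .nil)) (.cons (.split 10 4 2 1 0x10060100afffb9500046a00046a00046a00046a00046a101 0x10060100affff9500006a00006a00006a00006a00046a101 (.cons (.leaf 0x4006020140200c0200a02002fff391000c6e000c6e000c6e000c7e001b95400) .nil)) (.cons (.split 10 4 1 1 0x10060100afffb9500046a00046a00046a00046a00046a101 0x10060100affff9500006a00006a00006a00006a00046a101 (.cons (.leaf 0x4006020140200a02002fff391000c6e000c6e000c6e000c6e001b95300) .nil)) (.cons (.leaf 0x4006020540200a02002fff99100066e00066e00066e00066e000395300) .nil)))))))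
noncomputable def c22_18_43 : Cert := (.split 10 4 0 5 0 0 (.cons (.leaf 0xfffbff000400000400000400000400000400000) (.cons (.split 10 7 5 1 0x10060100afffb9500046a00046a00046a00046a00046a101 0 (.cons (.leaf 0x4006020140200c0200afff89100076e00076e00076e00076e000b95300) .nil)) (.cons (.split 10 7 4 1 0x10060100afffb9500046a00046a00046a00046a00046a101 0x10060100affff9500006a00006a00006a00006a00046a101 (.cons (.leaf 0x4006020140200a02002ffeb9100146e00146e00146e00146e001b95300) .nil)) (.cons (.split 10 7 3 1 0x10060100afffb9500046a00046a00046a00046a00046a101 0x10060100affff9500006a00006a00006a00006a00046a101 (.cons (.leaf 0x4006020140200c0200a02002ffeb9100146e00146e00146e00147e001b95400) .nil)) (.cons (.split 10 7 2 1 0x10060100afffb9500046a00046a00046a00046a00046a101 0x10060100affff9500006a00006a00006a00006a00046a101 (.cons c22_18_41 .nil)) .nil))))))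
noncomputable def c22_18_44 : Cert := (.cbot 2 3 (.cons (.split 12 11 3 1 0x9006020140100c0300a03002ffe391001c6e001c6e001c6e000810001fff404 0 (.cons (.leaf 0x205803006020140200c0100a02002ffe391001c6e001c6e001c6e000c7e001fff400) .nil)) (.cons (.split 12 0 0 2 0 0 (.cons (.split 12 2 0 1 0 0x20060100afffb9500046a00046a00046a00046a00046a101 (.cons (.split 12 9 0 2 0 0 (.cons (.split 12 11 3 1 0x9006020140100c0300a03002ffe391001c6e001c6e001c6e000810001fff404 0 (.cons (.split 12 7 2 1 0x205809006020140200c0300a02002ffe391001c6e001c6e001c6e000810001fff402 0 (.cons (.leaf 0x2058030060100a02002ffe311001cee001cee001cee001cee001fff200) .nil)) .nil)) (.cons (.leaf 0x1006ffffff000000000000000000000000000000000) .nil))) .nil)) (.cons (.leaf 0x1006ffffff000000000000000000000000000000000) .nil))) .nil)))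
noncomputable def c22_18_45 : Cert := (.split 10 7 0 6 0 0 (.cons (.leaf 0xfffbff000400000400000400000400000400000) (.cons (.split 10 4 4 1 0x10060100afffb9500046a00046a00046a00046a00046a101 0 (.cons (.leaf 0x3006010140100a01002fffb9100046e00046e00046e00046e00057e300) .nil)) (.cons (.split 10 4 3 1 0x10060100afffb9500046a00046a00046a00046a00046a101 0x10060100affff9500006a00006a00006a00006a00046a101 (.cons (.leaf 0x4006020140200c0200a02002fff391000c6e000c6e000c6e000c7e001b95400) .nil)) (.cons (.split 10 4 2 1 0x10060100afffb9500046a00046a00046a00046a00046a101 0x10060100affff9500006a00006a00006a00006a00046a101 (.cons (.leaf 0x4006020140200c0200a02002fff391000c6e000c6e000c6e000c7e001b95400) .nil)) (.cons (.split 10 4 1 1 0x10060100afffb9500046a00046a00046a00046a00046a101 0x10060100affff9500006a00006a00006a00006a00046a101 (.cons (.leaf 0x4006020140200a02002fff391000c6e000c6e000c6e000c6e001b95300) .nil)) (.cons (.leaf 0x4006020540200a02002fffb9100046e00046e00046e00046e000395300) .nil)))))))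
noncomputable def c22_18_46 : Cert := (.split 10 4 0 5 0 0 (.cons (.leaf 0xfffbff000400000400000400000400000400000) (.cons (.split 10 7 5 1 0x10060100afffb9500046a00046a00046a00046a00046a101 0 (.cons (.leaf 0x4006020140200c0200afff89100076e00076e00076e00076e000b95300) .nil)) (.cons (.split 10 7 4 1 0x10060100afffb9500046a00046a00046a00046a00046a101 0x10060100affff9500006a00006a00006a00006a00046a101 (.cons (.leaf 0x4006020140200a02002ffeb9100146e00146e00146e00146e001b95300) .nil)) (.cons (.split 10 7 3 1 0x10060100afffb9500046a00046a00046a00046a00046a101 0x10060100affff9500006a00006a00006a00006a00046a101 (.cons (.leaf 0x4006020140200c0200a02002ffeb9100146e00146e00146e00147e001b95400) .nil)) (.cons (.split 10 7 2 1 0x10060100afffb9500046a00046a00046a00046a00046a101 0x10060100affff9500006a00006a00006a00006a00046a101 (.cons c22_18_44 .nil)) .nil))))))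
noncomputable def c22_18_47 : Cert := (.split 8 7 0 1 0 0x4006020140200a02002fff99000066f00066f00066f00076f000b95304 (.cons (.split 8 9 0 2 0 0 (.cons (.leaf 0x4006020140200a02002fff99100066e00066e00066e00066e000b95300) (.cons (.split 8 0 0 2 0 0 (.cons (.split 8 4 0 2 0 0 (.cons (.split 8 11 1 1 0x100c010060100a01002fffa9500056a00056a00056a00056a00056a202 0x4006020140200a02002fff99100066e00066e00066e00076e000b95302 (.cons (.leaf 0x600602014020100200c0200a02002fff89100076e00076e00076e000f6e001a95500) .nil)) (.cons (.leaf 0x600602014020500200c0200a02002fff99000066f00066f00066f00067f000b95500) .nil))) (.cons (.leaf 0x600602014020500200c0200afff89100076e00076e00076e00076e000b95400) .nil))) .nil))) .nil))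
noncomputable def c22_18_48 : Cert := (.cons (.split 8 2 5 1 0x4006020140200c0200afff89100076e00076e00076e00076e000b95302 0 (.cons (.split 8 9 1 1 0x4006020140200a02002fff99100066e00066e00066e00066e000b95302 0 (.cons (.leaf 0x600602014020500200a02002fff99100066e00066e00066e00066e000b95400) .nil)) .nil)) (.cons (.split 8 2 5 1 0x4006020140200c0200afff89100076e00076e00076e00076e000b95302 0 (.cons (.leaf 0x600602014020500200a02002fff99100066e00066e00066e00066e000b95400) .nil)) (.cons (.split 8 2 5 1 0x4006020140200c0200afff89100076e00076e00076e00076e000b95302 0 (.cons (.leaf 0x600602014020500200a02002fff99100066e00066e00066e00066e000b95400) .nil)) (.cons (.split 8 2 5 1 0x4006020140200c0200afff89100076e00076e00076e00076e000b95302 0 (.cons (.leaf 0x600602014020500200a02002fff99100066e00066e00066e00066e000b95400) .nil)) (.cons (.split 8 2 5 1 0x4006020140200c0200afff89100076e00076e00076e00076e000b95302 0 (.cons (.leaf 0x600602014020500200a02002fff99100066e00066e00066e00066e000b95400) .nil)) (.cons (.split 8 2 5 1 0x4006020140200c0200afff89100076e00076e00076e00076e000b95302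 0 (.cons (.leaf 0x600602014020500200a02002fff99100066e00066e00066e00066e000b95400) .nil)) (.cons (.split 8 2 5 1 0x4006020140200c0200afff89100076e00076e00076e00076e000b95302 0 (.cons (.leaf 0x600602014020500200a02002fff99100066e00066e00066e00066e000b95400) .nil)) .nil)))))))
noncomputable def c22_18_49 : Cert := (.cons (.tc 2) (.cons (.split 8 2 5 1 0x4006020140200c0200afff89100076e00076e00076e00076e000b95302 0 (.cons c22_18_47 .nil)) (.cons (.split 8 2 5 1 0x4006020140200c0200afff89100076e00076e00076e00076e000b95302 0 (.cons (.split 8 9 1 1 0x4006020140200a02002fff99100066e00066e00066e00066e000b95302 0 (.cons (.leaf 0x600602014020500200a02002fff99100066e00066e00066e00066e000b95400) .nil)) .nil)) (.cons (.split 8 2 5 1 0x4006020140200c0200afff89100076e00076e00076e00076e000b95302 0 (.cons (.split 8 9 1 1 0x4006020140200a02002fff99100066e00066e00066e00066e000b95302 0 (.cons (.leaf 0x600602014020500200a02002fff99100066e00066e00066e00066e000b95400) .nil)) .nil)) (.cons (.split 8 2 5 1 0x4006020140200c0200afff89100076e00076e00076e00076e000b95302 0 (.cons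 (.split 8 9 1 1 0x4006020140200a02002fff99100066e00066e00066e00066e000b95302 0 (.cons (.leaf 0x600602014020500200a02002fff99100066e00066e00066e00066e000b95400) .nil)) .nil)) (.cons (.split 8 2 5 1 0x4006020140200c0200afff89100076e00076e00076e00076e000b95302 0 (.cons (.split 8 9 1 1 0x4006020140200a02002fff99100066e00066e00066e00066e000b95302 0 (.cons (.leaf 0x600602014020500200a02002fff99100066e00066e00066e00066e000b95400) .nil)) .nil)) c22_18_48))))))
noncomputable def c22_18_50 : Cert := (.split 13 0 0 2 0 0 (.cons (.split 13 2 0 1 0 0x4006020140200c0100a02002ffcb9100346e00346e00346e00347e003fff401 (.cons (.split 13 4 0 1 0 0x4006020140200c0200a02002ffcb9100346e00346e00346e00347e003b95402 (.cons (.split 13 9 0 2 0 0 (.cons (.split 13 12 2 1 0x3006020140200c0100a02002ffcb9100346e00346e00346e00347e003fff402 0 (.cons (.split 13 7 2 2 0x10060100affdb9500246a00246a00246a00246a00246a101 0 (.cons (.leaf 0x205a030060100a02002ffcb110034ee0034ee0034ee0034ee007fff200) (.cons (.leaf 0x305a03006010140200c0100a01002ffcb110034ee0034ee0034ee0034fe003fef400) .nil)))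 .nil)) (.cons (.leaf 0x1006ffffff000000000000000000000000000000000) .nil))) .nil)) .nil)) (.cons (.leaf 0x1006ffffff000000000000000000000000000000000) .nil)))
noncomputable def c22_18_51 : Cert := (.split 12 8 0 2 0 0 (.cons (.split 12 11 3 1 0x10060100c0100a01002ffeb9500146a00146a00146a00146a00147b301 0 (.cons (.leaf 0x205805006020140300a04002ffe391001c6e001c6e001c6e000814001fff300) .nil)) (.cons (.split 12 4 0 2 0 0x10060100c0100a01002fffb9500046a00046a00046a00046a00047b301 (.cons (.split 12 7 2 1 0x10060100affeb9500146a00146a00146a00146a00146a101 0 (.cons (.split 12 11 3 1 0x10060100affeb9500146a00146a00146a00146a00146a101 0 (.cons (.leaf 0x20180200c0100affe215001dea001dea001dea001dea001fff200) .nil)) .nil)) (.cons (.split 12 11 2 2 0x40060200a02002ffeb9100146e00146e00146e00146e002315202 0 (.cons (.split 12 7 2 1 0x40060200a02002ffab9100546e00546e00546e00546e006315202 0 (.cons (.leaf 0x2018030060100c0100a01002ffe311001cee001cee001cee001cee007eff300) .nil)) (.cons (.leaf 0x205807006020140300c0100a01002ffe391001c6e001c6e001c6e003c7a003eff400) .nil)))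 .nil))) .nil)))
noncomputable def c22_18_52 : Cert := (.cons (.split 10 7 4 1 0x10060100afffb9500046a00046a00046a00046a00046a101 0x10060100affff9500006a00006a00006a00006a00046a101 (.cons (.leaf 0x4006020140200a02002ffeb9100146e00146e00146e00146e001b95300) .nil)) (.cons (.split 10 7 3 1 0x10060100afffb9500046a00046a00046a00046a00046a101 0x10060100affff9500006a00006a00006a00006a00046a101 (.cons (.cbot 2 2 (.cons c22_18_50 .nil)) .nil)) (.cons (.split 10 7 2 1 0x10060100afffb9500046a00046a00046a00046a00046a101 0x10060100affff9500006a00006a00006a00006a00046a101 (.cons (.cbot 2 2 (.cons (.split 12 0 0 2 0 0 (.cons (.split 12 2 0 1 0 0x20060100afffb9500046a00046a00046a00046a00046a101 (.cons (.split 12 9 0 2 0 0 (.cons c22_18_51 (.cons (.leaf 0x1006ffffff000000000000000000000000000000000) .nil))) .nil)) (.cons (.leaf 0x1006ffffff000000000000000000000000000000000) .nil))) .nil)) .nil)) .nil)))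
noncomputable def c22_18_53 : Cert := (.cons (.split 8 4 0 2 0 0 (.cons (.split 8 7 0 1 0 0x401604006020140200a02002fff311000cee000cee000cee000cee003395302 (.cons (.split 8 9 0 2 0 0 (.cons (.leaf 0x4006020140200a02002fff191000e6e000e6e000e6e000e6e003395300) (.cons (.split 8 2 2 1 0x10160100601002010140100c0100afff295000d6a000d6a000d6a000d6a000d6a301 0x10160100c01006010140100a01002fff395000c6a000c6a000c6a000c6a000d6a301 (.cons (.leaf 0x10160100c0200601014010500100a01002fff295000d6a000d6a000d6a000d6a000d6a400) .nil)) .nil))) .nil)) (.cons (.leaf 0x401604006020140200a02002fff311000cee000cee000cee000cee003395300) .nil))) (.cons (.split 8 2 2 1 0x301603006010140200c0100afff211000dee000dee000dee000dee003fff302 0x20160100c0200602014010500200a01002fff295000d6a000d6a000d6a000d6a000100402 (.cons (.leaf 0x30160400601014010500100c0100a01002ffb211004dee004dee004dee004dee007eff500) .nil)) (.cons (.leaf 0x30160300601014010500100c0100a01002fff211000dee000dee000dee000dee003eff500) (.cons (.leaf 0x30160300601014010500100c0100a01002fff211000dee000dee000dee000dee003eff500)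 (.cons (.leaf 0x30160300601014010500100c0100a01002fff211000dee000dee000dee000dee003eff500) (.cons (.leaf 0x30160300601014010500100c0100a01002fff211000dee000dee000dee000dee003eff500) (.cons (.leaf 0x40160700602014020500200c0200a03002fff211000dee000dee000dee003dff000280500) (.cons (.leaf 0x40160700602014020500200c0200a03002fff211000dee000dee000dee003dff000280500) .nil))))))))
noncomputable def c22_18_54 : Cert := (.cons (.split 8 4 0 2 0 0 (.cons (.split 8 7 0 1 0 0x401604006020140200a02002fff311000cee000cee000cee000cee003395302 (.cons (.split 8 9 0 2 0 0 (.cons (.leaf 0x4006020140200a02002fff191000e6e000e6e000e6e000e6e003395300) (.cons (.split 8 2 2 1 0x10160100601002010140100c0100afff295000d6a000d6a000d6a000d6a000d6a301 0x10160100c01006010140100a01002fff395000c6a000c6a000c6a000c6a000d6a301 (.cons (.leaf 0x10160100c0200601014010500100a01002fff295000d6a000d6a000d6a000d6a000d6a400) .nil)) .nil))) .nil)) (.cons (.leaf 0x401604006020140200a02002fff311000cee000cee000cee000cee003395300) .nil))) c22_18_53)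
noncomputable def c22_18_55 : Cert := (.split 8 4 0 2 0 0 (.cons (.split 8 7 0 1 0 0x401604006020140200a02002fff311000cee000cee000cee000cee003395302 (.cons (.split 8 9 0 2 0 0 (.cons (.leaf 0x4006020140200a02002fff191000e6e000e6e000e6e000e6e003395300) (.cons (.split 8 13 0 2 0 0 (.cons (.leaf 0x101601006010140100afff395000c6a000c6a000c6a000c6a000c6a200) (.cons (.split 8 2 2 1 0x10160100601002010140100c0100afff295000d6a000d6a000d6a000d6a000d6a301 0x10160100c01006010140100a01002fff395000c6a000c6a000c6a000c6a000d6a301 (.cons (.leaf 0x30160300601014030500100c0100a01002ffb215004dea004dea004cea006dea005eff500) .nil)) .nil))) .nil))) .nil)) (.cons (.leaf 0x401604006020140200a02002fff311000cee000cee000cee000cee003395300) .nil)))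
noncomputable def c22_18_56 : Cert := (.split 8 4 0 2 0 0 (.cons (.split 8 7 0 1 0 0x401604006020140200a02002fff311000cee000cee000cee000cee003395302 (.cons (.split 8 9 0 2 0 0 (.cons (.leaf 0x4006020140200a02002fff191000e6e000e6e000e6e000e6e003395300) (.cons (.split 8 13 0 2 0 0 (.cons (.leaf 0x101601006010140100afff395000c6a000c6a000c6a000c6a000c6a200) (.cons (.split 8 2 2 1 0x10160100601002010140100c0100afff295000d6a000d6a000d6a000d6a000d6a301 0x10160100c01006010140100a01002fff395000c6a000c6a000c6a000c6a000d6a301 (.cons (.leaf 0x2115030160500601014030500100c0100a01002ffb211004dee004dee004cee006dee005fff500) .nil)) .nil))) .nil))) .nil)) (.cons (.leaf 0x401604006020140200a02002fff311000cee000cee000cee000cee003395300) .nil)))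
noncomputable def c22_18_57 : Cert := (.split 8 4 0 2 0 0 (.cons (.split 8 7 0 1 0 0x401604006020140200a02002fff311000cee000cee000cee000cee003395302 (.cons (.split 8 9 0 2 0 0 (.cons (.leaf 0x4006020140200a02002fff191000e6e000e6e000e6e000e6e003395300) (.cons (.split 8 13 0 2 0 0 (.cons (.leaf 0x101601006010140100afff395000c6a000c6a000c6a000c6a000c6a200) (.cons (.split 8 2 2 1 0x10160100601002010140100c0100afff295000d6a000d6a000d6a000d6a000d6a301 0x10160100c01006010140100a01002fff395000c6a000c6a000c6a000c6a000d6a301 (.cons (.leaf 0x2115030160500601014020500100c0100a01002ffb211004dee004dee004dee004cee007eff500) .nil)) .nil))) .nil))) .nil)) (.cons (.leaf 0x401604006020140200a02002fff311000cee000cee000cee000cee003395300) .nil)))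
noncomputable def c22_18_58 : Cert := (.split 11 8 0 2 0 0 (.cons (.leaf 0xfff7ff000800000800000800000800000800000) (.cons (.cbot 8 19 (.cons (.tc 2) (.cons (.tc 2) (.cons (.tc 2) (.cons (.tc 2) (.cons c22_18_57 (.cons c22_18_56 (.cons c22_18_55 c22_18_54)))))))) .nil)))
noncomputable def c22_18_59 : Cert := (.split 11 0 0 2 0 0 (.cons (.split 11 2 0 1 0 0x4006020140100a02002fff191000e6e000e6e000e6e000e6e000fff301 (.cons (.split 11 9 0 2 0 0 (.cons (.split 11 4 0 2 0 0x211502014030060200c0100afffa110005ee0005ee0005ee0005ee000fff202 (.cons (.leaf 0x1595010060100afff395000c6a000c6a000c6a000c6a000c6a100) (.cons (.split 11 7 4 2 0x10060100afff395000c6a000c6a000c6a000c6a000c6a101 0 (.cons c22_18_58 (.cons (.leaf 0x40560500601056010140100a04002fff311000cee000cee000cee001dff000eea400) .nil))) .nil))) (.cons (.leaf 0x1006ffffff000000000000000000000000000000000) .nil))) .nil)) (.cons (.leaf 0x1006ffffff000000000000000000000000000000000) .nil)))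
noncomputable def c22_18_60 : Cert := (.split 10 4 0 5 0 0 (.cons (.split 10 7 5 1 0x10060100afffb9500046a00046a00046a00046a00046a101 0 (.cons (.cbot 2 2 (.cons c22_18_59 .nil)) .nil)) (.cons (.split 10 7 4 1 0x10060100afffb9500046a00046a00046a00046a00046a101 0x10060100affff9500006a00006a00006a00006a00046a101 (.cons (.leaf 0x4006020140200a02002ffeb9100146e00146e00146e00146e001b95300) .nil)) (.cons (.split 10 7 3 1 0x10060100afffb9500046a00046a00046a00046a00046a101 0x10060100affff9500006a00006a00006a00006a00046a101 (.cons (.leaf 0x4006020140200c0200a02002ffeb9100146e00146e00146e00147e001b95400) .nil)) (.cons (.split 10 7 2 1 0x10060100afffb9500046a00046a00046a00046a00046a101 0x10060100affff9500006a00006a00006a00006a00046a101 (.cons (.leaf 0x4006020140200c0200a02002ffeb9100146e00146e00146e00147e001b95400) .nil)) (.cons (.split 10 7 1 1 0x40060200a02002fffb9100046e00046e00046e00046e000315202 0x40060200a02002ffff9100006e00006e00006e00046e000315202 (.cons (.leaf 0x3006010140100a01002fffb9100046e00046e00046e00046e00057e300) .nil)) .nil))))))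
noncomputable def c22_18_61 : Cert := (.split 10 8 0 2 0 0 (.cons (.split 10 4 0 5 0 0 (.cons (.leaf 0xfffbff000400000400000400000400000400000) (.cons (.split 10 7 5 1 0x10060100afffb9500046a00046a00046a00046a00046a101 0 (.cons (.cbot 8 19 (.cons (.tc 2) (.cons (.tc 2) (.cons (.tc 2) (.cons (.tc 2) c22_18_49))))) .nil)) c22_18_52))) (.cons c22_18_60 .nil)))
noncomputable def c22_18_62 : Cert := (.cons (.split 10 0 0 2 0 0 (.cons (.split 10 2 0 1 0 0x20060100affff9500006a00006a00006a00006a00006a101 (.cons (.split 10 9 0 2 0 0 (.cons (.split 10 8 0 2 0 0 (.cons c22_18_46 (.cons c22_18_45 .nil))) (.cons (.leaf 0x1006ffffff000000000000000000000000000000000) .nil))) .nil)) (.cons (.leaf 0x1006ffffff000000000000000000000000000000000) .nil))) (.cons (.split 10 0 0 2 0 0 (.cons (.split 10 2 0 1 0 0x20060100affff9500006a00006a00006a00006a00006a101 (.cons (.split 10 9 0 2 0 0 (.cons c22_18_61 (.cons (.leaf 0x1006ffffff000000000000000000000000000000000) .nil))) .nil)) (.cons (.leaf 0x1006ffffff000000000000000000000000000000000) .nil))) .nil))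
noncomputable def c22_18_63 : Cert := (.cons (.split 10 0 0 2 0 0 (.cons (.split 10 2 0 1 0 0x20060100affff9500006a00006a00006a00006a00006a101 (.cons (.split 10 9 0 2 0 0 (.cons (.split 10 8 0 2 0 0 (.cons c22_18_40 (.cons c22_18_39 .nil))) (.cons (.leaf 0x1006ffffff000000000000000000000000000000000) .nil))) .nil)) (.cons (.leaf 0x1006ffffff000000000000000000000000000000000) .nil))) (.cons (.split 10 0 0 2 0 0 (.cons (.split 10 2 0 1 0 0x20060100affff9500006a00006a00006a00006a00006a101 (.cons (.split 10 9 0 2 0 0 (.cons (.split 10 8 0 2 0 0 (.cons c22_18_43 (.cons c22_18_42 .nil))) (.cons (.leaf 0x1006ffffff000000000000000000000000000000000) .nil))) .nil)) (.cons (.leaf 0x1006ffffff000000000000000000000000000000000) .nil))) c22_18_62))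
noncomputable def c22_18_64 : Cert := (.cons (.split 10 0 0 2 0 0 (.cons (.split 10 2 0 1 0 0x20060100affff9500006a00006a00006a00006a00006a101 (.cons (.split 10 9 0 2 0 0 (.cons (.split 10 8 0 2 0 0 (.cons c22_18_36 (.cons c22_18_35 .nil))) (.cons (.leaf 0x1006ffffff000000000000000000000000000000000) .nil))) .nil)) (.cons (.leaf 0x1006ffffff000000000000000000000000000000000) .nil))) (.cons (.split 10 0 0 2 0 0 (.cons (.split 10 2 0 1 0 0x20060100affff9500006a00006a00006a00006a00006a101 (.cons (.split 10 9 0 2 0 0 (.cons (.split 10 8 0 2 0 0 (.cons c22_18_38 (.cons c22_18_37 .nil))) (.cons (.leaf 0x1006ffffff000000000000000000000000000000000) .nil))) .nil)) (.cons (.leaf 0x1006ffffff000000000000000000000000000000000) .nil))) c22_18_63))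
noncomputable def c22_18_65 : Cert := (.cons (.split 10 0 0 2 0 0 (.cons (.split 10 2 0 1 0 0x20060100affff9500006a00006a00006a00006a00006a101 (.cons (.split 10 9 0 2 0 0 (.cons c22_18_32 c22_18_31)) .nil)) (.cons (.leaf 0x1006ffffff000000000000000000000000000000000) .nil))) (.cons (.split 10 0 0 2 0 0 (.cons (.split 10 2 0 1 0 0x20060100affff9500006a00006a00006a00006a00006a101 (.cons (.split 10 9 0 2 0 0 (.cons c22_18_34 (.cons (.leaf 0x1006ffffff000000000000000000000000000000000) .nil))) .nil)) (.cons (.leaf 0x1006ffffff000000000000000000000000000000000) .nil))) c22_18_64))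
noncomputable def c22_18_66 : Cert := (.ctop 2 7 (.cons (.leaf 0x4006010540200afffb9500046a00046a00046a00046a000000200) (.cons (.leaf 0x4006010540200afffb9500046a00046a00046a00046a000000200) (.cons (.leaf 0x4006010540200afffb9500046a00046a00046a00046a000000200) (.cons (.leaf 0x4006010540200afffb9500046a00046a00046a00046a000000200) (.cons (.split 10 0 0 2 0 0 (.cons (.split 10 2 0 1 0 0x20060100affff9500006a00006a00006a00006a00006a101 (.cons (.split 10 9 0 2 0 0 (.cons c22_18_30 (.cons (.leaf 0x1006ffffff000000000000000000000000000000000) .nil))) .nil)) (.cons (.leaf 0x1006ffffff000000000000000000000000000000000) .nil))) c22_18_65))))))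
noncomputable def c22_18_67 : Cert := (.split 5 7 0 5 0 0x200602002ffffb100004e00004e00004e00004e00037f101 (.cons (.split 5 2 6 1 0xffff9500006a00006a00006a00006a00006a001 0 (.cons c22_18_66 .nil)) (.cons (.split 5 2 5 1 0xffff9500006a00006a00006a00006a00006a001 0xffffb500004a00004a00004a00004a00006a001 (.cons (.leaf 0x200a020060100c01002fff7110008ee0008ee0008ee0008ee000aff200) .nil)) (.cons (.split 5 2 4 1 0xffff9500006a00006a00006a00006a00006a001 0xffffb500004a00004a00004a00004a00006a001 (.cons (.leaf 0x200a020060100c01002fff7110008ee0008ee0008ee0008ee000bff200) .nil)) (.cons (.split 5 2 3 1 0xffff9500006a00006a00006a00006a00006a001 0xffffb500004a00004a00004a00004a00006a001 (.cons (.leaf 0x200a020060100c01002fff7110008ee0008ee0008ee0008ee000fff200) .nil)) (.cons (.leaf 0x204a0200602002ffff310000ce0000ce0000ce0000ce0007ff100) .nil))))))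
noncomputable def c22_18_68 : Cert := (.cons (.split 10 4 3 1 0x1203020060201002002fffeb500014a00014a00014a00014a000000201 0 (.cons (.leaf 0x2054040060401004002fffeb500014a00014a00014a000000000010200) .nil)) (.cons (.split 10 4 3 1 0x1203020060201002002fffeb500014a00014a00014a00014a000000201 0 (.cons (.leaf 0x120d01054030060301003002fffeb500014a00014a00014a00000000014a200) .nil)) (.cons (.split 10 0 0 2 0 0 (.cons (.leaf 0x1203020060201002002fffeb500014a00014a00014a00014a000000200) (.cons (.split 10 4 3 1 0x1203020060201002002fffeb500014a00014a00014a00014a000001201 0 (.cons (.leaf 0x1054010060101001002fffeb500014a00014a00014a00014a00014a200) .nil)) .nil))) (.cons (.split 10 0 0 2 0 0 (.cons (.leaf 0x1203020060201002002fffeb500014a00014a00014a00014a000000200) (.cons (.split 10 4 3 1 0x1203020060201002002fffeb500014a00014a00014a00014a000001201 0 (.cons (.leaf 0x1054010060101001002fffeb500014a00014a00014a00014a00014a200) .nil)) .nil))) (.cons (.split 10 0 0 2 0 0 (.cons (.leaf 0x1203020060201002002fffeb500014a00014a00014a00014a000000200) (.cons (.split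 10 4 3 1 0x1203020060201002002fffeb500014a00014a00014a00014a000001201 0 (.cons (.leaf 0x120d02054040060401004002fffeb500014a00014a00014a000000000001200) .nil)) .nil))) .nil)))))
noncomputable def c22_18_69 : Cert := (.cbot 4 16 (.cons (.leaf 0x1054010060101001002fffeb500014a00014a00014a00014a00014a200) (.cons (.leaf 0x1054010060101001002fffeb500014a00014a00014a00014a00014a200) (.cons (.leaf 0x1054010060101001002fffeb500014a00014a00014a00014a00014a200) (.cons (.leaf 0x1054020060201002002fffeb500014a00014a00014a00014a000000200) (.cons (.leaf 0x1054020060201002002fffeb500014a00014a00014a00014a000000200) (.cons (.leaf 0x1054020060201002002fffeb500014a00014a00014a00014a000000200) (.cons (.leaf 0x220301054040060401004002fffeb500014a00014a00014a000000000000200) (.cons (.leaf 0x220301054040060401004002fffeb500014a00014a00014a000001000000200) (.cons (.leaf 0x220301054040060401004002fffeb500014a00014a00014a000001000000200) (.cons (.split 10 4 3 1 0x1203020060201002002fffeb500014a00014a00014a00014a000000201 0 (.cons (.leaf 0x1054010060101001002fffeb500014a00014a00014a00014a00014a200)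 .nil)) c22_18_68)))))))))))
noncomputable def c22_18_70 : Cert := (.split 8 2 2 5 0x200602002fffeb100014e00014e00014e00014e00015f102 0 (.cons (.split 8 7 4 1 0x200602002fffab100054e00054e00054e00054e00055e101 0x200602002fffbb100044e00044e00044e00044e00055e101 (.cons (.leaf 0x2010020060200cfffa310005ce0005ce0005ce0005ce000fff100) .nil)) (.cons (.split 8 7 3 1 0xfffeb500014a00014a00014a00014a00014a001 0xffffb500004a00004a00004a00004a00014a001 (.cons (.leaf 0x2010020060200cfffa310005ce0005ce0005ce0005ce000fff100) .nil)) (.cons (.split 8 7 2 1 0xfffeb500014a00014a00014a00014a00014a001 0xffffb500004a00004a00004a00004a00014a001 (.cons (.leaf 0x2010020060200cfffa310005ce0005ce0005ce0005ce0007ff100) .nil)) (.cons (.split 8 7 1 1 0xfffeb500014a00014a00014a00014a00014a001 0xffffb500004a00004a00004a00004a00014a001 (.cons (.leaf 0x2010020060100c01002fffa310005ce0005ce0005ce0005ce0007df200) .nil)) (.cons (.split 8 7 0 1 0 0xffffb500004a00004a00004a00004a00014a001 (.cons c22_18_69 .nil)) .nil))))))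
noncomputable def c22_18_71 : Cert := (.split 8 0 0 3 0 0 (.cons (.leaf 0x100c01002ffffb500004a00004a00004a00004a00004a100) (.cons (.split 8 5 0 2 0 0 (.cons c22_18_70 (.cons (.split 8 2 2 4 0x200602002ffffb100004e00004e00004e00004e00005f101 0xffffb500004a00004a00004a00004a00014a001 (.cons (.leaf 0x10500200602002fffbb100044e00044e00044e00044e00045e100) (.cons (.leaf 0x10500200602002fffbb100044e00044e00044e00044e00045e100) (.cons (.leaf 0x10500200602002fffbb100044e00044e00044e00044e00045f100) (.cons (.leaf 0x20500100c0200603002fffb9100046e00046e00046e00046e00047f100) .nil))))) .nil))) (.cons (.leaf 0x1010ffffff000000000000000000000000000000000) .nil))))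
noncomputable def c22_18_72 : Cert := (.split 5 8 0 2 0 0 (.cons (.split 5 0 0 3 0 0 (.cons (.split 5 4 0 2 0 0x104affffb500004a00004a00004a00004a00004a001 (.cons c22_18_29 (.cons c22_18_28 .nil))) (.cons (.split 5 4 0 1 0 0x104affffb500004a00004a00004a00004a00004a001 (.cons c22_18_67 .nil)) (.cons (.leaf 0x100affffff000000000000000000000000000000000) .nil)))) (.cons (.split 5 2 3 4 0x40060100c03002ffffb100004e00004e00004e00015e000001202 0 (.cons (.leaf 0x204a040060300c01002fffdb100024e00024e00024e00025e000001200) (.cons (.leaf 0x204a040060300c01002fffdb100024e00024e00024e00025e000001200) (.cons (.leaf 0x204a040060300c01002fffdb100024e00024e00024e00025e000001200) (.cons (.leaf 0x204a020060200c0104affffb100004e00004e00004e00004e00005e200) .nil))))) .nil)))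
noncomputable def c22_18_73 : Cert := (.bot 1 (.cons (.leaf 0x2052020060200c02002fffdb100024e00024e00024e00024e00037f200) (.cons (.split 9 0 0 1 0 0x1006ffffb500004a00004a00004a00004a00004a001 (.cons (.split 9 2 0 1 0 0x1006ffffb500004a00004a00004a00004a00004a001 (.cons (.split 9 5 0 2 0 0 (.cons c22_18_12 c22_18_11)) .nil)) .nil)) (.cons (.leaf 0x1052020060100c01002ffffb500004a00004a00004a00004a00005a200) (.cons c22_18_72 (.cons (.ref 1) (.cons (.split 8 4 0 1 0 0x1203030500200602002ffffb500004a00004a00004a00004a000000102 (.cons c22_18_71 .nil)) .nil)))))))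
noncomputable def c22_18_74 : Cert := (.split 6 5 0 6 0 0xfffff500000a00000a00000a00000a00004a001 (.cons (.leaf 0x1303ffffb500004a00004a00004a00004a00004a000) (.cons (.split 6 4 4 2 0xffffb500004a00004a00004a00004a00004a001 0 (.cons c22_18_73 (.cons (.leaf 0xffffff000000000000000000000000000040000) .nil))) (.cons (.split 6 4 3 1 0xffffb500004a00004a00004a00004a00004a001 0xfffff500000a00000a00000a00000a00004a001 (.cons (.leaf 0x20060200c02002ffffb100004e00004e00004e00004e00017f200) .nil)) (.cons (.leaf 0x20060204c02002fffff100000e00000e00000e00000e000075200) (.cons (.leaf 0x20060204c02002fffff100000e00000e00000e00000e000075200) (.cons (.leaf 0x20060204c02002ffff7100008e00008e00008e00008e0000f5200) .nil)))))))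
noncomputable def c22_18_75 : Cert := (.split 6 2 0 6 0 0xfffff500000a00000a00000a00000a00004a001 (.cons c22_18_74 (.cons (.ref 2) (.cons (.split 6 4 3 1 0x10060104cffffb500004a00004a00004a00004a00004a101 0xfffff500000a00000a00000a00000a00004a001 (.cons (.leaf 0x10060104c01002ffffb500004a00004a00004a00004a00005b200) .nil)) (.cons (.leaf 0x10060104cfffff500000a00000a00000a00000a00000a100) (.cons (.leaf 0x10060104cfffff500000a00000a00000a00000a00000a100) (.cons (.leaf 0x10060104cfffff500000a00000a00000a00000a00000a100) .nil)))))))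

theorem r22_18 : chkF [s22_1, s22_2, s22_17] c22_18_75 s22_18 = true := by decide +kernel

end Pool.Agent.K3
end
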