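import Pool.Agent.Lib.MP_c11f22_co.Mg.G002
import Pool.Agent.Lib.MP_c11f22_co.Mg.G001

section

/-!
# Packed vectors and matrices: digits in base `2 ^ 32`
-/

set_option autoImplicit false

namespace Pool.Agent.K3

open Finset

/-- the number with the digits `f` in base `2 ^ b` -/
def encb (b N : ℕ) (f : ℕ → ℕ) : ℕ := ∑ k ∈ range N, f k * 2 ^ (b * k)

/-- digit `t` of `x` in base `2 ^ b` -/
def dgb (b x t : ℕ) : ℕ := x / 2 ^ (b * t) % 2 ^ b

theorem encb_succ (b N : ℕ) (f : ℕ → ℕ) :
    encb b (N + 1) f = f 0 + 2 ^ b * encb b N (fun k => f (k + 1)) := by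
  unfold encb
  rw [sum_range_succ', mul_sum, Nat.mul_zero, pow_zero, mul_one, add_comm]
  congr 1
  refine sum_congr rfl fun k _ => ?_
  rw [show b * (k + 1) = b + b * k by ring, pow_add]
  ring

theorem dgb_encb {b N : ℕ} {f : ℕ → ℕ} (hf : ∀ k < N, f k < 2 ^ b) (t : ℕ) :
    dgb b (encb b N f) t = if t < N then f t else 0 := by
  induction N generalizing f t with
  | zero => simp [encb, dgb]
  | succ N ih =>
    have h0 : f 0 < 2 ^ b := hf 0 (Nat.succ_pos _)
    rw [encb_succ]
    cases t with
    | zero =>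
      simp [dgb, Nat.add_mul_mod_self_left, Nat.mod_eq_of_lt h0]
    | succ t =>
      have e : dgb b (f 0 + 2 ^ b * encb b N (fun k => f (k + 1))) (t + 1) =
          dgb b (encb b N (fun k => f (k + 1))) t := by
        unfold dgb
        rw [show b * (t + 1) = b + b * t by ring, pow_add, ← Nat.div_div_eq_div_mul,
          Nat.add_mul_div_left _ _ (by positivity), Nat.div_eq_of_lt h0, zero_add]
      rw [e, ih (fun k hk => hf (k + 1) (by omega))]
      simp

theorem encb_lt {b N : ℕ} {f : ℕ → ℕ} (hf : ∀ k < N, f k < 2 ^ b) : encb b N f < 2 ^ (b * N) := by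
  induction N generalizing f with
  | zero => simp [encb]
  | succ N ih =>
    have h0 : f 0 < 2 ^ b := hf 0 (Nat.succ_pos _)
    have h1 := ih (f := fun k => f (k + 1)) (fun k hk => hf (k + 1) (by omega))
    rw [encb_succ, show b * (N + 1) = b + b * N by ring, pow_add]
    calc f 0 + 2 ^ b * encb b N (fun k => f (k + 1))
        < 2 ^ b + 2 ^ b * encb b N (fun k => f (k + 1)) := by omega
      _ = 2 ^ b * (encb b N (fun k => f (k + 1)) + 1) := by ring
      _ ≤ 2 ^ b * 2 ^ (b * N) := Nat.mul_le_mul_left _ h1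

theorem dgb_testBit (b x t r : ℕ) :
    (dgb b x t).testBit r = (decide (r < b) && x.testBit (b * t + r)) := by
  unfold dgb
  rw [Nat.testBit_mod_two_pow, Nat.testBit_div_two_pow, add_comm r]

theorem dgb_ext {b x y : ℕ} (hb : 0 < b) (h : ∀ t, dgb b x t = dgb b y t) : x = y := by
  apply Nat.eq_of_testBit_eq
  intro m
  have h1 := congrArg (fun z => z.testBit (m % b)) (h (m / b))
  simp only [dgb_testBit, Nat.mod_lt _ hb, decide_true, Bool.true_and, Nat.div_add_mod] at h1
  exact h1

theorem dgb_and (b x y t : ℕ) : dgb b (x &&& y) t = dgb b x t &&& dgb b y t := by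
  apply Nat.eq_of_testBit_eq
  intro m
  rw [Nat.testBit_land, dgb_testBit, dgb_testBit, dgb_testBit, Nat.testBit_land]
  cases decide (m < b) <;> simp

theorem dgb_or (b x y t : ℕ) : dgb b (x ||| y) t = dgb b x t ||| dgb b y t := by
  apply Nat.eq_of_testBit_eq
  intro m
  rw [Nat.testBit_lor, dgb_testBit, dgb_testBit, dgb_testBit, Nat.testBit_lor]
  cases decide (m < b) <;> simp

theorem dgb_lt (b x t : ℕ) : dgb b x t < 2 ^ b := Nat.mod_lt _ (by positivity)

theorem dgb_shiftRight (b x m t : ℕ) : dgb b (x >>> (b * m)) t = dgb b x (m + t) := by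
  apply Nat.eq_of_testBit_eq
  intro r
  rw [dgb_testBit, dgb_testBit, Nat.testBit_shiftRight]
  congr 2
  ring

/-- digits of a sum of terms at given positions -/
theorem dgb_sum {ι : Type*} {b : ℕ} (S : Finset ι) (w pos : ι → ℕ)
    (hw : ∀ t, ∑ p ∈ S.filter (fun p => pos p = t), w p < 2 ^ b) (t : ℕ) :
    dgb b (∑ p ∈ S, w p * 2 ^ (b * pos p)) t = ∑ p ∈ S.filter (fun p => pos p = t), w p := by
  classical
  have hmap : ∀ p ∈ S, pos p ∈ range (S.sup pos + 1) := fun p hp =>
    mem_range.2 (Nat.lt_succ_of_le (le_sup (f := pos) hp))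
  have e : ∑ p ∈ S, w p * 2 ^ (b * pos p) =
      encb b (S.sup pos + 1) (fun t => ∑ p ∈ S.filter (fun p => pos p = t), w p) := by
    rw [← sum_fiberwise_of_maps_to hmap]
    unfold encb
    refine sum_congr rfl fun t _ => ?_
    rw [sum_mul]
    refine sum_congr rfl fun p hp => ?_
    rw [(mem_filter.1 hp).2]
  rw [e, dgb_encb (fun k _ => hw k)]
  split_ifs with h
  · rfl
  · symm
    apply sum_eq_zero
    intro p hp
    have h1 := mem_filter.1 hp
    have h2 := mem_range.1 (hmap p h1.1)
    omega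

theorem dgb_sum' {ι : Type*} {b : ℕ} (S : Finset ι) (w pos : ι → ℕ)
    (hw : ∑ p ∈ S, w p < 2 ^ b) (t : ℕ) :
    dgb b (∑ p ∈ S, w p * 2 ^ (b * pos p)) t = ∑ p ∈ S.filter (fun p => pos p = t), w p :=
  dgb_sum S w pos (fun _ => lt_of_le_of_lt (sum_le_sum_of_subset (filter_subset _ _)) hw) t

theorem and_BM {a : ℕ} (h : a < 2 ^ 32) : a &&& 4294967295 = a := by
  have e : (4294967295 : ℕ) = 2 ^ 32 - 1 := by norm_num
  rw [e, Nat.and_two_pow_sub_one_eq_mod, Nat.mod_eq_of_lt h]

/-- multiplication and masking moves the digits of a vector -/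
theorem mulmask {c tgt f : ℕ → ℕ} (hf : 24 * ∑ j ∈ range 24, f j < 2 ^ 32)
    (huniq : ∀ i < 24, ∀ a < 24, ∀ b < 24, a + c b = tgt i → a = i ∧ b = i)
    (hself : ∀ i < 24, i + c i = tgt i) (hinj : ∀ i < 24, ∀ j < 24, tgt i = tgt j → i = j) :
    (encb 32 24 f * ∑ j ∈ range 24, 2 ^ (32 * c j)) &&& (∑ i ∈ range 24, 4294967295 * 2 ^ (32 * tgt i)) =
      ∑ i ∈ range 24, f i * 2 ^ (32 * tgt i) := by
  classical
  have hfi : ∀ i < 24, f i < 2 ^ 32 := by
    intro i hi
    have h1 : f i ≤ ∑ j ∈ range 24, f j := single_le_sum (f := f) (fun _ _ => Nat.zero_le _) (mem_range.2 hi)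
    omega
  have e1 : encb 32 24 f * ∑ j ∈ range 24, 2 ^ (32 * c j) =
      ∑ p ∈ range 24 ×ˢ range 24, f p.1 * 2 ^ (32 * (p.1 + c p.2)) := by
    unfold encb
    rw [sum_mul_sum, sum_product]
    refine sum_congr rfl fun i _ => sum_congr rfl fun j _ => ?_
    rw [mul_add, pow_add]
    ring
  have hs : ∑ p ∈ range 24 ×ˢ range 24, f p.1 < 2 ^ 32 := by
    rw [sum_product]
    simp only [sum_const, card_range, smul_eq_mul]
    rw [← mul_sum]
    exact hf
  have hfib : ∀ t, ∀ g : ℕ → ℕ, (∑ i ∈ (range 24).filter (fun i => tgt i = t), g i) =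
      if h : ∃ i < 24, tgt i = t then g h.choose else 0 := by
    intro t g
    split_ifs with h
    · have h1 := h.choose_spec
      rw [sum_eq_single_of_mem h.choose (mem_filter.2 ⟨mem_range.2 h1.1, h1.2⟩)]
      intro j hj hne
      exact absurd (hinj _ (mem_range.1 (mem_filter.1 hj).1) _ h1.1 ((mem_filter.1 hj).2.trans h1.2.symm)) hne
    · apply sum_eq_zero
      intro i hi
      exact absurd ⟨i, mem_range.1 (mem_filter.1 hi).1, (mem_filter.1 hi).2⟩ h
  apply dgb_ext (b := 32) (by norm_num)
  intro t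
  have hb2 : ∀ t, ∑ p ∈ (range 24).filter (fun i => tgt i = t), 4294967295 < 2 ^ 32 := by
    intro t
    rw [hfib t (fun _ => 4294967295)]
    split_ifs <;> norm_num
  have hb3 : ∀ t, ∑ i ∈ (range 24).filter (fun i => tgt i = t), f i < 2 ^ 32 := by
    intro t
    rw [hfib t f]
    split_ifs with h
    · exact hfi _ h.choose_spec.1
    · norm_num
  rw [dgb_and, e1, dgb_sum' _ (fun p : ℕ × ℕ => f p.1) (fun p => p.1 + c p.2) hs,
    dgb_sum _ (fun _ => 4294967295) tgt hb2, dgb_sum _ f tgt hb3, hfib, hfib]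
  split_ifs with h
  · obtain ⟨h1, h2⟩ := h.choose_spec
    generalize h.choose = i at h1 h2
    have e2 : (range 24 ×ˢ range 24).filter (fun p : ℕ × ℕ => p.1 + c p.2 = t) = {(i, i)} := by
      ext ⟨a, b⟩
      simp only [mem_filter, mem_product, mem_range, mem_singleton, Prod.mk.injEq]
      constructor
      · rintro ⟨⟨ha, hb⟩, hab⟩
        exact huniq i h1 a ha b hb (by rw [hab, h2])
      · rintro ⟨rfl, rfl⟩
        exact ⟨⟨h1, h1⟩, by rw [hself _ h1, h2]⟩
    rw [e2, sum_singleton, and_BM (hfi i h1)]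
  · simp

end Pool.Agent.K3
end

section

/-!
# Packed matrices
-/

set_option autoImplicit false

namespace Pool.Agent.K3

open Finset

/-- the number with the matrix `w` -/
def encM (w : ℕ → ℕ → ℕ) : ℕ := ∑ i ∈ range 24, ∑ j ∈ range 24, w i j * 2 ^ (32 * (24 * i + j))

theorem sum_range_mul' (g : ℕ → ℕ) (m n : ℕ) :
    ∑ k ∈ range (m * n), g k = ∑ i ∈ range m, ∑ j ∈ range n, g (i * n + j) := by
  induction m with
  | zero => simp
  | succ m ih => rw [Nat.succ_mul, sum_range_add, ih, sum_range_succ]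

theorem sum_mat (w : ℕ → ℕ → ℕ) (h : ℕ → ℕ) :
    ∑ k ∈ range 576, w (k / 24) (k % 24) * h k = ∑ i ∈ range 24, ∑ j ∈ range 24, w i j * h (24 * i + j) := by
  rw [show 576 = 24 * 24 from rfl, sum_range_mul']
  refine sum_congr rfl fun i _ => sum_congr rfl fun j hj => ?_
  have hj' := mem_range.1 hj
  rw [show (i * 24 + j) / 24 = i by omega, show (i * 24 + j) % 24 = j by omega, mul_comm i 24]

theorem encM_eq (w : ℕ → ℕ → ℕ) : encM w = encb 32 576 (fun k => w (k / 24) (k % 24)) := by
  unfold encb encM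
  rw [sum_mat w (fun k => 2 ^ (32 * k))]

theorem encM_add (w w' : ℕ → ℕ → ℕ) : encM w + encM w' = encM (fun i j => w i j + w' i j) := by
  unfold encM
  rw [← sum_add_distrib]
  refine sum_congr rfl fun i _ => ?_
  rw [← sum_add_distrib]
  refine sum_congr rfl fun j _ => ?_
  ring

theorem encM_mul (a : ℕ) (w : ℕ → ℕ → ℕ) : a * encM w = encM (fun i j => a * w i j) := by
  unfold encM
  rw [mul_sum]
  refine sum_congr rfl fun i _ => ?_
  rw [mul_sum]
  refine sum_congr rfl fun j _ => ?_
  ring

theorem encM_congr {w w' : ℕ → ℕ → ℕ} (h : ∀ i < 24, ∀ j < 24, w i j = w' i j) : encM w = encM w' := by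
  unfold encM
  refine sum_congr rfl fun i hi => sum_congr rfl fun j hj => ?_
  rw [h i (mem_range.1 hi) j (mem_range.1 hj)]

theorem le_of_sum {w : ℕ → ℕ → ℕ} {B : ℕ} (h : ∑ i ∈ range 24, ∑ j ∈ range 24, w i j < B) {i j : ℕ}
    (hi : i < 24) (hj : j < 24) : w i j < B := by
  refine lt_of_le_of_lt ?_ h
  calc w i j ≤ ∑ j ∈ range 24, w i j := single_le_sum (f := fun j => w i j) (fun _ _ => Nat.zero_le _) (mem_range.2 hj)
    _ ≤ _ := single_le_sum (f := fun i => ∑ j ∈ range 24, w i j) (fun _ _ => Nat.zero_le _) (mem_range.2 hi)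

theorem dgb_encM {w : ℕ → ℕ → ℕ} (h : ∀ i < 24, ∀ j < 24, w i j < 2 ^ 32) (t : ℕ) :
    dgb 32 (encM w) t = if t < 576 then w (t / 24) (t % 24) else 0 := by
  rw [encM_eq, dgb_encb]
  intro k hk
  exact h _ (by omega) _ (by omega)

theorem encM_lt {w : ℕ → ℕ → ℕ} (h : ∀ i < 24, ∀ j < 24, w i j < 2 ^ 32) : encM w < 2 ^ 18432 := by
  rw [encM_eq]
  have := encb_lt (b := 32) (N := 576) (f := fun k => w (k / 24) (k % 24)) (fun k hk => h _ (by omega) _ (by omega))
  exact this

theorem encb_mod {b N : ℕ} (f : ℕ → ℕ) (hf : ∑ k ∈ range N, f k < 2 ^ b - 1) :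
    encb b N f % (2 ^ b - 1) = ∑ k ∈ range N, f k := by
  have h1 : encb b N f ≡ ∑ k ∈ range N, f k [MOD (2 ^ b - 1)] := by
    unfold encb
    apply Nat.ModEq.sum
    intro k _
    have h2 : 2 ^ b ≡ 1 [MOD (2 ^ b - 1)] := by
      have h3 : 1 ≤ 2 ^ b := Nat.one_le_two_pow
      exact ((Nat.modEq_iff_dvd' h3).2 dvd_rfl).symm
    have h4 := (h2.pow k).mul_left (f k)
    rw [← pow_mul, one_pow, mul_one] at h4
    exact h4
  rw [h1, Nat.mod_eq_of_lt hf]

theorem encM_mod {w : ℕ → ℕ → ℕ} (h : ∑ i ∈ range 24, ∑ j ∈ range 24, w i j < 4294967295) :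
    encM w % 4294967295 = ∑ i ∈ range 24, ∑ j ∈ range 24, w i j := by
  have h1 := sum_mat w (fun _ => 1)
  simp only [mul_one] at h1
  have e : (4294967295 : ℕ) = 2 ^ 32 - 1 := by norm_num
  rw [encM_eq, e, encb_mod, h1]
  rw [h1, ← e]
  exact h

theorem encb_mul (b N a : ℕ) (f : ℕ → ℕ) : a * encb b N f = encb b N (fun k => a * f k) := by
  unfold encb
  rw [mul_sum]
  refine sum_congr rfl fun j _ => ?_
  ring

theorem encb_add (b N : ℕ) (f g : ℕ → ℕ) : encb b N f + encb b N g = encb b N (fun k => f k + g k) := by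
  unfold encb
  rw [← sum_add_distrib]
  refine sum_congr rfl fun j _ => ?_
  ring

theorem encb_congr {b N : ℕ} {f g : ℕ → ℕ} (h : ∀ k < N, f k = g k) : encb b N f = encb b N g := by
  unfold encb
  refine sum_congr rfl fun j hj => ?_
  rw [h j (mem_range.1 hj)]

/-- a rank one matrix -/
theorem encb_outer (f g : ℕ → ℕ) : encb 768 24 f * encb 32 24 g = encM (fun i j => f i * g j) := by
  unfold encb encM
  rw [sum_mul_sum]
  refine sum_congr rfl fun i _ => sum_congr rfl fun j _ => ?_
  rw [show 32 * (24 * i + j) = 768 * i + 32 * j by ring, pow_add]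
  ring

theorem ones24_eq : ones24 = encb 32 24 (fun _ => 1) := by decide +kernel
theorem ones576_eq : ones576 = encb 32 576 (fun _ => 1) := by decide +kernel
theorem bigCol_eq : bigCol = encb 768 24 (fun _ => 1) := by decide +kernel
theorem kst_eq : kst = ∑ j ∈ range 24, 2 ^ (32 * (23 * j)) := by decide +kernel
theorem bigCol_eq' : bigCol = ∑ j ∈ range 24, 2 ^ (32 * (24 * j)) := by decide +kernel
theorem krev_eq : krev = ∑ j ∈ range 24, 2 ^ (32 * (576 - 25 * j)) := by decide +kernel
theorem mst_eq : mst = ∑ i ∈ range 24, 4294967295 * 2 ^ (32 * (24 * i)) := by decide +kernel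
theorem dst_eq : dst = ∑ i ∈ range 24, 4294967295 * 2 ^ (32 * (25 * i)) := by decide +kernel
theorem mrev_eq : mrev = ∑ i ∈ range 24, 4294967295 * 2 ^ (32 * (24 * (24 - i))) := by decide +kernel
theorem k31_eq : k31 = ∑ j ∈ range 24, 2 ^ (31 * j) := by decide +kernel
theorem h576_eq : h576 = encb 32 576 (fun _ => 2147483648) := by decide +kernel
theorem all576_eq : all576 = encb 32 576 (fun _ => 4294967295) := by decide +kernel
theorem off_eq : off = encM (fun i j => if i = j then 0 else 1) := by decide +kernel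

end Pool.Agent.K3
end

section

/-!
# The final comparison of a Farkas leaf
-/

set_option autoImplicit false

namespace Pool.Agent.K3

open Finset

theorem encM_and {u v : ℕ → ℕ → ℕ} (hu : ∀ i < 24, ∀ j < 24, u i j < 2 ^ 32)
    (hv : ∀ i < 24, ∀ j < 24, v i j < 2 ^ 32) :
    encM u &&& encM v = encM (fun i j => u i j &&& v i j) := by
  apply dgb_ext (b := 32) (by norm_num)
  intro t
  rw [dgb_and, dgb_encM hu, dgb_encM hv, dgb_encM (fun i hi j hj => lt_of_le_of_lt Nat.and_le_left (hu i hi j hj))]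
  split_ifs <;> simp

theorem encM_or {u v : ℕ → ℕ → ℕ} (hu : ∀ i < 24, ∀ j < 24, u i j < 2 ^ 32)
    (hv : ∀ i < 24, ∀ j < 24, v i j < 2 ^ 32) :
    encM u ||| encM v = encM (fun i j => u i j ||| v i j) := by
  apply dgb_ext (b := 32) (by norm_num)
  intro t
  rw [dgb_or, dgb_encM hu, dgb_encM hv, dgb_encM (fun i hi j hj => Nat.or_lt_two_pow (hu i hi j hj) (hv i hi j hj))]
  split_ifs <;> simp

theorem ones576_encM : ones576 = encM (fun _ _ => 1) := by
  rw [ones576_eq, encM_eq]

theorem h576_encM : h576 = encM (fun _ _ => 2147483648) := by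
  rw [h576_eq, encM_eq]

theorem all576_encM : all576 = encM (fun _ _ => 4294967295) := by
  rw [all576_eq, encM_eq]

theorem encM_subF {u v : ℕ → ℕ → ℕ} (h : ∀ i < 24, ∀ j < 24, v i j ≤ u i j) :
    encM u - encM v = encM (fun i j => u i j - v i j) := by
  have e : encM u = encM (fun i j => u i j - v i j) + encM v := by
    rw [encM_add]
    apply encM_congr
    intro i hi j hj
    have := h i hi j hj
    omega
  omega

/-- the matrix part and the constant part of a packed row -/
theorem split_part {w : ℕ → ℕ → ℕ} (h : ∀ i < 24, ∀ j < 24, w i j < 2 ^ 32) (a : ℕ) :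
    (encM w + a * 2 ^ 18432) >>> 18432 = a ∧ (encM w + a * 2 ^ 18432) &&& all576 = encM w := by
  have hlt := encM_lt h
  obtain ⟨N, hN⟩ : ∃ N : ℕ, N = 18432 := ⟨_, rfl⟩
  have hall : all576 = 2 ^ N - 1 := by
    rw [hN]
    have e : all576 = encb 32 576 (fun _ => 4294967295) := all576_eq
    have h1 : 4294967295 * encb 32 576 (fun _ => 1) + 1 = 2 ^ (32 * 576) := by
      have : ∀ M : ℕ, 4294967295 * encb 32 M (fun _ => 1) + 1 = 2 ^ (32 * M) := by
        intro M
        induction M with
        | zero => simp [encb]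
        | succ M ih =>
          have e2 : encb 32 (M + 1) (fun _ => 1) = encb 32 M (fun _ => 1) + 2 ^ (32 * M) := by
            unfold encb
            rw [sum_range_succ, one_mul]
          rw [e2, show 32 * (M + 1) = 32 * M + 32 by ring, pow_add, ← ih]
          ring
      exact this 576
    rw [encb_mul] at h1
    have e3 : (fun _ : ℕ => 4294967295 * 1) = (fun _ : ℕ => 4294967295) := by norm_num
    rw [e3, ← e] at h1
    omega
  rw [hall]
  rw [← hN] at hlt ⊢
  constructor
  · rw [Nat.shiftRight_eq_div_pow, Nat.add_mul_div_right _ _ (by positivity), Nat.div_eq_of_lt hlt, zero_add]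
  · rw [Nat.and_two_pow_sub_one_eq_mod, Nat.add_mul_mod_self_right, Nat.mod_eq_of_lt hlt]

/-- the sign of a digit -/
theorem sign_part {w : ℕ → ℕ → ℕ} (h : ∀ i < 24, ∀ j < 24, w i j < 2 ^ 32) :
    (encM w >>> 31) &&& ones576 = encM (fun i j => if w i j < 2 ^ 31 then 0 else 1) := by
  rw [ones576_encM]
  apply dgb_ext (b := 32) (by norm_num)
  intro t
  have h1 : ∀ i < 24, ∀ j < 24, (1 : ℕ) < 2 ^ 32 := fun _ _ _ _ => by norm_num
  rw [dgb_and, dgb_encM (w := fun _ _ => 1) h1, dgb_encM (w := fun i j => if w i j < 2 ^ 31 then 0 else 1)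
    (fun i hi j hj => by split_ifs <;> norm_num)]
  split_ifs with ht hw
  · -- bit 31 is not set
    rw [Nat.and_one_is_mod]
    have e := dgb_encM h t
    rw [if_pos ht] at e
    have hb : (dgb 32 (encM w >>> 31) t).testBit 0 = (dgb 32 (encM w) t).testBit 31 := by
      rw [dgb_testBit, dgb_testBit, Nat.testBit_shiftRight]
      simp only [Nat.ofNat_pos, decide_true, Bool.true_and, add_zero]
      rw [add_comm]
      simp
    rw [e, Nat.testBit_lt_two_pow hw] at hb
    rw [Nat.testBit_zero] at hb
    simp only [decide_eq_false_iff_not] at hb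
    omega
  · rw [Nat.and_one_is_mod]
    have e := dgb_encM h t
    rw [if_pos ht] at e
    have hb : (dgb 32 (encM w >>> 31) t).testBit 0 = (dgb 32 (encM w) t).testBit 31 := by
      rw [dgb_testBit, dgb_testBit, Nat.testBit_shiftRight]
      simp only [Nat.ofNat_pos, decide_true, Bool.true_and, add_zero]
      rw [add_comm]
      simp
    have hlt := h (t / 24) (by omega) (t % 24) (by omega)
    have hbit : (w (t / 24) (t % 24)).testBit 31 = true := by
      rw [Nat.testBit_eq_decide_div_mod_eq]
      have : w (t / 24) (t % 24) / 2 ^ 31 = 1 := by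
        apply Nat.div_eq_of_lt_le
        · omega
        · omega
      rw [this]
      rfl
    rw [e, hbit, Nat.testBit_zero] at hb
    simp only [decide_eq_true_eq] at hb
    exact hb
  · simp

theorem fin_sound {p q : ℕ → ℕ → ℕ} {pt qt m1 m0 : ℕ}
    (hp : ∑ i ∈ range 24, ∑ j ∈ range 24, p i j < 2 ^ 31 - 1)
    (hq : ∑ i ∈ range 24, ∑ j ∈ range 24, q i j < 2 ^ 31 - 1)
    (b1 b0 : ℕ → ℕ → Bool) (hm1 : m1 = encM (fun i j => (b1 i j).toNat))
    (hm0 : m0 = encM (fun i j => (b0 i j).toNat))
    (h : fin1 (encM p + pt * 2 ^ 18432) (encM q + qt * 2 ^ 18432) m1 m0 = true) :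
    ∑ i ∈ range 24, ∑ j ∈ range 24, (if b1 i j then q i j else 0) +
      ∑ i ∈ range 24, ∑ j ∈ range 24, (if b1 i j || b0 i j then 0 else q i j - p i j) + pt + 1 ≤
      ∑ i ∈ range 24, ∑ j ∈ range 24, (if b1 i j then p i j else 0) + qt := by
  have hpl : ∀ i < 24, ∀ j < 24, p i j < 2 ^ 31 - 1 := fun i hi j hj => le_of_sum hp hi hj
  have hql : ∀ i < 24, ∀ j < 24, q i j < 2 ^ 31 - 1 := fun i hi j hj => le_of_sum hq hi hj
  have hpl' : ∀ i < 24, ∀ j < 24, p i j < 2 ^ 32 := fun i hi j hj => by have := hpl i hi j hj; omega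
  have hql' : ∀ i < 24, ∀ j < 24, q i j < 2 ^ 32 := fun i hi j hj => by have := hql i hi j hj; omega
  obtain ⟨ep1, ep2⟩ := split_part hpl' pt
  obtain ⟨eq1, eq2⟩ := split_part hql' qt
  have hk1 : m1 * 4294967295 = encM (fun i j => if b1 i j then 4294967295 else 0) := by
    rw [mul_comm, hm1, encM_mul]
    apply encM_congr
    intro i _ j _
    cases b1 i j <;> simp
  have hand : ∀ w : ℕ → ℕ → ℕ, (∀ i < 24, ∀ j < 24, w i j < 2 ^ 32) →
      encM w &&& (m1 * 4294967295) = encM (fun i j => if b1 i j then w i j else 0) := by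
    intro w hw
    rw [hk1, encM_and hw (fun i _ j _ => by split_ifs <;> norm_num)]
    apply encM_congr
    intro i hi j hj
    cases b1 i j
    · simp
    · simp only [if_true]
      exact and_BM (hw i hi j hj)
  have hd : encM q + h576 - encM p = encM (fun i j => q i j + 2147483648 - p i j) := by
    rw [h576_encM, encM_add, encM_subF]
    intro i hi j hj
    have := hpl i hi j hj
    omega
  have hdl : ∀ i < 24, ∀ j < 24, q i j + 2147483648 - p i j < 2 ^ 32 := by
    intro i hi j hj
    have := hql i hi j hj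
    omega
  have hsign := sign_part hdl
  have hb : ∀ b : ℕ → ℕ → Bool, ∀ i < 24, ∀ j < 24, (b i j).toNat < 2 ^ 32 := by
    intro b i _ j _
    cases b i j <;> simp
  have hunk : ones576 - (m1 ||| m0) = encM (fun i j => if b1 i j || b0 i j then 0 else 1) := by
    rw [hm1, hm0, encM_or (hb b1) (hb b0), ones576_encM, encM_subF]
    · apply encM_congr
      intro i _ j _
      cases b1 i j <;> cases b0 i j <;> simp
    · intro i _ j _
      cases b1 i j <;> cases b0 i j <;> simp
  have hx : (((((encM q + h576 - encM p) >>> 31) &&& ones576) &&& (ones576 - (m1 ||| m0))) * 2147483647) &&&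
      (encM q + h576 - encM p) = encM (fun i j => if b1 i j || b0 i j then 0 else q i j - p i j) := by
    rw [hunk, hd, hsign, encM_and (fun i _ j _ => by split_ifs <;> norm_num)
      (fun i _ j _ => by split_ifs <;> norm_num), mul_comm, encM_mul, encM_and _ hdl]
    · apply encM_congr
      intro i hi j hj
      have h1 := hpl i hi j hj
      have h2 := hql i hi j hj
      by_cases hbb : (b1 i j || b0 i j) = true
      · simp [hbb]
      · simp only [hbb, Bool.false_eq_true, if_false]
        by_cases hlt : q i j + 2147483648 - p i j < 2 ^ 31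
        · simp only [hlt, if_true, Nat.zero_and, mul_zero]
          omega
        · simp only [hlt, if_false, Nat.and_self, mul_one]
          have e : (2147483647 : ℕ) = 2 ^ 31 - 1 := by norm_num
          rw [e, Nat.and_comm, Nat.and_two_pow_sub_one_eq_mod]
          have e2 : q i j + 2147483648 - p i j = (q i j - p i j) + 2 ^ 31 := by omega
          rw [e2, Nat.add_mod_right, Nat.mod_eq_of_lt (by omega)]
    · intro i hi j hj
      have : ((if q i j + 2147483648 - p i j < 2 ^ 31 then 0 else 1) &&&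
        (if (b1 i j || b0 i j) = true then 0 else 1)) ≤ 1 := by
        split_ifs <;> simp
      calc _ ≤ 2147483647 * 1 := Nat.mul_le_mul_left _ this
        _ < _ := by norm_num
  have hfin : ((encM q &&& (m1 * 4294967295)) % 4294967295 +
      ((((((encM q + h576 - encM p) >>> 31) &&& ones576) &&& (ones576 - (m1 ||| m0))) * 2147483647) &&&
        (encM q + h576 - encM p)) % 4294967295 + pt).succ ≤
      (encM p &&& (m1 * 4294967295)) % 4294967295 + qt := by
    have h' : fin2 ((encM p + pt * 2 ^ 18432) >>> 18432) ((encM q + qt * 2 ^ 18432) >>> 18432)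
      ((encM p + pt * 2 ^ 18432) &&& all576) ((encM q + qt * 2 ^ 18432) &&& all576) (m1 * 4294967295)
      ((((encM q + qt * 2 ^ 18432) &&& all576) + h576) - ((encM p + pt * 2 ^ 18432) &&& all576))
      (ones576 - (m1 ||| m0)) = true := h
    rw [ep1, ep2, eq1, eq2] at h'
    exact Nat.le_of_ble_eq_true h'
  rw [hx, hand p hpl', hand q hql'] at hfin
  have hs : ∀ w : ℕ → ℕ → ℕ, (∀ i < 24, ∀ j < 24, w i j ≤ q i j) ∨ (∀ i < 24, ∀ j < 24, w i j ≤ p i j) →
      encM w % 4294967295 = ∑ i ∈ range 24, ∑ j ∈ range 24, w i j := by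
    intro w hw
    apply encM_mod
    rcases hw with hw | hw
    · calc _ ≤ ∑ i ∈ range 24, ∑ j ∈ range 24, q i j :=
          sum_le_sum fun i hi => sum_le_sum fun j hj => hw i (mem_range.1 hi) j (mem_range.1 hj)
        _ < _ := by omega
    · calc _ ≤ ∑ i ∈ range 24, ∑ j ∈ range 24, p i j :=
          sum_le_sum fun i hi => sum_le_sum fun j hj => hw i (mem_range.1 hi) j (mem_range.1 hj)
        _ < _ := by omega
  rw [hs _ (Or.inl fun i _ j _ => by split_ifs <;> omega), hs _ (Or.inl fun i _ j _ => by split_ifs <;> omega),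
    hs _ (Or.inr fun i _ j _ => by split_ifs <;> omega)] at hfin
  have h2 : (∑ i ∈ range 24, ∑ j ∈ range 24, (if b1 i j then q i j else 0) +
      ∑ i ∈ range 24, ∑ j ∈ range 24, (if b1 i j || b0 i j then 0 else q i j - p i j) + pt).succ ≤
      ∑ i ∈ range 24, ∑ j ∈ range 24, (if b1 i j then p i j else 0) + qt := hfin
  exact h2

end Pool.Agent.K3
end

section

/-!
# Packed vectors: the operations of the Farkas leaf
-/

set_option autoImplicit false

namespace Pool.Agent.K3

open Finset

theorem stride_encb {f : ℕ → ℕ} (hf : 24 * ∑ j ∈ range 24, f j < 2 ^ 32) :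
    stride (encb 32 24 f) = encb 768 24 f := by
  show (encb 32 24 f * kst) &&& mst = _
  rw [kst_eq, mst_eq, mulmask (c := fun j => 23 * j) (tgt := fun i => 24 * i) hf
    (fun i hi a ha b hb h => by omega) (fun i hi => by omega) (fun i hi j hj h => by omega)]
  unfold encb
  refine sum_congr rfl fun i _ => ?_
  rw [show 32 * (24 * i) = 768 * i by ring]

theorem diag_encb {f : ℕ → ℕ} (hf : 24 * ∑ j ∈ range 24, f j < 2 ^ 32) :
    diag (encb 32 24 f) = encM (fun i j => if i = j then f i else 0) := by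
  show (encb 32 24 f * bigCol) &&& dst = _
  rw [bigCol_eq', dst_eq, mulmask (c := fun j => 24 * j) (tgt := fun i => 25 * i) hf
    (fun i hi a ha b hb h => by omega) (fun i hi => by omega) (fun i hi j hj h => by omega)]
  unfold encM
  refine sum_congr rfl fun i hi => ?_
  rw [sum_eq_single_of_mem i hi]
  · beta_reduce
    rw [if_pos rfl, show 32 * (24 * i + i) = 32 * (25 * i) by ring]
  · intro j _ hj
    beta_reduce
    rw [if_neg (Ne.symm hj), zero_mul]

theorem revs_encb {f : ℕ → ℕ} (hf : 24 * ∑ j ∈ range 24, f j < 2 ^ 32) :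
    revs (encb 32 24 f) = ∑ i ∈ range 24, f i * 2 ^ (768 * (24 - i)) := by
  show (encb 32 24 f * krev) &&& mrev = _
  rw [krev_eq, mrev_eq, mulmask (c := fun j => 576 - 25 * j) (tgt := fun i => 24 * (24 - i)) hf
    (fun i hi a ha b hb h => by omega) (fun i hi => by omega) (fun i hi j hj h => by omega)]
  refine sum_congr rfl fun i _ => ?_
  rw [show 32 * (24 * (24 - i)) = 768 * (24 - i) by ring]

theorem and_one_eq (x : ℕ) : x &&& 1 = (x.testBit 0).toNat := by
  rw [Nat.and_one_is_mod, Nat.testBit_zero]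
  rcases Nat.mod_two_eq_zero_or_one x with h | h <;> simp [h]

theorem row_eq (m k : ℕ) :
    row m k = encb 32 24 (fun j => (m.testBit (768 * k + 32 * j)).toNat) := by
  show (m >>> (768 * k)) &&& ones24 = _
  apply dgb_ext (b := 32) (by norm_num)
  intro t
  rw [dgb_and, ones24_eq, dgb_encb (fun k _ => by norm_num),
    dgb_encb (fun k _ => lt_of_le_of_lt (Bool.toNat_le _) (by norm_num)),
    show 768 * k = 32 * (24 * k) by ring, dgb_shiftRight]
  split_ifs with h
  · rw [and_one_eq, dgb_testBit]
    simp only [Nat.ofNat_pos, decide_true, Bool.true_and, add_zero]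
    congr 2
    ring
  · simp

theorem BM_and {a : ℕ} (h : a < 2 ^ 32) : 4294967295 &&& a = a := by
  rw [Nat.land_comm, and_BM h]

theorem selz_eq (b : ℕ → Bool) (sz : ℕ) :
    selz (encb 32 24 (fun j => (b j).toNat)) sz = encb 32 24 (fun j => if b j then dgb 32 sz j else 0) := by
  show (encb 32 24 (fun j => (b j).toNat) * 4294967295) &&& sz = _
  rw [mul_comm, encb_mul]
  apply dgb_ext (b := 32) (by norm_num)
  intro t
  have hb : ∀ k < 24, 4294967295 * (b k).toNat < 2 ^ 32 := by
    intro k _
    cases b k <;> norm_num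
  have hb2 : ∀ k < 24, (if b k then dgb 32 sz k else 0) < 2 ^ 32 := by
    intro k _
    split_ifs
    · exact dgb_lt _ _ _
    · norm_num
  rw [dgb_and, dgb_encb hb, dgb_encb hb2]
  split_ifs with h h2
  · rw [h2, Bool.toNat_true, mul_one, BM_and (dgb_lt _ _ _)]
  · simp only [Bool.not_eq_true] at h2
    rw [h2, Bool.toNat_false, mul_zero, Nat.zero_and]
  · rw [Nat.zero_and]

theorem encM_sub {w w' : ℕ → ℕ → ℕ} (h : ∀ i < 24, ∀ j < 24, w' i j ≤ w i j) :
    encM w - encM w' = encM (fun i j => w i j - w' i j) := by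
  have e : encM w = encM (fun i j => w i j - w' i j) + encM w' := by
    rw [encM_add]
    apply encM_congr
    intro i hi j hj
    have := h i hi j hj
    omega
  omega

theorem encb_sub {b N : ℕ} {f g : ℕ → ℕ} (h : ∀ k < N, g k ≤ f k) :
    encb b N f - encb b N g = encb b N (fun k => f k - g k) := by
  have e : encb b N f = encb b N (fun k => f k - g k) + encb b N g := by
    rw [encb_add]
    apply encb_congr
    intro k hk
    have := h k hk
    omega
  omega

theorem sq_encb {f : ℕ → ℕ} (hf : 24 * ∑ j ∈ range 24, f j < 2 ^ 32) :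
    sq (encb 32 24 f) = encM (fun i j => f i * f j - if i = j then f i else 0) := by
  show stride (encb 32 24 f) * encb 32 24 f - diag (encb 32 24 f) = _
  rw [stride_encb hf, diag_encb hf, encb_outer, encM_sub]
  intro i _ j _
  split_ifs with h
  · subst h
    exact Nat.le_mul_self _
  · exact Nat.zero_le _

theorem dgb_full (k t : ℕ) : dgb 32 (4294967295 <<< (32 * k)) t = if t = k then 4294967295 else 0 := by
  have h := dgb_sum (b := 32) {k} (fun _ => 4294967295) (fun p => p) (fun t => by
    refine lt_of_le_of_lt (sum_le_sum_of_subset (filter_subset _ _)) ?_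
    simp) t
  rw [sum_singleton] at h
  rw [Nat.shiftLeft_eq, h, filter_singleton]
  by_cases ht : t = k
  · subst ht
    simp
  · simp [ht, Ne.symm ht]

theorem and_full {f : ℕ → ℕ} (hf : ∀ j < 24, f j < 2 ^ 32) (k : ℕ) :
    encb 32 24 f &&& (4294967295 <<< (32 * k)) = encb 32 24 (fun j => if j = k then f j else 0) := by
  apply dgb_ext (b := 32) (by norm_num)
  intro t
  have hb2 : ∀ j < 24, (if j = k then f j else 0) < 2 ^ 32 := by
    intro j hj
    split_ifs
    · exact hf j hj
    · norm_num
  rw [dgb_and, dgb_encb hf, dgb_encb hb2, dgb_full]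
  split_ifs with h h2
  · exact and_BM (hf t h)
  · exact Nat.and_zero _
  · exact Nat.zero_and _
  · exact Nat.zero_and _

theorem crossr_eq {g : ℕ → ℕ} (hg : 24 * ∑ j ∈ range 24, g j < 2 ^ 32) {k : ℕ} (hk : k < 24) :
    crossr k (encb 32 24 g) = encM (fun i j => (if i = k then g j else 0) + (if j = k then g i else 0)) := by
  show (encb 32 24 g) <<< (768 * k) + (stride (encb 32 24 g)) <<< (32 * k) = _
  rw [stride_encb hg, Nat.shiftLeft_eq, Nat.shiftLeft_eq, ← encM_add]
  refine congrArg₂ (fun a b => a + b) ?_ ?_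
  · unfold encM encb
    beta_reduce
    symm
    rw [sum_eq_single_of_mem k (mem_range.2 hk)]
    · rw [sum_mul]
      refine sum_congr rfl fun j _ => ?_
      rw [if_pos rfl, show 32 * (24 * k + j) = 768 * k + 32 * j by ring, pow_add]
      ring
    · intro i _ hi
      apply sum_eq_zero
      intro j _
      rw [if_neg hi, zero_mul]
  · unfold encM encb
    beta_reduce
    rw [sum_mul]
    refine sum_congr rfl fun i _ => ?_
    symm
    rw [sum_eq_single_of_mem k (mem_range.2 hk)]
    · rw [if_pos rfl, show 32 * (24 * i + k) = 768 * i + 32 * k by ring, pow_add]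
      ring
    · intro j _ hj
      rw [if_neg hj, zero_mul]

theorem single_le24 {f : ℕ → ℕ} {j : ℕ} (hj : j < 24) : f j ≤ ∑ j ∈ range 24, f j :=
  single_le_sum (f := f) (fun _ _ => Nat.zero_le _) (mem_range.2 hj)

/-- the rows and columns: `v_j = a_j n_j` -/
theorem cross_eq {n a : ℕ → ℕ} {k : ℕ} (hk : k < 24) (h1 : 24 * ∑ j ∈ range 24, a j * n j < 2 ^ 32)
    (h2 : 24 * (n k * ∑ j ∈ range 24, a j * n j) < 2 ^ 32) :
    cross (n k) k (encb 32 24 (fun j => a j * n j)) =
      encM (fun i j => (if i = k then a j * (n k * n j - if k = j then n k else 0) else 0) +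
        (if j = k then a i * (n k * n i - if k = i then n k else 0) else 0)) := by
  have hf : ∀ j < 24, a j * n j < 2 ^ 32 := by
    intro j hj
    have := single_le24 (f := fun j => a j * n j) hj
    omega
  show crossr k (n k * encb 32 24 (fun j => a j * n j) -
    (encb 32 24 (fun j => a j * n j) &&& (4294967295 <<< (32 * k)))) = _
  rw [and_full hf, encb_mul, encb_sub]
  · have e : encb 32 24 (fun j => n k * (a j * n j) - if j = k then a j * n j else 0) =
        encb 32 24 (fun j => a j * (n k * n j - if k = j then n k else 0)) := by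
      apply encb_congr
      intro j hj
      by_cases h : j = k
      · subst h
        simp only [if_true]
        rw [Nat.mul_sub]
        congr 1
        ring
      · rw [if_neg h, if_neg (Ne.symm h)]
        simp only [Nat.sub_zero]
        ring
    rw [e, crossr_eq _ hk]
    refine lt_of_le_of_lt (Nat.mul_le_mul_left _ ?_) h2
    rw [mul_sum]
    refine sum_le_sum fun j _ => ?_
    calc a j * (n k * n j - if k = j then n k else 0) ≤ a j * (n k * n j) :=
          Nat.mul_le_mul_left _ (Nat.sub_le _ _)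
      _ = n k * (a j * n j) := by ring
  · intro j _
    split_ifs with h
    · subst h
      rcases Nat.eq_zero_or_pos (n j) with h0 | h0
      · simp [h0]
      · exact Nat.le_mul_of_pos_left _ h0
    · exact Nat.zero_le _

theorem rowMask_and (x : ℕ) : x &&& rowMask = x % 2 ^ 768 := by
  apply Nat.eq_of_testBit_eq
  intro r
  rw [Nat.testBit_land, rowMask_testBit, Nat.testBit_mod_two_pow, Bool.and_comm]

theorem starv_eq {bx : ℕ → ℕ → Bool} {n v : ℕ → ℕ} {b : ℕ → Bool} (hn : ∑ j ∈ range 24, n j ≤ 32)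
    (hv : ∑ j ∈ range 24, v j ≤ 32) :
    starv (encM (fun l j => (bx l j).toNat)) (encb 32 24 n) (encb 32 24 v) (encb 32 24 (fun j => (b j).toNat)) =
      encb 32 24 (fun j => if b j then 0 else (∑ l ∈ range 24, (if bx l j then v l else 0)) * n j) := by
  have hnj : ∀ j < 24, n j ≤ 32 := fun j hj => (single_le24 hj).trans hn
  have hvj : ∀ j < 24, v j ≤ 32 := fun j hj => (single_le24 hj).trans hv
  show ((((encM (fun l j => (bx l j).toNat) * 4294967295) &&& (encb 32 24 n * bigCol)) *
    revs (encb 32 24 v)) >>> 18432 &&& rowMask) &&& ((ones24 - encb 32 24 (fun j => (b j).toNat)) * 4294967295) = _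
  -- the weighted matrix
  have eX : (encM (fun l j => (bx l j).toNat) * 4294967295) &&& (encb 32 24 n * bigCol) =
      encM (fun l j => if bx l j then n j else 0) := by
    rw [mul_comm, encM_mul, mul_comm (encb 32 24 n), bigCol_eq, encb_outer]
    have hb1 : ∀ i < 24, ∀ j < 24, 4294967295 * (bx i j).toNat < 2 ^ 32 := by
      intro i _ j _
      cases bx i j <;> norm_num
    have hb2 : ∀ i < 24, ∀ j < 24, 1 * n j < 2 ^ 32 := by
      intro i _ j hj
      have := hnj j hj
      omega
    have hb3 : ∀ i < 24, ∀ j < 24, (if bx i j then n j else 0) < 2 ^ 32 := by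
      intro i _ j hj
      have := hnj j hj
      split_ifs <;> omega
    apply dgb_ext (b := 32) (by norm_num)
    intro t
    rw [dgb_and, dgb_encM hb1, dgb_encM hb2, dgb_encM hb3]
    split_ifs with h h2
    · rw [h2, Bool.toNat_true, mul_one, one_mul]
      exact BM_and (by have := hnj (t % 24) (Nat.mod_lt _ (by norm_num)); omega)
    · simp only [Bool.not_eq_true] at h2
      rw [h2, Bool.toNat_false, mul_zero, Nat.zero_and]
    · rw [Nat.zero_and]
  rw [eX, revs_encb (by omega)]
  -- the product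
  have eP : encM (fun l j => if bx l j then n j else 0) * ∑ i ∈ range 24, v i * 2 ^ (768 * (24 - i)) =
      ∑ p ∈ range 24 ×ˢ range 24, (encb 32 24 (fun j => if bx p.1 j then n j else 0) * v p.2) *
        2 ^ (768 * (p.1 + (24 - p.2))) := by
    have e1 : encM (fun l j => if bx l j then n j else 0) =
        ∑ l ∈ range 24, encb 32 24 (fun j => if bx l j then n j else 0) * 2 ^ (768 * l) := by
      unfold encM encb
      refine sum_congr rfl fun l _ => ?_
      rw [sum_mul]
      refine sum_congr rfl fun j _ => ?_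
      rw [show 32 * (24 * l + j) = 32 * j + 768 * l by ring, pow_add]
      ring
    rw [e1, sum_mul_sum, sum_product]
    refine sum_congr rfl fun i _ => sum_congr rfl fun j _ => ?_
    rw [show 768 * (i + (24 - j)) = 768 * i + 768 * (24 - j) by ring, pow_add]
    ring
  have hyj : ∀ j < 24, ∑ l ∈ range 24, (if bx l j then v l else 0) ≤ 32 := by
    intro j _
    refine le_trans (sum_le_sum fun l _ => ?_) hv
    split_ifs
    · exact le_rfl
    · exact Nat.zero_le _
  have hS : ∑ p ∈ range 24 ×ˢ range 24, (encb 32 24 (fun j => if bx p.1 j then n j else 0) * v p.2) < 2 ^ 768 := by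
    have e2 : ∑ p ∈ range 24 ×ˢ range 24, (encb 32 24 (fun j => if bx p.1 j then n j else 0) * v p.2) =
        encb 32 24 (fun j => (∑ l ∈ range 24, if bx l j then n j else 0) * ∑ i ∈ range 24, v i) := by
      rw [sum_product]
      have e3 := sum_mul_sum (range 24) (range 24) (fun l => encb 32 24 (fun j => if bx l j then n j else 0)) v
      beta_reduce at e3 ⊢
      rw [← e3]
      unfold encb
      rw [sum_comm, sum_mul]
      refine sum_congr rfl fun j _ => ?_
      rw [← sum_mul]
      ring
    rw [e2]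
    refine lt_of_lt_of_le (encb_lt (b := 32) (N := 24) fun j hj => ?_) (by norm_num)
    have h1 : (∑ l ∈ range 24, if bx l j then n j else 0) ≤ 24 * 32 := by
      have := sum_le_card_nsmul (range 24) (fun l => if bx l j then n j else 0) 32 (fun l _ => by
        have := hnj j hj
        split_ifs <;> omega)
      simpa using this
    calc (∑ l ∈ range 24, if bx l j then n j else 0) * ∑ i ∈ range 24, v i ≤ (24 * 32) * 32 := Nat.mul_le_mul h1 hv
      _ < 2 ^ 32 := by norm_num
  have eY : (encM (fun l j => if bx l j then n j else 0) * ∑ i ∈ range 24, v i * 2 ^ (768 * (24 - i))) >>> 18432 &&&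
      rowMask = encb 32 24 (fun j => (∑ l ∈ range 24, (if bx l j then v l else 0)) * n j) := by
    rw [rowMask_and, Nat.shiftRight_eq_div_pow, show (18432 : ℕ) = 768 * 24 by norm_num]
    change dgb 768 _ 24 = _
    rw [eP, dgb_sum' (b := 768) (range 24 ×ˢ range 24)
      (fun p : ℕ × ℕ => encb 32 24 (fun j => if bx p.1 j then n j else 0) * v p.2) (fun p => p.1 + (24 - p.2)) hS]
    have e3 : ∑ p ∈ (range 24 ×ˢ range 24).filter (fun p : ℕ × ℕ => p.1 + (24 - p.2) = 24),
        encb 32 24 (fun j => if bx p.1 j then n j else 0) * v p.2 =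
        ∑ l ∈ range 24, encb 32 24 (fun j => if bx l j then n j else 0) * v l := by
      rw [sum_filter, sum_product]
      refine sum_congr rfl fun l hl => ?_
      have hl' := mem_range.1 hl
      rw [sum_eq_single_of_mem l hl]
      · rw [if_pos (by omega)]
      · intro i hi hne
        have hi' := mem_range.1 hi
        rw [if_neg (by omega)]
    rw [e3]
    unfold encb
    simp only [sum_mul]
    rw [sum_comm]
    refine sum_congr rfl fun j _ => ?_
    refine sum_congr rfl fun l _ => ?_
    split_ifs <;> ring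
  rw [eY]
  -- the mask
  have eM : (ones24 - encb 32 24 (fun j => (b j).toNat)) * 4294967295 =
      encb 32 24 (fun j => if b j then 0 else 4294967295) := by
    rw [ones24_eq, encb_sub, mul_comm, encb_mul]
    · apply encb_congr
      intro j _
      cases b j <;> simp
    · intro j _
      exact Bool.toNat_le _
  rw [eM]
  have hb4 : ∀ j < 24, (∑ l ∈ range 24, (if bx l j then v l else 0)) * n j < 2 ^ 32 := by
    intro j hj
    calc (∑ l ∈ range 24, (if bx l j then v l else 0)) * n j ≤ 32 * 32 := Nat.mul_le_mul (hyj j hj) (hnj j hj)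
      _ < 2 ^ 32 := by norm_num
  have hb5 : ∀ j < 24, (if b j then 0 else 4294967295) < 2 ^ 32 := by
    intro j _
    split_ifs <;> norm_num
  have hb6 : ∀ j < 24, (if b j then 0 else (∑ l ∈ range 24, (if bx l j then v l else 0)) * n j) < 2 ^ 32 := by
    intro j hj
    split_ifs
    · norm_num
    · exact hb4 j hj
  apply dgb_ext (b := 32) (by norm_num)
  intro t
  rw [dgb_and, dgb_encb hb4, dgb_encb hb5, dgb_encb hb6]
  by_cases h : t < 24
  · simp only [h, if_true]
    by_cases h2 : b t = true
    · simp [h2]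
    · simp only [h2, Bool.false_eq_true, if_false]
      exact and_BM (hb4 t h)
  · simp [h]

end Pool.Agent.K3
end

section

/-!
# The degree multipliers: bit planes
-/

set_option autoImplicit false

namespace Pool.Agent.K3

open Finset

/-- the multiplier of cell `j`, read off the bit planes -/
def uu (u j : ℕ) : ℕ := ∑ b ∈ range 6, 2 ^ b * (u.testBit (24 * b + j)).toNat

theorem uu_le (u j : ℕ) : uu u j ≤ 63 := by
  unfold uu
  have h : ∀ b : Bool, b.toNat ≤ 1 := fun b => by cases b <;> simp
  calc ∑ b ∈ range 6, 2 ^ b * (u.testBit (24 * b + j)).toNat ≤ ∑ b ∈ range 6, 2 ^ b * 1 :=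
        sum_le_sum fun b _ => Nat.mul_le_mul_left _ (h _)
    _ = 63 := by decide

theorem ones24_enc : ones24 = encb 32 24 (fun _ => 1) := by
  unfold ones24 encb
  decide +kernel

theorem k31_enc (m : ℕ) : m * k31 = encb 31 24 (fun _ => m) := by
  have h : k31 = encb 31 24 (fun _ => 1) := by
    unfold k31 encb
    decide +kernel
  rw [h]
  unfold encb
  rw [mul_sum]
  exact sum_congr rfl fun k _ => by ring

theorem spread_enc {m : ℕ} (hm : m < 2 ^ 24) :
    spread m = encb 32 24 (fun j => (m.testBit j).toNat) := by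
  apply dgb_ext (b := 32) (by norm_num)
  intro t
  have hb : ∀ b : Bool, b.toNat < 2 ^ 32 := fun b => by cases b <;> simp
  rw [dgb_encb (fun k _ => hb _)]
  unfold spread
  rw [show Nat.land (Nat.mul m k31) ones24 = (m * k31) &&& ones24 from rfl, dgb_and, ones24_enc,
    dgb_encb (fun _ _ => by norm_num)]
  split_ifs with h
  · rw [Nat.and_one_is_mod]
    have e1 : (dgb 32 (m * k31) t).testBit 0 = m.testBit t := by
      rw [dgb_testBit, show 32 * t + 0 = 31 * t + t by ring]
      have e2 := dgb_testBit 31 (m * k31) t t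
      rw [k31_enc, dgb_encb (fun k _ => by omega), if_pos h] at e2
      rw [k31_enc, e2]
      simp [show t < 31 by omega]
    rw [Nat.testBit_zero] at e1
    rcases Nat.mod_two_eq_zero_or_one (dgb 32 (m * k31) t) with h0 | h0
    · rw [h0] at e1 ⊢
      rw [← e1]
      rfl
    · rw [h0] at e1 ⊢
      rw [← e1]
      rfl
  · rw [Nat.and_zero]

theorem selz_enc {f n : ℕ → ℕ} (hf : ∀ j < 24, f j ≤ 1) (hn : ∀ j < 24, n j < 2 ^ 32) :
    selz (encb 32 24 f) (encb 32 24 n) = encb 32 24 (fun j => f j * n j) := by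
  apply dgb_ext (b := 32) (by norm_num)
  intro t
  have e : Nat.mul (encb 32 24 f) 4294967295 = encb 32 24 (fun j => f j * 4294967295) := by
    rw [Nat.mul_eq]
    unfold encb
    rw [sum_mul]
    exact sum_congr rfl fun k _ => by ring
  have h1 : ∀ j < 24, f j * n j < 2 ^ 32 := fun j hj => by
    have := hf j hj
    have := hn j hj
    calc f j * n j ≤ 1 * n j := Nat.mul_le_mul_right _ (hf j hj)
      _ < 2 ^ 32 := by omega
  have h2 : ∀ j < 24, f j * 4294967295 < 2 ^ 32 := fun j hj => by
    have := hf j hj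
    omega
  rw [dgb_encb h1]
  unfold selz
  rw [e, show Nat.land (encb 32 24 (fun j => f j * 4294967295)) (encb 32 24 n) =
    encb 32 24 (fun j => f j * 4294967295) &&& encb 32 24 n from rfl, dgb_and, dgb_encb h2,
    dgb_encb hn]
  split_ifs with h
  · have h3 := hf t h
    interval_cases f t
    · simp
    · rw [one_mul, one_mul, Nat.and_comm, and_BM (hn t h)]
  · simp

theorem plane_enc {n : ℕ → ℕ} (hn : ∀ j < 24, n j < 2 ^ 32) (u b : ℕ) :
    plane (encb 32 24 n) u b =
      encb 32 24 (fun j => 2 ^ b * (u.testBit (24 * b + j)).toNat * n j) := by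
  have hm : Nat.land (Nat.shiftRight u (Nat.mul 24 b)) 16777215 = (u >>> (24 * b)) % 2 ^ 24 := by
    rw [show Nat.land (Nat.shiftRight u (Nat.mul 24 b)) 16777215 = (u >>> (24 * b)) &&& (2 ^ 24 - 1)
      from rfl, Nat.and_two_pow_sub_one_eq_mod]
  have hlt : (u >>> (24 * b)) % 2 ^ 24 < 2 ^ 24 := Nat.mod_lt _ (by positivity)
  have hb : ∀ b : Bool, b.toNat ≤ 1 := fun b => by cases b <;> simp
  unfold plane
  rw [hm, spread_enc hlt, selz_enc (fun j _ => hb _) hn,
    show ∀ x y : ℕ, Nat.shiftLeft x y = x <<< y from fun _ _ => rfl, Nat.shiftLeft_eq]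
  unfold encb
  rw [sum_mul]
  refine sum_congr rfl fun j hj => ?_
  have hj' := mem_range.1 hj
  have e : ((u >>> (24 * b)) % 2 ^ 24).testBit j = u.testBit (24 * b + j) := by
    rw [Nat.testBit_mod_two_pow, Nat.testBit_shiftRight]
    simp [hj']
  simp only [e]
  ring

theorem uvec_eq {n : ℕ → ℕ} (hn : ∑ j ∈ range 24, n j ≤ 32) (u : ℕ) :
    uvec (encb 32 24 n) u = encb 32 24 (fun j => uu u j * n j) := by
  have hn' : ∀ j < 24, n j < 2 ^ 32 := fun j hj => by
    have h1 : n j ≤ ∑ j ∈ range 24, n j :=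
      single_le_sum (f := n) (fun _ _ => Nat.zero_le _) (mem_range.2 hj)
    omega
  unfold uvec
  simp only [Nat.add_eq, plane_enc hn']
  unfold encb
  simp only [← sum_add_distrib]
  refine sum_congr rfl fun j _ => ?_
  unfold uu
  simp only [sum_range_succ, range_zero, sum_empty]
  ring

end Pool.Agent.K3
end
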